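import Pool.Agent.helper9.HB49.AsmGamma

set_option autoImplicit false

/-! # The classification -/

open Set

namespace Pool.Agent.helper9.HB49

variable {α : Type*} {M : Matroid α}

theorem gen_five [M.Finite] {a b c h h' : α} (ha : a ∈ M.E) (hb : b ∈ M.E) (hc : c ∈ M.E)
    (hh : h ∈ M.E) (hh' : h' ∈ M.E)
    (T1 : ¬ D M a b c) (T2 : ¬ D M a b h) (T3 : ¬ D M a b h') (T4 : ¬ D M a c h)
    (T5 : ¬ D M a c h') (T6 : ¬ D M b c h) (T7 : ¬ D M b c h') (T8 : ¬ D M a h h')
    (T9 : ¬ D M b h h') (T10 : ¬ D M c h h') : ∃ A : Finset α, Gen M A ∧ 5 ≤ A.card := by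
  classical
  refine ⟨{a, b, c, h, h'}, ⟨?_, ?_⟩, ?_⟩
  · intro e he
    simp only [Finset.coe_insert, Finset.coe_singleton, mem_insert_iff, mem_singleton_iff] at he
    rcases he with rfl | rfl | rfl | rfl | rfl <;> assumption
  · intro x hx y hy z hz hxy hxz hyz
    simp only [Finset.mem_insert, Finset.mem_singleton] at hx hy hz
    rcases hx with rfl | rfl | rfl | rfl | rfl <;> rcases hy with rfl | rfl | rfl | rfl | rfl <;>
      first
      | exact absurd rfl hxy
      | skip
    all_goals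
      rcases hz with rfl | rfl | rfl | rfl | rfl <;>
      first
      | exact absurd rfl hxz
      | exact absurd rfl hyz
      | exact fun h'' => T1 (h'')
      | exact fun h'' => T1 (D12.1 h'')
      | exact fun h'' => T1 (D23.1 h'')
      | exact fun h'' => T1 (D13.1 h'')
      | exact fun h'' => T1 (Drot.1 h'')
      | exact fun h'' => T1 (Drot.2 h'')
      | exact fun h'' => T2 (h'')
      | exact fun h'' => T2 (D12.1 h'')
      | exact fun h'' => T2 (D23.1 h'')
      | exact fun h'' => T2 (D13.1 h'')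
      | exact fun h'' => T2 (Drot.1 h'')
      | exact fun h'' => T2 (Drot.2 h'')
      | exact fun h'' => T3 (h'')
      | exact fun h'' => T3 (D12.1 h'')
      | exact fun h'' => T3 (D23.1 h'')
      | exact fun h'' => T3 (D13.1 h'')
      | exact fun h'' => T3 (Drot.1 h'')
      | exact fun h'' => T3 (Drot.2 h'')
      | exact fun h'' => T4 (h'')
      | exact fun h'' => T4 (D12.1 h'')
      | exact fun h'' => T4 (D23.1 h'')
      | exact fun h'' => T4 (D13.1 h'')
      | exact fun h'' => T4 (Drot.1 h'')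
      | exact fun h'' => T4 (Drot.2 h'')
      | exact fun h'' => T5 (h'')
      | exact fun h'' => T5 (D12.1 h'')
      | exact fun h'' => T5 (D23.1 h'')
      | exact fun h'' => T5 (D13.1 h'')
      | exact fun h'' => T5 (Drot.1 h'')
      | exact fun h'' => T5 (Drot.2 h'')
      | exact fun h'' => T6 (h'')
      | exact fun h'' => T6 (D12.1 h'')
      | exact fun h'' => T6 (D23.1 h'')
      | exact fun h'' => T6 (D13.1 h'')
      | exact fun h'' => T6 (Drot.1 h'')
      | exact fun h'' => T6 (Drot.2 h'')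
      | exact fun h'' => T7 (h'')
      | exact fun h'' => T7 (D12.1 h'')
      | exact fun h'' => T7 (D23.1 h'')
      | exact fun h'' => T7 (D13.1 h'')
      | exact fun h'' => T7 (Drot.1 h'')
      | exact fun h'' => T7 (Drot.2 h'')
      | exact fun h'' => T8 (h'')
      | exact fun h'' => T8 (D12.1 h'')
      | exact fun h'' => T8 (D23.1 h'')
      | exact fun h'' => T8 (D13.1 h'')
      | exact fun h'' => T8 (Drot.1 h'')
      | exact fun h'' => T8 (Drot.2 h'')
      | exact fun h'' => T9 (h'')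
      | exact fun h'' => T9 (D12.1 h'')
      | exact fun h'' => T9 (D23.1 h'')
      | exact fun h'' => T9 (D13.1 h'')
      | exact fun h'' => T9 (Drot.1 h'')
      | exact fun h'' => T9 (Drot.2 h'')
      | exact fun h'' => T10 (h'')
      | exact fun h'' => T10 (D12.1 h'')
      | exact fun h'' => T10 (D23.1 h'')
      | exact fun h'' => T10 (D13.1 h'')
      | exact fun h'' => T10 (Drot.1 h'')
      | exact fun h'' => T10 (Drot.2 h'')
  · rw [Finset.card_insert_of_notMem, Finset.card_insert_of_notMem, Finset.card_insert_of_notMem,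
      Finset.card_pair (ne23 T8)]
    · simp [ne12 T10, ne13 T10]
    · simp [ne23 T1, ne12 T9, ne13 T9]
    · simp [ne12 T1, ne13 T1, ne12 T8, ne13 T8]

/-- facts about the complement of a cocircuit -/
theorem cocircuit_facts [M.Finite] {K : Set α} (hK : M.IsCocircuit K) :
    rk M (M.E \ K) < rk M M.E ∧ ∀ e ∈ K, rk M (insert e (M.E \ K)) = rk M M.E := by
  rw [Matroid.isCocircuit_iff_minimal_compl_nonspanning] at hK
  have hsp : ∀ X ⊆ M.E, M.Spanning X ↔ rk M X = rk M M.E := by
    intro X hX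
    rw [Matroid.spanning_iff_eRk_le' ]
    constructor
    · rintro ⟨h1, -⟩
      rw [← M.eRk_ground, ← cast_rk, ← cast_rk] at h1
      have h2 : rk M M.E ≤ rk M X := by exact_mod_cast h1
      exact le_antisymm (rk_mono hX) h2
    · intro h1
      refine ⟨?_, hX⟩
      rw [← M.eRk_ground, ← cast_rk, ← cast_rk, h1]
  constructor
  · have h1 := hK.prop
    rw [hsp _ sdiff_subset] at h1
    exact lt_of_le_of_ne (rk_mono sdiff_subset) h1
  · intro e he
    have h1 : M.Spanning (M.E \ (K \ {e})) := by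
      by_contra hcon
      have h2 := hK.le_of_le hcon sdiff_subset he
      exact h2.2 rfl
    rw [hsp _ sdiff_subset] at h1
    refine le_antisymm ?_ ?_
    · have h3 := rk_mono (M := M) (X := insert e (M.E \ K)) (Y := M.closure (insert e (M.E \ K) ))
      have h4 := M.eRk_le_eRank (insert e (M.E \ K))
      rw [← M.eRk_ground, ← cast_rk, ← cast_rk] at h4
      exact_mod_cast h4
    · rw [← h1]
      refine rk_mono ?_
      rintro f ⟨hf1, hf2⟩
      by_cases hfe : f = e
      · exact Or.inl hfe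
      · exact Or.inr ⟨hf1, fun h => hf2 ⟨h, hfe⟩⟩

theorem nonbinary_cases [M.Finite] (hr : ∀ X, rk M X ≤ 3) (hl : ∀ e ∈ M.E, rk M {e} = 1)
    (hnb : ¬ Binary M) :
    (rk M M.E ≤ 2 ∧ ∃ a ∈ M.E, ∃ b ∈ M.E, ∃ c ∈ M.E, ∃ d ∈ M.E, Alpha M a b c d) ∨
    (rk M M.E = 3 ∧ ∃ a ∈ M.E, ∃ b ∈ M.E, ∃ c ∈ M.E, ∃ d ∈ M.E, Alpha M a b c d) ∨
    (∃ a ∈ M.E, ∃ b ∈ M.E, ∃ c ∈ M.E, ∃ x ∈ M.E, ∃ y ∈ M.E, Beta M a b c x y) ∨
    (∃ A : Finset α, Gen M A ∧ 5 ≤ A.card) := by
  rw [Binary] at hnb
  push Not at hnb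
  obtain ⟨C, K, hC, hK, hodd⟩ := hnb
  rw [Nat.not_even_iff_odd] at hodd
  have hCf := circuit_finite hC
  have hCKf : (C ∩ K).Finite := hCf.subset inter_subset_left
  have hKE : K ⊆ M.E := hK.subset_ground
  have hn : (C ∩ K).ncard = 3 := by
    have h1 : (C ∩ K).ncard ≠ 1 := by
      intro h
      obtain ⟨e, he⟩ := ncard_eq_one.1 h
      exact hC.inter_isCocircuit_ne_singleton hK he
    have h2 := ncard_le_ncard (inter_subset_left : C ∩ K ⊆ C) hCf
    have h3 := circuit_rk hC
    have h4 := hr C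
    obtain ⟨k, hk⟩ := hodd
    omega
  obtain ⟨a, b, c, hab, hac, hbc, hCK⟩ := ncard_eq_three.1 hn
  have haCK : a ∈ C ∩ K := hCK.symm ▸ (by simp)
  have hbCK : b ∈ C ∩ K := hCK.symm ▸ (by simp)
  have hcCK : c ∈ C ∩ K := hCK.symm ▸ (by simp)
  have ha := hC.subset_ground haCK.1
  have hb := hC.subset_ground hbCK.1
  have hc := hC.subset_ground hcCK.1
  obtain ⟨hH1, hH2⟩ := cocircuit_facts hK
  set H := M.E \ K with hH
  have hHE : H ⊆ M.E := sdiff_subset
  -- points of `H` and of `K`
  have hPKH : ∀ e ∈ K, ∀ x ∈ H, ¬ P M e x := by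
    intro e he x hx hP
    have h1 := rk_submod (M := M) {e, x} H {x} (insert e H)
      (subset_inter (by rintro f rfl; simp) (by rintro f rfl; exact hx))
      (insert_subset (Or.inl (by simp)) subset_union_right)
    have h2 := hH2 e he
    have h3 := hl x (hHE hx)
    rw [P] at hP
    omega
  have hDKH : ∀ e ∈ K, ∀ x ∈ H, ∀ y ∈ H, ¬ P M x y → ¬ D M e x y := by
    intro e he x hx y hy hP hD
    have h1 := rk_submod (M := M) {e, x, y} H {x, y} (insert e H)
      (subset_inter (by rintro f (rfl | rfl) <;> simp) (by rintro f (rfl | rfl) <;> assumption))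
      (insert_subset (Or.inl (by simp)) subset_union_right)
    have h2 := hH2 e he
    rw [P] at hP
    rw [D] at hD
    omega
  have hCr := circuit_rk hC
  have hCE := rk_mono (M := M) hC.subset_ground
  have h3C : 3 ≤ C.ncard := by rw [← hn]; exact ncard_le_ncard inter_subset_left hCf
  have pab : ¬ P M a b := not_P_of_indep hab (hC.ssubset_indep ⟨by
    rintro f (rfl | rfl); exacts [haCK.1, hbCK.1], fun h => by
      rcases h hcCK.1 with h1 | h1
      · exact hac h1.symm
      · exact hbc (mem_singleton_iff.1 h1).symm⟩)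
  have pac : ¬ P M a c := not_P_of_indep hac (hC.ssubset_indep ⟨by
    rintro f (rfl | rfl); exacts [haCK.1, hcCK.1], fun h => by
      rcases h hbCK.1 with h1 | h1
      · exact hab h1.symm
      · exact hbc (mem_singleton_iff.1 h1)⟩)
  have pbc : ¬ P M b c := not_P_of_indep hbc (hC.ssubset_indep ⟨by
    rintro f (rfl | rfl); exacts [hbCK.1, hcCK.1], fun h => by
      rcases h haCK.1 with h1 | h1
      · exact hab h1
      · exact hac (mem_singleton_iff.1 h1)⟩)
  have hH2' : rk M M.E ≤ rk M H + 1 := by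
    have h1 := rk_submod (M := M) {a} H ∅ (insert a H) (empty_subset _)
      (insert_subset (Or.inl rfl) subset_union_right)
    have h2 := hH2 a haCK.2
    have h3 := hl a ha
    omega
  have hE3 := hr M.E
  by_cases hrk : rk M M.E ≤ 2
  · -- rank two
    left
    refine ⟨hrk, a, ha, b, hb, c, hc, ?_⟩
    have hHne : H.Nonempty := by
      by_contra hcon
      rw [not_nonempty_iff_eq_empty] at hcon
      rw [hcon, rk_empty] at hH2'
      omega
    obtain ⟨d, hd⟩ := hHne
    have hD : ∀ x ∈ M.E, ∀ y ∈ M.E, ∀ z ∈ M.E, D M x y z := by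
      intro x hx y hy z hz
      have h3 : ({x, y, z} : Set α) ⊆ M.E := by rintro e (rfl | rfl | rfl) <;> assumption
      have := rk_mono (M := M) h3
      rw [D]
      omega
    exact ⟨d, hHE hd, Alpha.mk' pab pac (hPKH a haCK.2 d hd) pbc (hPKH b hbCK.2 d hd)
      (hPKH c hcCK.2 d hd) (hD a ha b hb c hc) (hD a ha b hb d (hHE hd))⟩
  right
  have hrk3 : rk M M.E = 3 := by omega
  -- two nonparallel points of `H`
  obtain ⟨x, hx, y, hy, hxy⟩ : ∃ x ∈ H, ∃ y ∈ H, ¬ P M x y := by
    have h1 : (2 : ℕ∞) ≤ M.eRk H := by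
      rw [← cast_rk]
      have : 2 ≤ rk M H := by omega
      exact_mod_cast this
    obtain ⟨I, hIH, hI, hI2⟩ := Matroid.le_eRk_iff.1 h1
    obtain ⟨x, y, hxy, rfl⟩ := encard_eq_two.1 hI2
    exact ⟨x, hIH (by simp), y, hIH (by simp), not_P_of_indep hxy hI⟩
  have hC4 := hr C
  have hcases : C.ncard = 3 ∨ C.ncard = 4 := by omega
  rcases hcases with hC3 | hC4
  · -- the circuit is `a b c`
    have hCe : C = {a, b, c} := by
      rw [← hCK]
      exact (eq_of_subset_of_ncard_le inter_subset_left (by omega) hCf).symm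
    have abc : D M a b c := by
      rw [D, ← hCe]
      omega
    by_cases hD : ∃ z ∈ H, D M a b z
    · left
      obtain ⟨z, hz, hzD⟩ := hD
      exact ⟨hrk3, a, ha, b, hb, c, hc, z, hHE hz, Alpha.mk' pab pac (hPKH a haCK.2 z hz) pbc
        (hPKH b hbCK.2 z hz) (hPKH c hcCK.2 z hz) abc hzD⟩
    · right
      left
      push Not at hD
      refine ⟨a, ha, b, hb, c, hc, x, hHE hx, y, hHE hy, abc, hD x hx, hD y hy,
        off pac abc (hD x hx), off pac abc (hD y hy),
        off pbc (D12.1 abc) (fun h' => hD x hx (D12.1 h')),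
        off pbc (D12.1 abc) (fun h' => hD y hy (D12.1 h')),
        hDKH a haCK.2 x hx y hy hxy, hDKH b hbCK.2 x hx y hy hxy, hDKH c hcCK.2 x hx y hy hxy⟩
  · -- four elements
    obtain ⟨h, hhC, hhCK⟩ := exists_mem_notMem_of_ncard_lt_ncard
      (by rw [hn, hC4]; norm_num : (C ∩ K).ncard < C.ncard) hCKf
    have hhK : h ∉ K := fun h' => hhCK ⟨hhC, h'⟩
    have hhE := hC.subset_ground hhC
    have hhH : h ∈ H := ⟨hhE, hhK⟩
    have hah : a ≠ h := fun h' => hhK (h' ▸ haCK.2)
    have hbh : b ≠ h := fun h' => hhK (h' ▸ hbCK.2)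
    have hch : c ≠ h := fun h' => hhK (h' ▸ hcCK.2)
    obtain ⟨h', hh'H, hhh⟩ : ∃ h' ∈ H, ¬ P M h h' := by
      by_contra hcon
      push Not at hcon
      exact hxy (P_trans (hl h hhE) (P_comm.1 (hcon x hx)) (hcon y hy))
    have hh'E := hHE hh'H
    have tri : ∀ p q r : α, p ∈ C → q ∈ C → r ∈ C → p ≠ q → p ≠ r → q ≠ r → ¬ D M p q r := by
      intro p q r hp hq hr' hpq hpr hqr
      refine not_D_of_indep hpq hpr hqr (indep_sub_circuit hC ?_ ?_)
      · rintro f (rfl | rfl | rfl) <;> assumption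
      · rw [ncard3 hpq hpr hqr, hC4]
        norm_num
    have abc := tri a b c haCK.1 hbCK.1 hcCK.1 hab hac hbc
    have abh := tri a b h haCK.1 hbCK.1 hhC hab hah hbh
    have ach := tri a c h haCK.1 hcCK.1 hhC hac hah hch
    have bch := tri b c h hbCK.1 hcCK.1 hhC hbc hbh hch
    have ahh := hDKH a haCK.2 h hhH h' hh'H hhh
    have bhh := hDKH b hbCK.2 h hhH h' hh'H hhh
    have chh := hDKH c hcCK.2 h hhH h' hh'H hhh
    have pah' := hPKH a haCK.2 h' hh'H
    have pbh' := hPKH b hbCK.2 h' hh'H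
    have pch' := hPKH c hcCK.2 h' hh'H
    right
    -- a `Beta` from a collinear triple `p q h'`
    have mk : ∀ p q r : α, ¬ P M p h' → ¬ P M q h' → D M p q h' → ¬ D M p q r → ¬ D M p q h →
        ¬ D M p h h' → ¬ D M q h h' → ¬ D M r h h' → ¬ D M p r h → ¬ D M q r h →
        Beta M p q h' r h := by
      intro p q r pp pq pqh' pqr pqh phh qhh rhh prh qrh
      exact ⟨pqh', pqr, pqh, off pp pqh' pqr, fun h'' => phh (D23.1 h''),
        off pq (D12.1 pqh') (fun h'' => pqr (D12.1 h'')), fun h'' => qhh (D23.1 h''),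
        prh, qrh, fun h'' => rhh (Drot.1 h'')⟩
    by_cases h1 : D M a b h'
    · left
      exact ⟨a, ha, b, hb, h', hh'E, c, hc, h, hhE, mk a b c pah' pbh' h1 abc abh ahh bhh chh ach
        bch⟩
    by_cases h2 : D M a c h'
    · left
      exact ⟨a, ha, c, hc, h', hh'E, b, hb, h, hhE, mk a c b pah' pch' h2
        (fun h'' => abc (D23.1 h'')) ach ahh chh bhh abh (fun h'' => bch (D12.1 h''))⟩
    by_cases h3 : D M b c h'
    · left
      exact ⟨b, hb, c, hc, h', hh'E, a, ha, h, hhE, mk b c a pbh' pch' h3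
        (fun h'' => abc (Drot.2 h'')) bch bhh chh ahh (fun h'' => abh (D12.1 h''))
        (fun h'' => ach (D12.1 h''))⟩
    right
    exact gen_five ha hb hc hhE hh'E abc abh h1 ach h2 bch h3 ahh bhh chh

/-- the classification of the nonbinary connected matroids of rank at most three -/
theorem classification [M.Finite] (hrank : M.eRank ≤ 3) (hconn : Connected M)
    (hnb : ¬ Binary M) :
    CircuitsHilbert M ↔ UniformType M ∨ TwoLines M ∨ LinePointClass M := by
  classical
  have hr : ∀ X, rk M X ≤ 3 := by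
    intro X
    have h1 := (M.eRk_le_eRank X).trans hrank
    rw [← cast_rk] at h1
    exact_mod_cast h1
  constructor
  · intro hM
    have hl : ∀ e ∈ M.E, rk M {e} = 1 := by
      intro e he
      obtain ⟨f, hf, hef⟩ : ∃ f ∈ M.E, e ≠ f := by
        by_contra hcon
        push Not at hcon
        apply hnb
        intro C K hC hK
        have hsub : C ∩ K ⊆ {e} := fun f hf => (hcon f (hC.subset_ground hf.1)).symm
        rcases subset_singleton_iff_eq.1 hsub with h | h
        · rw [h]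
          simp
        · exact absurd h (hC.inter_isCocircuit_ne_singleton hK)
      obtain ⟨C, hC, heC, hfC⟩ := hconn e he f hf hef
      have h1 : M.Indep {e} := hC.ssubset_indep
        ⟨by rintro g rfl; exact heC, fun h => hef (h hfC).symm⟩
      rw [indep_iff_rk (by simp), ncard_singleton] at h1
      exact h1
    have hbeta : (∃ a ∈ M.E, ∃ b ∈ M.E, ∃ c ∈ M.E, ∃ x ∈ M.E, ∃ y ∈ M.E, Beta M a b c x y) →
        UniformType M ∨ TwoLines M ∨ LinePointClass M := by
      rintro ⟨a, ha, b, hb, c, hc, x, hx, y, hy, h⟩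
      exact Or.inr (beta_types hM hr hl h ha hb hc hx hy)
    by_cases hB : ∃ a ∈ M.E, ∃ b ∈ M.E, ∃ c ∈ M.E, ∃ x ∈ M.E, ∃ y ∈ M.E, Beta M a b c x y
    · exact hbeta hB
    rcases nonbinary_cases hr hl hnb with ⟨h2, a, ha, b, hb, c, hc, d, hd, h⟩ |
      ⟨h3, a, ha, b, hb, c, hc, d, hd, h⟩ | h | ⟨A, hA, h5⟩
    · exact Or.inl (uniform_of_alpha hM hl h2 h ha hb hc hd)
    · obtain ⟨x, hx, y, hy, h'⟩ := beta_of_alpha hM hr hl hconn h3 h ha hb hc hd
      exact hbeta ⟨a, ha, b, hb, c, hc, x, hx, y, hy, h'⟩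
    · exact hbeta h
    · left
      refine uniform_of_gen hM hr hl ?_ hA h5
      intro a ha b hb c hc x hx y hy h
      exact hB ⟨a, ha, b, hb, c, hc, x, hx, y, hy, h⟩
  · rintro (⟨r, h⟩ | ⟨L, Q, hd, hE, -, -, h⟩ | ⟨L, X, y, hd, hyL, hyX, hE, -, -, h⟩)
    · exact uniform_hilbert r h
    · exact lines_hilbert hd hE h
    · exact linesp_hilbert hd hyL hyX hE h

end Pool.Agent.helper9.HB49
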