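import Pool.Agent.helper9.HB49.SuffC

set_option autoImplicit false

/-! # Points and lines in a matroid of rank at most three -/

open Set

namespace Pool.Agent.helper9.HB49

variable {α : Type*}

/-- the rank as a natural number -/
noncomputable def rk (M : Matroid α) (X : Set α) : ℕ := (M.eRk X).toNat

section rk

variable {M : Matroid α} [M.RankFinite]

theorem cast_rk (X : Set α) : (rk M X : ℕ∞) = M.eRk X := by
  rw [rk, ENat.coe_toNat]
  rw [Matroid.eRk_ne_top_iff]
  exact Matroid.isRkFinite_set M X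

theorem rk_empty : rk M ∅ = 0 := by
  simp [rk]

theorem rk_mono {X Y : Set α} (h : X ⊆ Y) : rk M X ≤ rk M Y := by
  have := M.eRk_mono h
  rw [← cast_rk, ← cast_rk] at this
  exact_mod_cast this

theorem rk_submod (X Y Z W : Set α) (hZ : Z ⊆ X ∩ Y) (hW : W ⊆ X ∪ Y) :
    rk M W + rk M Z ≤ rk M X + rk M Y := by
  have h1 := M.eRk_inter_add_eRk_union_le X Y
  rw [← cast_rk, ← cast_rk, ← cast_rk, ← cast_rk] at h1
  have h2 : rk M (X ∩ Y) + rk M (X ∪ Y) ≤ rk M X + rk M Y := by exact_mod_cast h1
  have h3 := rk_mono (M := M) hZ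
  have h4 := rk_mono (M := M) hW
  omega

theorem rk_le_ncard {X : Set α} (hX : X.Finite) : rk M X ≤ X.ncard := by
  have := M.eRk_le_encard X
  rw [← cast_rk, ← hX.cast_ncard_eq] at this
  exact_mod_cast this

theorem indep_iff_rk {X : Set α} (hX : X.Finite) : M.Indep X ↔ rk M X = X.ncard := by
  rw [M.indep_iff_eRk_eq_encard_of_finite hX, ← cast_rk, ← hX.cast_ncard_eq]
  exact Nat.cast_inj

theorem circuit_finite {C : Set α} (hC : M.IsCircuit C) : C.Finite := hC.finite

theorem circuit_rk {C : Set α} (hC : M.IsCircuit C) : rk M C + 1 = C.ncard := by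
  have := hC.eRk_add_one_eq
  rw [← cast_rk, ← (circuit_finite hC).cast_ncard_eq] at this
  exact_mod_cast this

theorem isCircuit_of {C : Set α} (hCE : C ⊆ M.E) (hf : C.Finite) (hr : rk M C < C.ncard)
    (h : ∀ e ∈ C, M.Indep (C \ {e})) : M.IsCircuit C := by
  rw [Matroid.isCircuit_iff_dep_forall_sdiff_singleton_indep]
  refine ⟨⟨?_, hCE⟩, h⟩
  rw [indep_iff_rk hf]
  omega

end rk

section ncard

theorem ncard3 {a b c : α} (h1 : a ≠ b) (h2 : a ≠ c) (h3 : b ≠ c) :
    ({a, b, c} : Set α).ncard = 3 := by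
  rw [ncard_insert_of_notMem (by simp [h1, h2]), ncard_pair h3]

theorem ncard4 {a b c d : α} (h1 : a ≠ b) (h2 : a ≠ c) (h3 : a ≠ d) (h4 : b ≠ c) (h5 : b ≠ d)
    (h6 : c ≠ d) : ({a, b, c, d} : Set α).ncard = 4 := by
  rw [ncard_insert_of_notMem (by simp [h1, h2, h3]), ncard3 h4 h5 h6]

end ncard

/-- `x`, `y` are parallel or equal -/
def P (M : Matroid α) (x y : α) : Prop := rk M {x, y} ≤ 1

/-- `x`, `y`, `z` are on one line -/
def D (M : Matroid α) (x y z : α) : Prop := rk M {x, y, z} ≤ 2

section geo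

variable {M : Matroid α}

theorem P_comm {x y : α} : P M x y ↔ P M y x := by rw [P, P, pair_comm]

theorem D12 {x y z : α} : D M x y z ↔ D M y x z := by rw [D, D, insert_comm]

theorem D23 {x y z : α} : D M x y z ↔ D M x z y := by rw [D, D, pair_comm y z]

theorem D13 {x y z : α} : D M x y z ↔ D M z y x := by rw [D12, D23, D12]

/-- `yzx` -/
theorem Drot {x y z : α} : D M x y z ↔ D M y z x := by rw [D12, D23]

variable [M.RankFinite]

theorem P_self (x : α) : P M x x := by
  rw [P, pair_eq_singleton]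
  have := rk_le_ncard (M := M) (finite_singleton x)
  rwa [ncard_singleton] at this

theorem ne_of_not_P {x y : α} (h : ¬ P M x y) : x ≠ y := by
  rintro rfl
  exact h (P_self x)

theorem D_of_P {x y z : α} (h : P M x y) : D M x y z := by
  have h1 := rk_submod (M := M) {x, y} {z} ∅ {x, y, z} (empty_subset _)
    (by rintro e (rfl | rfl | rfl) <;> simp)
  have h2 := rk_le_ncard (M := M) (finite_singleton z)
  rw [ncard_singleton] at h2
  rw [P] at h
  rw [D]
  omega

theorem not_P12 {x y z : α} (h : ¬ D M x y z) : ¬ P M x y := fun h' => h (D_of_P h')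

theorem not_P23 {x y z : α} (h : ¬ D M x y z) : ¬ P M y z := fun h' =>
  h (Drot.2 (D_of_P h'))

theorem not_P13 {x y z : α} (h : ¬ D M x y z) : ¬ P M x z := fun h' =>
  h (D23.2 (D_of_P h'))

theorem ne12 {x y z : α} (h : ¬ D M x y z) : x ≠ y := ne_of_not_P (not_P12 h)
theorem ne23 {x y z : α} (h : ¬ D M x y z) : y ≠ z := ne_of_not_P (not_P23 h)
theorem ne13 {x y z : α} (h : ¬ D M x y z) : x ≠ z := ne_of_not_P (not_P13 h)

theorem exch {x y z w : α} (h : ¬ P M x y) (h1 : D M x y z) (h2 : D M x y w) : D M x z w := by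
  have h3 := rk_submod (M := M) {x, y, z} {x, y, w} {x, y} {x, z, w}
    (subset_inter (by rintro e (rfl | rfl) <;> simp) (by rintro e (rfl | rfl) <;> simp))
    (by rintro e (rfl | rfl | rfl) <;> simp)
  rw [P] at h
  rw [D] at *
  omega

theorem P_trans {x y z : α} (hy : rk M {y} = 1) (h1 : P M x y) (h2 : P M y z) : P M x z := by
  have h3 := rk_submod (M := M) {x, y} {y, z} {y} {x, z}
    (subset_inter (by rintro e rfl; simp) (by rintro e rfl; simp))
    (by rintro e (rfl | rfl) <;> simp)
  rw [P] at *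
  omega

theorem D_replace {x x' y z : α} (hx : rk M {x} = 1) (h1 : P M x x') (h2 : D M x y z) :
    D M x' y z := by
  have h3 := rk_submod (M := M) {x, x'} {x, y, z} {x} {x', y, z}
    (subset_inter (by rintro e rfl; simp) (by rintro e rfl; simp))
    (by rintro e (rfl | rfl | rfl) <;> simp)
  rw [P] at *
  rw [D] at *
  omega

theorem indep_pair {x y : α} (h : ¬ P M x y) : M.Indep {x, y} := by
  rw [indep_iff_rk (by simp), ncard_pair (ne_of_not_P h)]
  have := rk_le_ncard (M := M) (X := {x, y}) (by simp)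
  rw [ncard_pair (ne_of_not_P h)] at this
  rw [P] at h
  omega

theorem indep_triple {x y z : α} (h : ¬ D M x y z) : M.Indep {x, y, z} := by
  have h1 := ncard3 (ne12 h) (ne13 h) (ne23 h)
  rw [indep_iff_rk (by simp), h1]
  have := rk_le_ncard (M := M) (X := {x, y, z}) (by simp)
  rw [h1] at this
  rw [D] at h
  omega

theorem not_P_of_indep {x y : α} (hxy : x ≠ y) (h : M.Indep {x, y}) : ¬ P M x y := by
  rw [indep_iff_rk (by simp), ncard_pair hxy] at h
  rw [P]
  omega

theorem not_D_of_indep {x y z : α} (h1 : x ≠ y) (h2 : x ≠ z) (h3 : y ≠ z)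
    (h : M.Indep {x, y, z}) : ¬ D M x y z := by
  rw [indep_iff_rk (by simp), ncard3 h1 h2 h3] at h
  rw [D]
  omega

/-! ### small circuits -/

theorem circ2 {x y : α} (hx : x ∈ M.E) (hy : y ∈ M.E) (hxl : rk M {x} = 1) (hyl : rk M {y} = 1)
    (hxy : x ≠ y) (h : P M x y) : M.IsCircuit {x, y} := by
  refine isCircuit_of (by rintro e (rfl | rfl) <;> assumption) (by simp) ?_ ?_
  · rw [ncard_pair hxy]
    rw [P] at h
    omega
  · rintro e (rfl | rfl)
    · rw [insert_sdiff_of_mem _ (mem_singleton _), sdiff_singleton_eq_self (by simpa using hxy),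
        indep_iff_rk (by simp), hyl, ncard_singleton]
    · rw [pair_comm, insert_sdiff_of_mem _ (mem_singleton _),
        sdiff_singleton_eq_self (by simpa using hxy.symm),
        indep_iff_rk (by simp), hxl, ncard_singleton]

theorem circ3 {x y z : α} (hx : x ∈ M.E) (hy : y ∈ M.E) (hz : z ∈ M.E) (h : D M x y z)
    (h1 : ¬ P M x y) (h2 : ¬ P M x z) (h3 : ¬ P M y z) : M.IsCircuit {x, y, z} := by
  have a1 := ne_of_not_P h1
  have a2 := ne_of_not_P h2
  have a3 := ne_of_not_P h3
  refine isCircuit_of (by rintro e (rfl | rfl | rfl) <;> assumption) (by simp) ?_ ?_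
  · rw [ncard3 a1 a2 a3]
    rw [D] at h
    omega
  · rintro e (rfl | rfl | rfl)
    · refine (indep_pair h3).subset ?_
      rintro f ⟨rfl | rfl | rfl, hf⟩
      · exact absurd rfl hf
      · simp
      · simp
    · refine (indep_pair h2).subset ?_
      rintro f ⟨rfl | rfl | rfl, hf⟩
      · simp
      · exact absurd rfl hf
      · simp
    · refine (indep_pair h1).subset ?_
      rintro f ⟨rfl | rfl | rfl, hf⟩
      · simp
      · simp
      · exact absurd rfl hf

theorem circ4 {x y z w : α} (hr : ∀ X, rk M X ≤ 3) (hx : x ∈ M.E) (hy : y ∈ M.E) (hz : z ∈ M.E)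
    (hw : w ∈ M.E) (h1 : ¬ D M x y z) (h2 : ¬ D M x y w) (h3 : ¬ D M x z w) (h4 : ¬ D M y z w) :
    M.IsCircuit {x, y, z, w} := by
  refine isCircuit_of (by rintro e (rfl | rfl | rfl | rfl) <;> assumption) (by simp) ?_ ?_
  · rw [ncard4 (ne12 h1) (ne13 h1) (ne13 h2) (ne23 h1) (ne23 h2) (ne23 h3)]
    have := hr {x, y, z, w}
    omega
  · rintro e (rfl | rfl | rfl | rfl)
    · refine (indep_triple h4).subset ?_
      rintro f ⟨rfl | rfl | rfl | rfl, hf⟩
      · exact absurd rfl hf
      all_goals simp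
    · refine (indep_triple h3).subset ?_
      rintro f ⟨rfl | rfl | rfl | rfl, hf⟩
      · simp
      · exact absurd rfl hf
      all_goals simp
    · refine (indep_triple h2).subset ?_
      rintro f ⟨rfl | rfl | rfl | rfl, hf⟩
      · simp
      · simp
      · exact absurd rfl hf
      · simp
    · refine (indep_triple h1).subset ?_
      rintro f ⟨rfl | rfl | rfl | rfl, hf⟩
      · simp
      · simp
      · simp
      · exact absurd rfl hf

end geo

/-! ### indicator vectors of small sets -/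

section chi

theorem chi_insert {R : Type} [AddMonoid R] [One R] {a : α} {S : Set α} (h : a ∉ S) :
    chi R (insert a S) = chi R {a} + chi R S := by
  classical
  funext e
  rw [Pi.add_apply, chi_apply, chi_apply, chi_apply]
  by_cases h1 : e = a
  · subst h1
    simp [h]
  · simp [h1]

variable {R : Type} [AddMonoid R] [One R]

theorem chi2 {a b : α} (h : a ≠ b) : chi R {a, b} = chi R {a} + chi R {b} :=
  chi_insert (by simpa using h)

theorem chi3 {a b c : α} (h1 : a ≠ b) (h2 : a ≠ c) (h3 : b ≠ c) :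
    chi R {a, b, c} = chi R {a} + (chi R {b} + chi R {c}) := by
  rw [chi_insert (by simp [h1, h2]), chi2 h3]

theorem chi4 {a b c d : α} (h1 : a ≠ b) (h2 : a ≠ c) (h3 : a ≠ d) (h4 : b ≠ c) (h5 : b ≠ d)
    (h6 : c ≠ d) :
    chi R {a, b, c, d} = chi R {a} + (chi R {b} + (chi R {c} + chi R {d})) := by
  rw [chi_insert (by simp [h1, h2, h3]), chi3 h4 h5 h6]

end chi

end Pool.Agent.helper9.HB49
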