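import Pool.Agent.helper9.HB49.Decomp

set_option autoImplicit false

/-! # Sufficiency: uniform matroids, two disjoint lines, line and series-parallel pair -/

open Set

namespace Pool.Agent.helper9.HB49

variable {α : Type*}

theorem sum_chi {R : Type} [Semiring R] (F : Finset α) (C : Set α) :
    ∑ e ∈ F, chi R C e = ((C ∩ F).ncard : R) := by
  classical
  have h1 : C ∩ F = ((F.filter fun e => e ∈ C : Finset α) : Set α) := by
    ext e
    simp [and_comm]
  rw [h1, Set.ncard_coe_finset, Finset.sum_congr rfl fun e _ => chi_apply (R := R) C e,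
    Finset.sum_boole]

theorem chi_nonneg (C : Set α) (e : α) : 0 ≤ chi ℚ C e := by
  classical
  rw [chi_apply]
  split_ifs <;> norm_num

theorem chi_le_one (C : Set α) (e : α) : chi ℚ C e ≤ 1 := by
  classical
  rw [chi_apply]
  split_ifs <;> norm_num

theorem cone_nonneg {M : Matroid α} {v : α → ℚ} (hv : v ∈ Cone M) (e : α) : 0 ≤ v e := by
  induction hv using Submodule.span_induction with
  | mem v hv =>
    obtain ⟨C, hC, rfl⟩ := hv
    exact chi_nonneg C e
  | zero => exact le_rfl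
  | add v w _ _ h1 h2 => exact add_nonneg h1 h2
  | smul q v _ h1 =>
    rw [Pi.smul_apply, NNRat.smul_def]
    positivity

theorem lat_support {M : Matroid α} {z : α → ℤ} (hz : z ∈ Lat M) {e : α} (he : e ∉ M.E) :
    z e = 0 := by
  induction hz using AddSubgroup.closure_induction with
  | mem v hv =>
    obtain ⟨C, hC, rfl⟩ := hv
    exact chi_apply_notMem fun h => he (hC.subset_ground h)
  | zero => rfl
  | add v w _ _ h1 h2 => simp [h1, h2]
  | neg v _ h1 => simp [h1]

theorem intCone_of_sum {M : Matroid α} {ι : Type*} [Fintype ι] (C : ι → Set α)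
    (hC : ∀ i, M.IsCircuit (C i)) : (fun e => ∑ i, chi ℤ (C i) e) ∈ IntCone M := by
  have : (fun e => ∑ i, chi ℤ (C i) e) = ∑ i, chi ℤ (C i) := by
    ext e
    rw [Finset.sum_apply]
  rw [this]
  exact sum_mem fun i _ => chi_mem_intCone (hC i)

theorem uniform_hilbert {M : Matroid α} [M.Finite] (s : ℕ)
    (hC : ∀ C, M.IsCircuit C ↔ C ⊆ M.E ∧ C.ncard = s + 1) : CircuitsHilbert M := by
  classical
  rw [hilbert_iff]
  intro p hp hc
  have hEf : M.E.Finite := M.ground_finite
  set F := hEf.toFinset with hF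
  have hFE : (F : Set α) = M.E := by simp [hF]
  have h0 : ∀ e, 0 ≤ p e := fun e => by
    have := cone_nonneg hc e
    exact_mod_cast this
  have hcF : ∀ C, M.IsCircuit C → (C ∩ F).ncard = s + 1 := by
    intro C h
    rw [hFE, inter_eq_left.2 h.subset_ground]
    exact ((hC C).1 h).2
  have h1 : ∀ v ∈ Cone M, ∀ e, ((s : ℚ) + 1) * v e ≤ ∑ f ∈ F, v f := by
    intro v hv e
    induction hv using Submodule.span_induction with
    | mem v hv =>
      obtain ⟨C, h, rfl⟩ := hv
      rw [sum_chi, hcF C h]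
      push_cast
      have := chi_le_one C e
      have h2 : (0 : ℚ) ≤ (s : ℚ) + 1 := by positivity
      nlinarith
    | zero => simp
    | add v w _ _ h1 h2 =>
      simp only [Pi.add_apply, Finset.sum_add_distrib]
      linarith
    | smul q v _ h1 =>
      have : ∑ f ∈ F, (q • v) f = (q : ℚ) * ∑ f ∈ F, v f := by
        rw [Finset.mul_sum]
        exact Finset.sum_congr rfl fun f _ => by simp [NNRat.smul_def]
      rw [this, Pi.smul_apply, NNRat.smul_def]
      have h2 : (0 : ℚ) ≤ (q : ℚ) := q.2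
      nlinarith [mul_le_mul_of_nonneg_left h1 h2]
  have h2 : ∀ z ∈ Lat M, ((s : ℤ) + 1) ∣ ∑ f ∈ F, z f := by
    intro z hz
    induction hz using AddSubgroup.closure_induction with
    | mem v hv =>
      obtain ⟨C, h, rfl⟩ := hv
      rw [sum_chi, hcF C h]
      push_cast
      exact dvd_rfl
    | zero => simp
    | add v w _ _ h1 h2 =>
      simp only [Pi.add_apply, Finset.sum_add_distrib]
      exact dvd_add h1 h2
    | neg v _ h1 =>
      simp only [Pi.neg_apply, Finset.sum_neg_distrib]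
      exact (dvd_neg).2 h1
  obtain ⟨N, hN⟩ := h2 p hp
  have hN0 : 0 ≤ N := by
    have : 0 ≤ ∑ f ∈ F, p f := Finset.sum_nonneg fun f _ => h0 f
    rw [hN] at this
    by_contra hcon
    push Not at hcon
    nlinarith
  obtain ⟨N, rfl⟩ := Int.eq_ofNat_of_zero_le hN0
  have hle : ∀ e, p e ≤ N := by
    intro e
    have := h1 _ hc e
    have h3 : ((s : ℤ) + 1) * p e ≤ ∑ f ∈ F, p f := by exact_mod_cast this
    rw [hN] at h3
    by_contra hcon
    push Not at hcon
    have : (0 : ℤ) < (s : ℤ) + 1 := by positivity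
    nlinarith
  obtain ⟨T, P, hT, -, hz⟩ := decomp F s N 0 (fun e => (p e).toNat) (fun e he => by
      by_contra h
      apply he
      have : p e = 0 := lat_support hp (by rwa [← hFE, Finset.mem_coe])
      simp [this])
    (by
      have : ((∑ e ∈ F, (p e).toNat : ℕ) : ℤ) = ((s + 1) * N + s * 0 : ℕ) := by
        push_cast
        rw [Finset.sum_congr rfl fun e _ => Int.toNat_of_nonneg (h0 e)]
        rw [hN]
        ring
      exact_mod_cast this)
    (fun e => by
      have := hle e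
      omega)
  have : p = fun e => ∑ i, chi ℤ (T i : Set α) e := by
    funext e
    have h3 := hz e
    rw [Int.toNat_of_nonneg (h0 e)] at h3
    simpa using h3
  rw [this]
  refine intCone_of_sum _ fun i => (hC _).2 ⟨?_, ?_⟩
  · rw [← hFE]
    exact Finset.coe_subset.2 (hT i).1
  · rw [Set.ncard_coe_finset]
    exact (hT i).2

/-- arithmetic for two disjoint lines -/
theorem arith {s t zL zQ : ℤ} (hs : 0 ≤ s) (ht : 0 ≤ t) (hmod : 3 ∣ s - t)
    (hL : 0 < s → 1 ≤ zL) (hQ : 0 < t → 1 ≤ zQ) (h1 : 6 * zL - 2 * s ≤ s)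
    (h2 : 6 * zL - 2 * s ≤ t) (h3 : 6 * zQ - 2 * t ≤ s) (h4 : 6 * zQ - 2 * t ≤ t) :
    ∃ a b g : ℕ, s = 3 * a + 2 * g ∧ t = 3 * b + 2 * g ∧ zL ≤ a + g ∧ zQ ≤ b + g := by
  obtain ⟨g, hg0, hg1, hg2, hg3, hg4, hg5⟩ : ∃ g : ℤ, 0 ≤ g ∧ 3 * zL - s ≤ g ∧ 3 * zQ - t ≤ g ∧
      2 * g ≤ s ∧ 2 * g ≤ t ∧ 3 ∣ s + g := by
    by_cases c1 : 0 ≤ 3 * zL - s ∧ 3 * zQ - t ≤ 3 * zL - s
    · exact ⟨3 * zL - s, by omega, by omega, by omega, by omega, by omega, by omega⟩
    by_cases c2 : 0 ≤ 3 * zQ - t ∧ 3 * zL - s ≤ 3 * zQ - t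
    · exact ⟨3 * zQ - t, by omega, by omega, by omega, by omega, by omega, by omega⟩
    refine ⟨(-s) % 3, by omega, by omega, by omega, ?_, ?_, by omega⟩
    · omega
    · omega
  refine ⟨((s - 2 * g) / 3).toNat, ((t - 2 * g) / 3).toNat, g.toNat, ?_, ?_, ?_, ?_⟩ <;> omega

/-- two disjoint lines -/
theorem lines_hilbert {M : Matroid α} [M.Finite] {L Q : Set α} (hd : Disjoint L Q)
    (hE : L ∪ Q = M.E)
    (hC : ∀ C, M.IsCircuit C ↔ C ⊆ M.E ∧ ((C ⊆ L ∧ C.ncard = 3) ∨ (C ⊆ Q ∧ C.ncard = 3) ∨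
      ((C ∩ L).ncard = 2 ∧ (C ∩ Q).ncard = 2))) : CircuitsHilbert M := by
  classical
  rw [hilbert_iff]
  intro p hp hc
  have hEf : M.E.Finite := M.ground_finite
  have hLf : L.Finite := hEf.subset (hE ▸ subset_union_left)
  have hQf : Q.Finite := hEf.subset (hE ▸ subset_union_right)
  obtain ⟨FL, rfl⟩ : ∃ F : Finset α, L = F := ⟨hLf.toFinset, by simp⟩
  obtain ⟨FQ, rfl⟩ : ∃ F : Finset α, Q = F := ⟨hQf.toFinset, by simp⟩
  have h0 : ∀ e, 0 ≤ p e := fun e => by
    have := cone_nonneg hc e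
    exact_mod_cast this
  -- intersections
  have hint : ∀ C, M.IsCircuit C → ((C ∩ FL).ncard = 3 ∧ (C ∩ FQ).ncard = 0 ∧ ∀ e ∈ FQ, e ∉ C) ∨
      ((C ∩ FL).ncard = 0 ∧ (C ∩ FQ).ncard = 3 ∧ ∀ e ∈ FL, e ∉ C) ∨
      ((C ∩ FL).ncard = 2 ∧ (C ∩ FQ).ncard = 2) := by
    intro C h
    rcases ((hC C).1 h).2 with ⟨h1, h2⟩ | ⟨h1, h2⟩ | h1
    · left
      have h3 : C ∩ FQ = ∅ := (hd.mono_left h1).inter_eq
      refine ⟨by rw [inter_eq_left.2 h1, h2], by rw [h3, ncard_empty], fun e he heC => ?_⟩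
      have : e ∈ C ∩ (FQ : Set α) := ⟨heC, he⟩
      rw [h3] at this
      exact this
    · right
      left
      have h3 : C ∩ FL = ∅ := (hd.symm.mono_left h1).inter_eq
      refine ⟨by rw [h3, ncard_empty], by rw [inter_eq_left.2 h1, h2], fun e he heC => ?_⟩
      have : e ∈ C ∩ (FL : Set α) := ⟨heC, he⟩
      rw [h3] at this
      exact this
    · exact Or.inr (Or.inr h1)
  have h1 : ∀ v ∈ Cone M, ∃ A B G : ℚ, 0 ≤ A ∧ 0 ≤ B ∧ 0 ≤ G ∧ ∑ f ∈ FL, v f = 3 * A + 2 * G ∧
      ∑ f ∈ FQ, v f = 3 * B + 2 * G ∧ (∀ e ∈ FL, v e ≤ A + G) ∧ (∀ e ∈ FQ, v e ≤ B + G) := by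
    intro v hv
    induction hv using Submodule.span_induction with
    | mem v hv =>
      obtain ⟨C, h, rfl⟩ := hv
      rw [sum_chi, sum_chi]
      rcases hint C h with ⟨h1, h2, h3⟩ | ⟨h1, h2, h3⟩ | ⟨h1, h2⟩
      · refine ⟨1, 0, 0, by norm_num, le_rfl, le_rfl, by rw [h1]; norm_num, by rw [h2]; norm_num,
          fun e _ => ?_, fun e he => ?_⟩
        · simpa using chi_le_one C e
        · rw [chi_apply_notMem (h3 e he)]
          norm_num
      · refine ⟨0, 1, 0, le_rfl, by norm_num, le_rfl, by rw [h1]; norm_num, by rw [h2]; norm_num,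
          fun e he => ?_, fun e _ => ?_⟩
        · rw [chi_apply_notMem (h3 e he)]
          norm_num
        · simpa using chi_le_one C e
      · refine ⟨0, 0, 1, le_rfl, le_rfl, by norm_num, by rw [h1]; norm_num, by rw [h2]; norm_num,
          fun e _ => ?_, fun e _ => ?_⟩
        · simpa using chi_le_one C e
        · simpa using chi_le_one C e
    | zero => exact ⟨0, 0, 0, le_rfl, le_rfl, le_rfl, by simp, by simp, by simp, by simp⟩
    | add v w _ _ h1 h2 =>
      obtain ⟨A, B, G, a1, a2, a3, a4, a5, a6, a7⟩ := h1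
      obtain ⟨A', B', G', b1, b2, b3, b4, b5, b6, b7⟩ := h2
      refine ⟨A + A', B + B', G + G', by linarith, by linarith, by linarith, ?_, ?_,
        fun e he => ?_, fun e he => ?_⟩
      · simp only [Pi.add_apply, Finset.sum_add_distrib, a4, b4]
        ring
      · simp only [Pi.add_apply, Finset.sum_add_distrib, a5, b5]
        ring
      · have := a6 e he
        have := b6 e he
        simp only [Pi.add_apply]
        linarith
      · have := a7 e he
        have := b7 e he
        simp only [Pi.add_apply]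
        linarith
    | smul q v _ h1 =>
      obtain ⟨A, B, G, a1, a2, a3, a4, a5, a6, a7⟩ := h1
      have hq : (0 : ℚ) ≤ (q : ℚ) := q.2
      have hsum : ∀ F : Finset α, ∑ f ∈ F, (q • v) f = (q : ℚ) * ∑ f ∈ F, v f := by
        intro F
        rw [Finset.mul_sum]
        exact Finset.sum_congr rfl fun f _ => by simp [NNRat.smul_def]
      refine ⟨q * A, q * B, q * G, by positivity, by positivity, by positivity, ?_, ?_,
        fun e he => ?_, fun e he => ?_⟩
      · rw [hsum, a4]
        ring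
      · rw [hsum, a5]
        ring
      · rw [Pi.smul_apply, NNRat.smul_def]
        nlinarith [mul_le_mul_of_nonneg_left (a6 e he) hq]
      · rw [Pi.smul_apply, NNRat.smul_def]
        nlinarith [mul_le_mul_of_nonneg_left (a7 e he) hq]
  have h2 : ∀ z ∈ Lat M, (3 : ℤ) ∣ ∑ f ∈ FL, z f - ∑ f ∈ FQ, z f := by
    intro z hz
    induction hz using AddSubgroup.closure_induction with
    | mem v hv =>
      obtain ⟨C, h, rfl⟩ := hv
      rw [sum_chi, sum_chi]
      rcases hint C h with ⟨h1, h2, h3⟩ | ⟨h1, h2, h3⟩ | ⟨h1, h2⟩ <;> rw [h1, h2] <;> norm_num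
    | zero => simp
    | add v w _ _ h1 h2 =>
      simp only [Pi.add_apply, Finset.sum_add_distrib]
      obtain ⟨a, ha⟩ := h1
      obtain ⟨b, hb⟩ := h2
      exact ⟨a + b, by linarith⟩
    | neg v _ h1 =>
      simp only [Pi.neg_apply, Finset.sum_neg_distrib]
      obtain ⟨a, ha⟩ := h1
      exact ⟨-a, by linarith⟩
  obtain ⟨A, B, G, hA, hB, hG, hsL, hsQ, hmL, hmQ⟩ := h1 _ hc
  -- maxima
  obtain ⟨zL, hzL0, hzL, hzL', hzL''⟩ : ∃ z : ℤ, 0 ≤ z ∧ (∀ e ∈ FL, p e ≤ z) ∧ (z : ℚ) ≤ A + G ∧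
      (0 < ∑ f ∈ FL, p f → 1 ≤ z) := by
    by_cases hne : FL.Nonempty
    · obtain ⟨m, hm, hm'⟩ := FL.exists_max_image p hne
      refine ⟨p m, h0 m, hm', hmL m hm, fun hpos => ?_⟩
      by_contra hcon
      have : ∀ e ∈ FL, p e = 0 := fun e he => by
        have := hm' e he
        have := h0 e
        omega
      rw [Finset.sum_eq_zero this] at hpos
      exact lt_irrefl _ hpos
    · rw [Finset.not_nonempty_iff_eq_empty] at hne
      subst hne
      exact ⟨0, le_rfl, by simp, by push_cast; linarith, by simp⟩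
  obtain ⟨zQ, hzQ0, hzQ, hzQ', hzQ''⟩ : ∃ z : ℤ, 0 ≤ z ∧ (∀ e ∈ FQ, p e ≤ z) ∧ (z : ℚ) ≤ B + G ∧
      (0 < ∑ f ∈ FQ, p f → 1 ≤ z) := by
    by_cases hne : FQ.Nonempty
    · obtain ⟨m, hm, hm'⟩ := FQ.exists_max_image p hne
      refine ⟨p m, h0 m, hm', hmQ m hm, fun hpos => ?_⟩
      by_contra hcon
      have : ∀ e ∈ FQ, p e = 0 := fun e he => by
        have := hm' e he
        have := h0 e
        omega
      rw [Finset.sum_eq_zero this] at hpos
      exact lt_irrefl _ hpos
    · rw [Finset.not_nonempty_iff_eq_empty] at hne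
      subst hne
      exact ⟨0, le_rfl, by simp, by push_cast; linarith, by simp⟩
  set s := ∑ f ∈ FL, p f with hs
  set t := ∑ f ∈ FQ, p f with ht
  have hsq : (s : ℚ) = 3 * A + 2 * G := by
    rw [← hsL, hs]
    push_cast
    rfl
  have htq : (t : ℚ) = 3 * B + 2 * G := by
    rw [← hsQ, ht]
    push_cast
    rfl
  obtain ⟨a, b, g, e1, e2, e3, e4⟩ := arith (s := s) (t := t) (zL := zL) (zQ := zQ)
    (Finset.sum_nonneg fun f _ => h0 f) (Finset.sum_nonneg fun f _ => h0 f) (h2 p hp) hzL'' hzQ''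
    (by have : (6 * zL - 2 * s : ℚ) ≤ s := by linarith
        exact_mod_cast this)
    (by have : (6 * zL - 2 * s : ℚ) ≤ t := by linarith
        exact_mod_cast this)
    (by have : (6 * zQ - 2 * t : ℚ) ≤ s := by linarith
        exact_mod_cast this)
    (by have : (6 * zQ - 2 * t : ℚ) ≤ t := by linarith
        exact_mod_cast this)
  obtain ⟨T, P, hT, hP, hz⟩ := decomp FL 2 a g (fun e => if e ∈ FL then (p e).toNat else 0)
    (fun e he => by
      by_contra h
      simp [h] at he)
    (by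
      have : ((∑ e ∈ FL, (if e ∈ FL then (p e).toNat else 0) : ℕ) : ℤ)
          = (((2 + 1) * a + 2 * g : ℕ) : ℤ) := by
        rw [Finset.sum_congr rfl fun e he => if_pos he]
        push_cast
        rw [Finset.sum_congr rfl fun e _ => Int.toNat_of_nonneg (h0 e)]
        rw [← hs, e1]
      exact_mod_cast this)
    (fun e => by
      split_ifs with h
      · have := hzL e h
        omega
      · exact Nat.zero_le _)
  obtain ⟨T', P', hT', hP', hz'⟩ := decomp FQ 2 b g (fun e => if e ∈ FQ then (p e).toNat else 0)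
    (fun e he => by
      by_contra h
      simp [h] at he)
    (by
      have : ((∑ e ∈ FQ, (if e ∈ FQ then (p e).toNat else 0) : ℕ) : ℤ)
          = (((2 + 1) * b + 2 * g : ℕ) : ℤ) := by
        rw [Finset.sum_congr rfl fun e he => if_pos he]
        push_cast
        rw [Finset.sum_congr rfl fun e _ => Int.toNat_of_nonneg (h0 e)]
        rw [← ht, e2]
      exact_mod_cast this)
    (fun e => by
      split_ifs with h
      · have := hzQ e h
        omega
      · exact Nat.zero_le _)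
  have hdis : ∀ e, e ∈ FL → e ∉ FQ := fun e h1 h2 =>
    Set.disjoint_left.1 hd (Finset.mem_coe.2 h1) (Finset.mem_coe.2 h2)
  have hpe : ∀ e, p e = ((if e ∈ FL then (p e).toNat else 0 : ℕ) : ℤ) +
      ((if e ∈ FQ then (p e).toNat else 0 : ℕ) : ℤ) := by
    intro e
    by_cases hL : e ∈ FL
    · rw [if_pos hL, if_neg (hdis e hL), Int.toNat_of_nonneg (h0 e)]
      simp
    · by_cases hQ : e ∈ FQ
      · rw [if_neg hL, if_pos hQ, Int.toNat_of_nonneg (h0 e)]
        simp
      · rw [if_neg hL, if_neg hQ]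
        have : e ∉ M.E := by
          rw [← hE]
          rintro (h | h)
          · exact hL h
          · exact hQ h
        rw [lat_support hp this]
        simp
  have hPP : ∀ i e, chi ℤ (P i : Set α) e + chi ℤ (P' i : Set α) e
      = chi ℤ ((P i : Set α) ∪ (P' i : Set α)) e := by
    intro i e
    by_cases h1 : e ∈ P i
    · have h2 : e ∉ P' i := fun h => hdis e ((hP i).1 h1) ((hP' i).1 h)
      rw [chi_apply_mem (Finset.mem_coe.2 h1), chi_apply_notMem (by simpa using h2),
        chi_apply_mem (S := (P i : Set α) ∪ (P' i : Set α)) (Or.inl (Finset.mem_coe.2 h1))]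
      simp
    · by_cases h2 : e ∈ P' i
      · rw [chi_apply_notMem (by simpa using h1), chi_apply_mem (Finset.mem_coe.2 h2),
          chi_apply_mem (S := (P i : Set α) ∪ (P' i : Set α)) (Or.inr (Finset.mem_coe.2 h2))]
        simp
      · rw [chi_apply_notMem (by simpa using h1), chi_apply_notMem (by simpa using h2),
          chi_apply_notMem (by simp [h1, h2])]
        simp
  have hpeq : p = (fun e => ∑ i, chi ℤ (T i : Set α) e) + (fun e => ∑ i, chi ℤ (T' i : Set α) e) +
      (fun e => ∑ i, chi ℤ ((P i : Set α) ∪ (P' i : Set α)) e) := by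
    funext e
    rw [hpe e, hz e, hz' e]
    simp only [Pi.add_apply, ← hPP, Finset.sum_add_distrib]
    ring
  rw [hpeq]
  refine add_mem (add_mem (intCone_of_sum _ fun i => (hC _).2 ?_)
    (intCone_of_sum _ fun i => (hC _).2 ?_)) (intCone_of_sum _ fun i => (hC _).2 ?_)
  · refine ⟨?_, Or.inl ⟨Finset.coe_subset.2 (hT i).1, ?_⟩⟩
    · rw [← hE]
      exact (Finset.coe_subset.2 (hT i).1).trans subset_union_left
    · rw [Set.ncard_coe_finset]
      exact (hT i).2
  · refine ⟨?_, Or.inr (Or.inl ⟨Finset.coe_subset.2 (hT' i).1, ?_⟩)⟩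
    · rw [← hE]
      exact (Finset.coe_subset.2 (hT' i).1).trans subset_union_right
    · rw [Set.ncard_coe_finset]
      exact (hT' i).2
  · have a1 : (P i : Set α) ⊆ FL := Finset.coe_subset.2 (hP i).1
    have a2 : (P' i : Set α) ⊆ FQ := Finset.coe_subset.2 (hP' i).1
    refine ⟨?_, Or.inr (Or.inr ⟨?_, ?_⟩)⟩
    · rw [← hE]
      exact union_subset_union a1 a2
    · rw [union_inter_distrib_right, inter_eq_left.2 a1, (hd.symm.mono_left a2).inter_eq,
        union_empty, Set.ncard_coe_finset]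
      exact (hP i).2
    · rw [union_inter_distrib_right, inter_eq_left.2 a2, (hd.mono_left a1).inter_eq,
        empty_union, Set.ncard_coe_finset]
      exact (hP' i).2

end Pool.Agent.helper9.HB49
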