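import Pool.Agent.helper9.HB49.Nec

set_option autoImplicit false

/-! # The three types and the analysis of `Beta` -/

open Set

namespace Pool.Agent.helper9.HB49

variable {α : Type*}

/-- any two elements lie in a common circuit -/
def Connected (M : Matroid α) : Prop :=
  ∀ e ∈ M.E, ∀ f ∈ M.E, e ≠ f → ∃ C, M.IsCircuit C ∧ e ∈ C ∧ f ∈ C

/-- every circuit meets every cocircuit in an even number of elements -/
def Binary (M : Matroid α) : Prop :=
  ∀ C K, M.IsCircuit C → M.IsCocircuit K → Even (C ∩ K).ncard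

/-- the circuits are all the sets of `r + 1` elements -/
def UniformType (M : Matroid α) : Prop :=
  ∃ r : ℕ, ∀ C, M.IsCircuit C ↔ C ⊆ M.E ∧ C.ncard = r + 1

/-- two disjoint lines in a plane -/
def TwoLines (M : Matroid α) : Prop :=
  ∃ L Q : Set α, Disjoint L Q ∧ L ∪ Q = M.E ∧ 3 ≤ L.ncard ∧ 2 ≤ Q.ncard ∧
    ∀ C, M.IsCircuit C ↔ C ⊆ M.E ∧ ((C ⊆ L ∧ C.ncard = 3) ∨ (C ⊆ Q ∧ C.ncard = 3) ∨
      ((C ∩ L).ncard = 2 ∧ (C ∩ Q).ncard = 2))

/-- a line, a point off the line and a class of parallel elements -/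
def LinePointClass (M : Matroid α) : Prop :=
  ∃ (L X : Set α) (y : α), Disjoint L X ∧ y ∉ L ∧ y ∉ X ∧ insert y (L ∪ X) = M.E ∧
    3 ≤ L.ncard ∧ 2 ≤ X.ncard ∧
    ∀ C, M.IsCircuit C ↔ C ⊆ M.E ∧ ((C ⊆ L ∧ C.ncard = 3) ∨ (C ⊆ X ∧ C.ncard = 2) ∨
      (y ∈ C ∧ (C ∩ L).ncard = 2 ∧ (C ∩ X).ncard = 1))

variable {M : Matroid α}

section closure

variable [M.RankFinite]

theorem mem_closure_of_D {a b e : α} (hab : ¬ P M a b) (he : e ∈ M.E) (h : D M a b e) :
    e ∈ M.closure {a, b} := by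
  by_contra hcon
  obtain ⟨h1, h2⟩ := ((indep_pair hab).notMem_closure_iff he).1 hcon
  have h3 : ¬ D M a b e := by
    have h4 : ({e, a, b} : Set α) = {a, b, e} := by
      ext f
      simp only [mem_insert_iff, mem_singleton_iff]
      tauto
    have h5 : e ≠ a ∧ e ≠ b := by simpa using h2
    refine not_D_of_indep (ne_of_not_P hab) h5.1.symm h5.2.symm ?_
    rw [← h4]
    exact h1
  exact h3 h

theorem D_of_mem_closure {a b e : α} (ha : a ∈ M.E) (hb : b ∈ M.E) (h : e ∈ M.closure {a, b}) :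
    D M a b e := by
  have h1 : ({a, b, e} : Set α) ⊆ M.closure {a, b} := by
    have h2 : ({a, b} : Set α) ⊆ M.closure {a, b} :=
      M.subset_closure _ (by rintro f (rfl | rfl) <;> assumption)
    rintro f (rfl | rfl | rfl)
    · exact h2 (by simp)
    · exact h2 (by simp)
    · exact h
  have h2 := rk_mono (M := M) h1
  have h3 : rk M (M.closure {a, b}) = rk M {a, b} := by rw [rk, rk, M.eRk_closure_eq]
  have h4 := rk_le_ncard (M := M) (X := {a, b}) (by simp)
  have h5 : ({a, b} : Set α).ncard ≤ 2 := ncard_insert_le _ _ |>.trans (by simp)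
  rw [D]
  omega

theorem indep_sub_circuit {C : Set α} (hC : M.IsCircuit C) {X : Set α} (hX : X ⊆ C)
    (hn : X.ncard < C.ncard) : M.Indep X :=
  hC.ssubset_indep (hX.ssubset_of_ne fun h => by rw [h] at hn; exact lt_irrefl _ hn)

/-- a second point off the line, not parallel to the first -/
theorem exists_two_off (hconn : Connected M) {a b x : α} (ha : a ∈ M.E) (hb : b ∈ M.E)
    (hx : x ∈ M.E) (hab : ¬ P M a b) (habx : ¬ D M a b x) :
    ∃ y ∈ M.E, ¬ D M a b y ∧ ¬ P M x y := by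
  by_contra hcon
  push Not at hcon
  obtain ⟨C, hC, hxC, haC⟩ := hconn x hx a ha (ne13 habx).symm
  have h1 : ∀ y ∈ C \ {x}, y ∈ M.closure {a, b} := by
    rintro y ⟨hyC, hyx⟩
    refine mem_closure_of_D hab (hC.subset_ground hyC) ?_
    by_contra hD
    have h2 := hcon y (hC.subset_ground hyC) hD
    have hxy : x ≠ y := fun h => hyx (by simp [h])
    refine not_P_of_indep hxy (hC.ssubset_indep (X := {x, y}) ?_) h2
    refine ⟨by rintro f (rfl | rfl) <;> assumption, fun h3 => ?_⟩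
    rcases h3 haC with h4 | h4
    · exact (ne13 habx) h4
    · rw [mem_singleton_iff] at h4
      exact (ne13 hD) h4
  have h2 : x ∈ M.closure {a, b} := by
    have h3 := hC.mem_closure_sdiff_singleton_of_mem hxC
    exact M.closure_subset_closure_of_subset_closure h1 h3
  exact habx (D_of_mem_closure ha hb h2)

end closure

/-! ### two lines covering the ground set -/

structure LQ (M : Matroid α) (L Q : Set α) : Prop where
  union : L ∪ Q = M.E
  disj : Disjoint L Q
  LP : ∀ e ∈ L, ∀ f ∈ L, e ≠ f → ¬ P M e f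
  LLL : ∀ e ∈ L, ∀ f ∈ L, ∀ g ∈ L, D M e f g
  QQQ : ∀ u ∈ Q, ∀ v ∈ Q, ∀ w ∈ Q, D M u v w
  LQQ : ∀ e ∈ L, ∀ u ∈ Q, ∀ v ∈ Q, ¬ P M u v → ¬ D M e u v
  LLQ : ∀ e ∈ L, ∀ f ∈ L, ∀ u ∈ Q, e ≠ f → ¬ D M e f u
  two : ∀ e ∈ L, ∃ f ∈ L, e ≠ f

theorem LQ.iff {L Q : Set α} [M.Finite] (h : LQ M L Q) (hr : ∀ X, rk M X ≤ 3)
    (hl : ∀ e ∈ M.E, rk M {e} = 1) (C : Set α) : M.IsCircuit C ↔
      (C ⊆ L ∧ C.ncard = 3) ∨ (∃ p ∈ Q, ∃ q ∈ Q, p ≠ q ∧ P M p q ∧ C = {p, q}) ∨
      (∃ p ∈ Q, ∃ q ∈ Q, ∃ r ∈ Q, ¬ P M p q ∧ ¬ P M p r ∧ ¬ P M q r ∧ C = {p, q, r}) ∨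
      (∃ e ∈ L, ∃ f ∈ L, ∃ p ∈ Q, ∃ q ∈ Q, e ≠ f ∧ ¬ P M p q ∧ C = {e, f, p, q}) := by
  have hLE : L ⊆ M.E := h.union ▸ subset_union_left
  have hQE : Q ⊆ M.E := h.union ▸ subset_union_right
  constructor
  · intro hC
    have hCf : C.Finite := circuit_finite hC
    have hrk := circuit_rk hC
    have h4 := hr C
    have hCu : C = (C ∩ L) ∪ (C ∩ Q) := by
      rw [← inter_union_distrib_left, h.union, inter_eq_left.2 hC.subset_ground]
    have hsum : (C ∩ L).ncard + (C ∩ Q).ncard = C.ncard := by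
      conv_rhs => rw [hCu]
      rw [ncard_union_eq (h.disj.mono inter_subset_right inter_subset_right)
        (hCf.subset inter_subset_left) (hCf.subset inter_subset_left)]
    have hfL : (C ∩ L).Finite := hCf.subset inter_subset_left
    have hfQ : (C ∩ Q).Finite := hCf.subset inter_subset_left
    have hn : C.ncard = 1 ∨ C.ncard = 2 ∨ C.ncard = 3 ∨ C.ncard = 4 := by omega
    rcases hn with hn | hn | hn | hn
    · obtain ⟨x, rfl⟩ := ncard_eq_one.1 hn
      have := hl x (hC.subset_ground rfl)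
      omega
    · obtain ⟨x, y, hxy, rfl⟩ := ncard_eq_two.1 hn
      have hP : P M x y := by
        rw [P]
        omega
      have hx : x ∈ L ∪ Q := h.union ▸ hC.subset_ground (by simp)
      have hy : y ∈ L ∪ Q := h.union ▸ hC.subset_ground (by simp)
      rcases hx with hx | hx <;> rcases hy with hy | hy
      · exact absurd hP (h.LP x hx y hy hxy)
      · obtain ⟨f, hf, hxf⟩ := h.two x hx
        exact absurd (D23.1 (D_of_P hP)) (h.LLQ x hx f hf y hy hxf)
      · obtain ⟨f, hf, hyf⟩ := h.two y hy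
        exact absurd (D23.1 (D_of_P (P_comm.1 hP))) (h.LLQ y hy f hf x hx hyf)
      · exact Or.inr (Or.inl ⟨x, hx, y, hy, hxy, hP, rfl⟩)
    · -- three elements
      have hl4 : (C ∩ L).ncard = 0 ∨ (C ∩ L).ncard = 1 ∨ (C ∩ L).ncard = 2 ∨
        (C ∩ L).ncard = 3 := by omega
      rcases hl4 with hl4 | hl4 | hl4 | hl4
      · have hCQ : C ∩ Q = C := eq_of_subset_of_ncard_le inter_subset_left (by omega) hCf
        obtain ⟨p, q, r, hpq, hpr, hqr, rfl⟩ := ncard_eq_three.1 hn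
        have hsub : ({p, q, r} : Set α) ⊆ Q := by rw [← hCQ]; exact inter_subset_right
        refine Or.inr (Or.inr (Or.inl ⟨p, hsub (by simp), q, hsub (by simp), r, hsub (by simp),
          ?_, ?_, ?_, rfl⟩))
        · exact not_P_of_indep hpq (indep_sub_circuit hC (by rintro f (rfl | rfl) <;> simp)
            (by rw [ncard_pair hpq, hn]; norm_num))
        · exact not_P_of_indep hpr (indep_sub_circuit hC (by rintro f (rfl | rfl) <;> simp)
            (by rw [ncard_pair hpr, hn]; norm_num))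
        · exact not_P_of_indep hqr (indep_sub_circuit hC (by rintro f (rfl | rfl) <;> simp)
            (by rw [ncard_pair hqr, hn]; norm_num))
      · obtain ⟨e, he⟩ := ncard_eq_one.1 hl4
        obtain ⟨u, v, huv, hQ2⟩ := ncard_eq_two.1 (by omega : (C ∩ Q).ncard = 2)
        have hCe : C = {e, u, v} := by
          rw [hCu, he, hQ2]
          rfl
        have heL : e ∈ L := (he.symm ▸ mem_singleton e : e ∈ C ∩ L).2
        have huQ : u ∈ Q := (hQ2.symm ▸ (by simp : u ∈ ({u, v} : Set α)) : u ∈ C ∩ Q).2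
        have hvQ : v ∈ Q := (hQ2.symm ▸ (by simp : v ∈ ({u, v} : Set α)) : v ∈ C ∩ Q).2
        have huvP : ¬ P M u v := not_P_of_indep huv (indep_sub_circuit hC
          (by rw [hCe]; rintro f (rfl | rfl) <;> simp) (by rw [ncard_pair huv, hn]; norm_num))
        refine absurd ?_ (h.LQQ e heL u huQ v hvQ huvP)
        rw [D, ← hCe]
        omega
      · obtain ⟨u, v, huv, hL2⟩ := ncard_eq_two.1 hl4
        obtain ⟨e, he⟩ := ncard_eq_one.1 (by omega : (C ∩ Q).ncard = 1)
        have hCe : C = {u, v, e} := by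
          rw [hCu, he, hL2]
          ext f
          simp only [mem_union, mem_insert_iff, mem_singleton_iff]
          tauto
        have heQ : e ∈ Q := (he.symm ▸ mem_singleton e : e ∈ C ∩ Q).2
        have huL : u ∈ L := (hL2.symm ▸ (by simp : u ∈ ({u, v} : Set α)) : u ∈ C ∩ L).2
        have hvL : v ∈ L := (hL2.symm ▸ (by simp : v ∈ ({u, v} : Set α)) : v ∈ C ∩ L).2
        refine absurd ?_ (h.LLQ u huL v hvL e heQ huv)
        rw [D, ← hCe]
        omega
      · have hCL : C ∩ L = C := eq_of_subset_of_ncard_le inter_subset_left (by omega) hCf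
        exact Or.inl ⟨by rw [← hCL]; exact inter_subset_right, hn⟩
    · -- four elements
      have hL2 : (C ∩ L).ncard ≤ 2 := by
        by_contra hcon
        push Not at hcon
        obtain ⟨x, y, z, hx, hy, hz, hxy, hxz, hyz⟩ := (two_lt_ncard_iff hfL).1 hcon
        refine not_D_of_indep hxy hxz hyz (indep_sub_circuit hC ?_ ?_)
          (h.LLL x hx.2 y hy.2 z hz.2)
        · rintro f (rfl | rfl | rfl)
          exacts [hx.1, hy.1, hz.1]
        · rw [ncard3 hxy hxz hyz, hn]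
          norm_num
      have hQ2 : (C ∩ Q).ncard ≤ 2 := by
        by_contra hcon
        push Not at hcon
        obtain ⟨x, y, z, hx, hy, hz, hxy, hxz, hyz⟩ := (two_lt_ncard_iff hfQ).1 hcon
        refine not_D_of_indep hxy hxz hyz (indep_sub_circuit hC ?_ ?_)
          (h.QQQ x hx.2 y hy.2 z hz.2)
        · rintro f (rfl | rfl | rfl)
          exacts [hx.1, hy.1, hz.1]
        · rw [ncard3 hxy hxz hyz, hn]
          norm_num
      obtain ⟨e, f, hef, hLe⟩ := ncard_eq_two.1 (by omega : (C ∩ L).ncard = 2)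
      obtain ⟨p, q, hpq, hQe⟩ := ncard_eq_two.1 (by omega : (C ∩ Q).ncard = 2)
      have hCe : C = {e, f, p, q} := by
        rw [hCu, hLe, hQe]
        ext g
        simp only [mem_union, mem_insert_iff, mem_singleton_iff]
        tauto
      have heL : e ∈ L := (hLe.symm ▸ (by simp : e ∈ ({e, f} : Set α)) : e ∈ C ∩ L).2
      have hfL' : f ∈ L := (hLe.symm ▸ (by simp : f ∈ ({e, f} : Set α)) : f ∈ C ∩ L).2
      have hpQ : p ∈ Q := (hQe.symm ▸ (by simp : p ∈ ({p, q} : Set α)) : p ∈ C ∩ Q).2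
      have hqQ : q ∈ Q := (hQe.symm ▸ (by simp : q ∈ ({p, q} : Set α)) : q ∈ C ∩ Q).2
      refine Or.inr (Or.inr (Or.inr ⟨e, heL, f, hfL', p, hpQ, q, hqQ, hef, ?_, hCe⟩))
      exact not_P_of_indep hpq (indep_sub_circuit hC
          (by rw [hCe]; rintro f (rfl | rfl) <;> simp) (by rw [ncard_pair hpq, hn]; norm_num))
  · rintro (⟨hCL, hn⟩ | ⟨p, hp, q, hq, hpq, hP, rfl⟩ | ⟨p, hp, q, hq, r, hr', h1, h2, h3, rfl⟩ |
      ⟨e, he, f, hf, p, hp, q, hq, hef, hpq, rfl⟩)
    · obtain ⟨x, y, z, hxy, hxz, hyz, rfl⟩ := ncard_eq_three.1 hn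
      have hx : x ∈ L := hCL (by simp)
      have hy : y ∈ L := hCL (by simp)
      have hz : z ∈ L := hCL (by simp)
      exact circ3 (hLE hx) (hLE hy) (hLE hz) (h.LLL x hx y hy z hz) (h.LP x hx y hy hxy)
        (h.LP x hx z hz hxz) (h.LP y hy z hz hyz)
    · exact circ2 (hQE hp) (hQE hq) (hl p (hQE hp)) (hl q (hQE hq)) hpq hP
    · exact circ3 (hQE hp) (hQE hq) (hQE hr') (h.QQQ p hp q hq r hr') h1 h2 h3
    · exact circ4 hr (hLE he) (hLE hf) (hQE hp) (hQE hq) (h.LLQ e he f hf p hp hef)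
        (h.LLQ e he f hf q hq hef) (h.LQQ e he p hp q hq hpq) (h.LQQ f hf p hp q hq hpq)

end Pool.Agent.helper9.HB49
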