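import Pool.Agent.helper9.HB49.Types

set_option autoImplicit false

/-! # Matroids with a configuration `Beta` -/

open Set

namespace Pool.Agent.helper9.HB49

variable {α : Type*} {M : Matroid α}

theorem D_refl12 [M.RankFinite] (a b : α) : D M a a b := D_of_P (P_self a)
theorem D_refl13 [M.RankFinite] (a b : α) : D M a b a := D23.1 (D_of_P (P_self a))
theorem D_refl23 [M.RankFinite] (a b : α) : D M a b b := Drot.1 (Drot.1 (D_of_P (P_self b)))

/-- a circuit in a plane with `Beta` -/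
theorem beta_LQ [M.Finite] (hM : CircuitsHilbert M) (hr : ∀ X, rk M X ≤ 3)
    (hl : ∀ e ∈ M.E, rk M {e} = 1) {a b c x y : α}
    (h : Beta M a b c x y) (ha : a ∈ M.E) (hb : b ∈ M.E) (hc : c ∈ M.E) (hx : x ∈ M.E)
    (hy : y ∈ M.E) : LQ M {e | e ∈ M.E ∧ D M a b e} {e | e ∈ M.E ∧ ¬ D M a b e} := by
  have pab := not_P12 h.abx
  have LP : ∀ e, e ∈ M.E → D M a b e → ∀ f, f ∈ M.E → e ≠ f → ¬ P M e f :=
    fun e he h1 f hf hef => beta_par' hM hr hl h ha hb hc hx hy he h1 hf hef
  have nab := ne_of_not_P pab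
  have LLa : ∀ e, e ∈ M.E → D M a b e → ∀ f, f ∈ M.E → D M a b f → D M a e f :=
    fun e he h1 f hf h2 => exch pab h1 h2
  have LLL : ∀ e, e ∈ M.E → D M a b e → ∀ f, f ∈ M.E → D M a b f → ∀ g, g ∈ M.E →
      D M a b g → D M e f g := by
    intro e he h1 f hf h2 g hg h3
    by_cases hea : e = a
    · subst hea
      exact LLa f hf h2 g hg h3
    · exact exch (LP e he h1 a ha hea) (D12.1 (LLa e he h1 f hf h2)) (D12.1 (LLa e he h1 g hg h3))
  refine ⟨?_, ?_, ?_, ?_, ?_, ?_, ?_, ?_⟩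
  · ext e
    by_cases h1 : D M a b e <;> simp [h1]
  · rw [Set.disjoint_left]
    rintro e ⟨-, h1⟩ ⟨-, h2⟩
    exact h2 h1
  · rintro e ⟨he, h1⟩ f ⟨hf, h2⟩ hef
    exact LP e he h1 f hf hef
  · rintro e ⟨he, h1⟩ f ⟨hf, h2⟩ g ⟨hg, h3⟩
    exact LLL e he h1 f hf h2 g hg h3
  · rintro u ⟨hu, h1⟩ v ⟨hv, h2⟩ w ⟨hw, h3⟩
    exact beta_off hM hr hl h ha hb hc hx hy hu hv hw h1 h2 h3
  · rintro e ⟨he, h1⟩ u ⟨hu, h2⟩ v ⟨hv, h3⟩ huv
    exact beta_meet hM hr hl h ha hb hc hx hy hu hv h2 h3 huv he h1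
  · rintro e ⟨he, h1⟩ f ⟨hf, h2⟩ u ⟨hu, h3⟩ hef h4
    apply h3
    by_cases hea : e = a
    · subst hea
      exact exch (LP e he h1 f hf hef) (D23.1 h2) h4
    · -- `a e` spans the line
      have pef := LP e he h1 f hf hef
      have pea := LP e he h1 a ha hea
      have h5 : D M e f a := LLL e he h1 f hf h2 a ha (D_refl13 a b)
      have h6 : D M e a u := exch pef h5 h4
      have h7 : D M a e u := D12.1 h6
      have h8 : D M a e b := LLL a ha (D_refl13 a b) e he h1 b hb (D_refl23 a b)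
      exact exch (fun h' => pea (P_comm.1 h')) h8 h7
  · rintro e ⟨he, h1⟩
    by_cases hea : e = a
    · subst hea
      exact ⟨b, ⟨hb, D_refl23 e b⟩, nab⟩
    · exact ⟨a, ⟨ha, D_refl13 a b⟩, hea⟩

/-- three pairwise nonparallel points off the line: no parallels off the line -/
theorem beta_sym [M.Finite] (hM : CircuitsHilbert M) (hr : ∀ X, rk M X ≤ 3)
    (hl : ∀ e ∈ M.E, rk M {e} = 1) {a b c x y : α}
    (h : Beta M a b c x y) (ha : a ∈ M.E) (hb : b ∈ M.E) (hc : c ∈ M.E) (hx : x ∈ M.E)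
    (hy : y ∈ M.E) {u v w : α} (hu : u ∈ M.E) (hv : v ∈ M.E) (hw : w ∈ M.E)
    (abu : ¬ D M a b u) (abv : ¬ D M a b v) (abw : ¬ D M a b w)
    (uv : ¬ P M u v) (uw : ¬ P M u w) (vw : ¬ P M v w)
    {q : α} (hq : q ∈ M.E) (abq : ¬ D M a b q) {q' : α} (hq' : q' ∈ M.E) (hne : q ≠ q') :
    ¬ P M q q' := by
  have H := beta_LQ hM hr hl h ha hb hc hx hy
  have haL : a ∈ {e | e ∈ M.E ∧ D M a b e} := ⟨ha, D_refl13 a b⟩
  have hbL : b ∈ {e | e ∈ M.E ∧ D M a b e} := ⟨hb, D_refl23 a b⟩
  have huQ : u ∈ {e | e ∈ M.E ∧ ¬ D M a b e} := ⟨hu, abu⟩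
  have hvQ : v ∈ {e | e ∈ M.E ∧ ¬ D M a b e} := ⟨hv, abv⟩
  have hwQ : w ∈ {e | e ∈ M.E ∧ ¬ D M a b e} := ⟨hw, abw⟩
  have hB : Beta M u v w a b := by
    refine ⟨H.QQQ u huQ v hvQ w hwQ, ?_, ?_, ?_, ?_, ?_, ?_, ?_, ?_, ?_⟩
    · exact fun h' => H.LQQ a haL u huQ v hvQ uv (Drot.2 h')
    · exact fun h' => H.LQQ b hbL u huQ v hvQ uv (Drot.2 h')
    · exact fun h' => H.LQQ a haL u huQ w hwQ uw (Drot.2 h')
    · exact fun h' => H.LQQ b hbL u huQ w hwQ uw (Drot.2 h')
    · exact fun h' => H.LQQ a haL v hvQ w hwQ vw (Drot.2 h')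
    · exact fun h' => H.LQQ b hbL v hvQ w hwQ vw (Drot.2 h')
    · exact fun h' => abu (Drot.1 h')
    · exact fun h' => abv (Drot.1 h')
    · exact fun h' => abw (Drot.1 h')
  exact beta_par' hM hr hl hB hu hv hw ha hb hq (H.QQQ u huQ v hvQ q ⟨hq, abq⟩) hq' hne

/-- not both classes are nontrivial -/
theorem beta_two [M.Finite] (hM : CircuitsHilbert M) (hr : ∀ X, rk M X ≤ 3)
    (hl : ∀ e ∈ M.E, rk M {e} = 1) {a b c x y : α}
    (h : Beta M a b c x y) (ha : a ∈ M.E) (hb : b ∈ M.E) (hc : c ∈ M.E) (hx : x ∈ M.E)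
    (hy : y ∈ M.E) {x' y' : α} (hx' : x' ∈ M.E) (hy' : y' ∈ M.E) (hxx : x ≠ x') (hyy : y ≠ y')
    (hPx : P M x x') (hPy : P M y y') : False := by
  have nab := ne12 h.abx
  have nac := ne12 h.acx
  have nbc := ne12 h.bcx
  have nax := ne13 h.abx
  have nay := ne13 h.aby
  have nbx := ne23 h.abx
  have nby := ne23 h.aby
  have ncx := ne23 h.acx
  have ncy := ne23 h.acy
  have nxy := ne23 h.axy
  -- `a b x' y`, `a b x y'` are circuits
  have rep : ∀ {p q q' : α}, rk M {q'} = 1 → P M q q' → ¬ D M a p q → ¬ D M a p q' := by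
    intro p q q' hq' hP h1 h2
    apply h1
    have h3 := D_replace hq' (P_comm.1 hP) (Drot.1 (Drot.1 h2))
    exact Drot.1 h3
  have rep' : ∀ {p q q' r : α}, rk M {q'} = 1 → P M q q' → ¬ D M p q r → ¬ D M p q' r := by
    intro p q q' r hq' hP h1 h2
    apply h1
    exact D12.1 (D_replace hq' (P_comm.1 hP) (D12.1 h2))
  have rep3 : ∀ {p q q' r : α}, rk M {q'} = 1 → P M q q' → ¬ D M p r q → ¬ D M p r q' := by
    intro p q q' r hq' hP h1 h2
    exact rep' hq' hP (fun h' => h1 (D23.1 h')) (D23.1 h2)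
  have abx' := rep3 (hl x' hx') hPx h.abx
  have aby' := rep3 (hl y' hy') hPy h.aby
  have ax'y := rep' (hl x' hx') hPx h.axy
  have bx'y := rep' (hl x' hx') hPx h.bxy
  have axy' := rep3 (hl y' hy') hPy h.axy
  have bxy' := rep3 (hl y' hy') hPy h.bxy
  have c0 := circ4 hr ha hb hx hy h.abx h.aby h.axy h.bxy
  have c1 := circ4 hr ha hb hx' hy abx' h.aby ax'y bx'y
  have c2 := circ4 hr ha hb hx hy' h.abx aby' axy' bxy'
  have c3 := circ2 hx hx' (hl x hx) (hl x' hx') hxx hPx
  have c4 := circ2 hy hy' (hl y hy) (hl y' hy') hyy hPy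
  have hz : (2 : ℤ) • chi ℤ ({x} : Set α) + (2 : ℤ) • chi ℤ ({y} : Set α) ∈ Lat M := by
    have e1 : (2 : ℤ) • chi ℤ ({x} : Set α) + (2 : ℤ) • chi ℤ ({y} : Set α) =
        (chi ℤ ({x, x'} : Set α) + chi ℤ ({a, b, x, y} : Set α) - chi ℤ ({a, b, x', y} : Set α)) +
        (chi ℤ ({y, y'} : Set α) + chi ℤ ({a, b, x, y} : Set α) -
          chi ℤ ({a, b, x, y'} : Set α)) := by
      rw [chi4 nab nax nay nbx nby nxy, chi4 nab (ne13 abx') nay (ne23 abx') nby (ne23 ax'y),
        chi4 nab nax (ne13 aby') nbx (ne23 aby') (ne23 axy'), chi2 hxx, chi2 hyy]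
      abel
    rw [e1]
    exact add_mem (sub_mem (add_mem (chi_mem_lat c3) (chi_mem_lat c0)) (chi_mem_lat c1))
      (sub_mem (add_mem (chi_mem_lat c4) (chi_mem_lat c0)) (chi_mem_lat c2))
  have h1 := beta_key hM hr h ha hb hc hx hy hz (fun e h1 h2 h3 h4 h5 => by
      simp only [Pi.smul_apply, Pi.add_apply, chi1 h4, chi1 h5]
      norm_num) (by
      simp only [Pi.smul_apply, Pi.add_apply, chi1', chi1 nxy, chi1 nxy.symm]
      norm_num)
  simp only [Pi.smul_apply, Pi.add_apply, chi1', chi1 nax, chi1 nay, chi1 nbx, chi1 nby,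
    chi1 ncx, chi1 ncy, chi1 nxy] at h1
  norm_num at h1

theorem beta_types [M.Finite] (hM : CircuitsHilbert M) (hr : ∀ X, rk M X ≤ 3)
    (hl : ∀ e ∈ M.E, rk M {e} = 1) {a b c x y : α}
    (h : Beta M a b c x y) (ha : a ∈ M.E) (hb : b ∈ M.E) (hc : c ∈ M.E) (hx : x ∈ M.E)
    (hy : y ∈ M.E) : TwoLines M ∨ LinePointClass M := by
  have H := beta_LQ hM hr hl h ha hb hc hx hy
  have Hiff := H.iff hr hl
  set L := {e | e ∈ M.E ∧ D M a b e} with hL
  set Q := {e | e ∈ M.E ∧ ¬ D M a b e} with hQ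
  have nab := ne12 h.abx
  have nac := ne12 h.acx
  have nbc := ne12 h.bcx
  have nxy := ne23 h.axy
  have haL : a ∈ L := ⟨ha, D_refl13 a b⟩
  have hbL : b ∈ L := ⟨hb, D_refl23 a b⟩
  have hcL : c ∈ L := ⟨hc, h.abc⟩
  have hxQ : x ∈ Q := ⟨hx, h.abx⟩
  have hyQ : y ∈ Q := ⟨hy, h.aby⟩
  have hEf : M.E.Finite := M.ground_finite
  have hLE : L ⊆ M.E := fun e he => he.1
  have hQE : Q ⊆ M.E := fun e he => he.1
  have hL3 : 3 ≤ L.ncard := by
    have h1 : ({a, b, c} : Set α) ⊆ L := by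
      rintro e (rfl | rfl | rfl) <;> assumption
    have := ncard_le_ncard h1 (hEf.subset hLE)
    rwa [ncard3 nab nac nbc] at this
  have hLQ : ∀ e, e ∈ L → e ∉ Q := fun e h1 h2 => Set.disjoint_left.1 H.disj h1 h2
  by_cases hpar : ∀ u ∈ Q, ∀ v ∈ Q, u ≠ v → ¬ P M u v
  · left
    refine ⟨L, Q, H.disj, H.union, hL3, ?_, fun C => ?_⟩
    · have h1 : ({x, y} : Set α) ⊆ Q := by
        rintro e (rfl | rfl) <;> assumption
      have := ncard_le_ncard h1 (hEf.subset hQE)
      rwa [ncard_pair nxy] at this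
    rw [Hiff]
    constructor
    · rintro (⟨h1, h2⟩ | ⟨p, hp, q, hq, hpq, hP, rfl⟩ | ⟨p, hp, q, hq, r, hr', h1, h2, h3, rfl⟩ |
        ⟨e, he, f, hf, p, hp, q, hq, hef, hpq, rfl⟩)
      · exact ⟨h1.trans hLE, Or.inl ⟨h1, h2⟩⟩
      · exact absurd hP (hpar p hp q hq hpq)
      · have hs : ({p, q, r} : Set α) ⊆ Q := by rintro e (rfl | rfl | rfl) <;> assumption
        exact ⟨hs.trans hQE, Or.inr (Or.inl ⟨hs,
          ncard3 (ne_of_not_P h1) (ne_of_not_P h2) (ne_of_not_P h3)⟩)⟩
      · refine ⟨?_, Or.inr (Or.inr ⟨?_, ?_⟩)⟩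
        · rintro g (rfl | rfl | rfl | rfl)
          exacts [hLE he, hLE hf, hQE hp, hQE hq]
        · have : ({e, f, p, q} : Set α) ∩ L = {e, f} := by
            ext g
            simp only [mem_inter_iff, mem_insert_iff, mem_singleton_iff]
            constructor
            · rintro ⟨rfl | rfl | rfl | rfl, hg⟩
              · exact Or.inl rfl
              · exact Or.inr rfl
              · exact absurd hp (hLQ _ hg)
              · exact absurd hq (hLQ _ hg)
            · rintro (rfl | rfl)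
              · exact ⟨Or.inl rfl, he⟩
              · exact ⟨Or.inr (Or.inl rfl), hf⟩
          rw [this, ncard_pair hef]
        · have : ({e, f, p, q} : Set α) ∩ Q = {p, q} := by
            ext g
            simp only [mem_inter_iff, mem_insert_iff, mem_singleton_iff]
            constructor
            · rintro ⟨rfl | rfl | rfl | rfl, hg⟩
              · exact absurd hg (hLQ _ he)
              · exact absurd hg (hLQ _ hf)
              · exact Or.inl rfl
              · exact Or.inr rfl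
            · rintro (rfl | rfl)
              · exact ⟨Or.inr (Or.inr (Or.inl rfl)), hp⟩
              · exact ⟨Or.inr (Or.inr (Or.inr rfl)), hq⟩
          rw [this, ncard_pair (ne_of_not_P hpq)]
    · rintro ⟨hCE, ⟨h1, h2⟩ | ⟨h1, h2⟩ | ⟨h1, h2⟩⟩
      · exact Or.inl ⟨h1, h2⟩
      · obtain ⟨p, q, r, hpq, hpr, hqr, rfl⟩ := ncard_eq_three.1 h2
        have hp : p ∈ Q := h1 (by simp)
        have hq : q ∈ Q := h1 (by simp)
        have hr' : r ∈ Q := h1 (by simp)
        exact Or.inr (Or.inr (Or.inl ⟨p, hp, q, hq, r, hr', hpar p hp q hq hpq,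
          hpar p hp r hr' hpr, hpar q hq r hr' hqr, rfl⟩))
      · obtain ⟨e, f, hef, hLe⟩ := ncard_eq_two.1 h1
        obtain ⟨p, q, hpq, hQe⟩ := ncard_eq_two.1 h2
        have heL : e ∈ L := (hLe.symm ▸ (by simp : e ∈ ({e, f} : Set α)) : e ∈ C ∩ L).2
        have hfL : f ∈ L := (hLe.symm ▸ (by simp : f ∈ ({e, f} : Set α)) : f ∈ C ∩ L).2
        have hpQ : p ∈ Q := (hQe.symm ▸ (by simp : p ∈ ({p, q} : Set α)) : p ∈ C ∩ Q).2
        have hqQ : q ∈ Q := (hQe.symm ▸ (by simp : q ∈ ({p, q} : Set α)) : q ∈ C ∩ Q).2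
        refine Or.inr (Or.inr (Or.inr ⟨e, heL, f, hfL, p, hpQ, q, hqQ, hef,
          hpar p hpQ q hqQ hpq, ?_⟩))
        have hCu : C = (C ∩ L) ∪ (C ∩ Q) := by
          rw [← inter_union_distrib_left, H.union, inter_eq_left.2 hCE]
        rw [hCu, hLe, hQe]
        ext g
        simp only [mem_union, mem_insert_iff, mem_singleton_iff]
        tauto
  · right
    push Not at hpar
    obtain ⟨u, hu, u', hu', huu, hPu⟩ := hpar
    have hlQ : ∀ e ∈ Q, rk M {e} = 1 := fun e he => hl e (hQE he)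
    -- a point not parallel to `u`
    obtain ⟨v, hv, huv⟩ : ∃ v ∈ Q, ¬ P M u v := by
      by_contra hcon
      push Not at hcon
      exact not_P23 h.axy (P_trans (hlQ u hu) (P_comm.1 (hcon x hxQ)) (hcon y hyQ))
    have hBuv : Beta M a b c u v := by
      have pac := not_P12 h.acx
      have pbc := not_P12 h.bcx
      refine ⟨h.abc, hu.2, hv.2, off pac h.abc hu.2, off pac h.abc hv.2,
        off pbc (D12.1 h.abc) (fun h' => hu.2 (D12.1 h')),
        off pbc (D12.1 h.abc) (fun h' => hv.2 (D12.1 h')), ?_, ?_, ?_⟩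
      · exact H.LQQ a haL u hu v hv huv
      · exact H.LQQ b hbL u hu v hv huv
      · exact H.LQQ c hcL u hu v hv huv
    set X := {e | e ∈ Q ∧ P M u e} with hX
    have hQX : ∀ e ∈ Q, e = v ∨ e ∈ X := by
      intro e he
      by_cases hev : e = v
      · exact Or.inl hev
      right
      refine ⟨he, ?_⟩
      by_contra hue
      by_cases hve : P M v e
      · exact beta_two hM hr hl hBuv ha hb hc (hQE hu) (hQE hv) (hQE hu') (hQE he) huu
          (Ne.symm hev) hPu hve
      · exact beta_sym hM hr hl h ha hb hc hx hy (hQE hu) (hQE hv) (hQE he) hu.2 hv.2 he.2 huv hue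
          hve (hQE hu) hu.2 (hQE hu') huu hPu
    have hvX : v ∉ X := fun h' => huv h'.2
    have hvL : v ∉ L := fun h' => hLQ v h' hv
    have hXQ : X ⊆ Q := fun e he => he.1
    have hQe : Q = insert v X := by
      ext e
      constructor
      · intro he
        rcases hQX e he with h1 | h1
        · exact Or.inl h1
        · exact Or.inr h1
      · rintro (rfl | h1)
        · exact hv
        · exact h1.1
    have hXP : ∀ p ∈ X, ∀ q ∈ X, P M p q := fun p hp q hq =>
      P_trans (hlQ u hu) (P_comm.1 hp.2) hq.2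
    have hXv : ∀ p ∈ X, ¬ P M p v := fun p hp h' => huv (P_trans (hlQ p hp.1) hp.2 h')
    have hXL : ∀ e, e ∈ L → e ∉ X := fun e h1 h2 => hLQ e h1 h2.1
    refine ⟨L, X, v, H.disj.mono_right hXQ, hvL, hvX, ?_, hL3, ?_, fun C => ?_⟩
    · rw [← H.union, hQe, union_insert]
    · have h1 : ({u, u'} : Set α) ⊆ X := by
        rintro e (rfl | rfl)
        · exact ⟨hu, P_self _⟩
        · exact ⟨hu', hPu⟩
      have := ncard_le_ncard h1 (hEf.subset (hXQ.trans hQE))
      rwa [ncard_pair huu] at this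
    rw [Hiff]
    have hlast : ∀ e f p : α, e ∈ L → f ∈ L → p ∈ X → e ≠ f →
        (v ∈ ({e, f, p, v} : Set α) ∧ (({e, f, p, v} : Set α) ∩ L).ncard = 2 ∧
        (({e, f, p, v} : Set α) ∩ X).ncard = 1) := by
      intro e f p he hf hp hef
      refine ⟨by simp, ?_, ?_⟩
      · have : ({e, f, p, v} : Set α) ∩ L = {e, f} := by
          ext g
          simp only [mem_inter_iff, mem_insert_iff, mem_singleton_iff]
          constructor
          · rintro ⟨rfl | rfl | rfl | rfl, hg⟩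
            · exact Or.inl rfl
            · exact Or.inr rfl
            · exact absurd hp.1 (hLQ _ hg)
            · exact absurd hg hvL
          · rintro (rfl | rfl)
            · exact ⟨Or.inl rfl, he⟩
            · exact ⟨Or.inr (Or.inl rfl), hf⟩
        rw [this, ncard_pair hef]
      · have : ({e, f, p, v} : Set α) ∩ X = {p} := by
          ext g
          simp only [mem_inter_iff, mem_insert_iff, mem_singleton_iff]
          constructor
          · rintro ⟨rfl | rfl | rfl | rfl, hg⟩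
            · exact absurd hg (hXL _ he)
            · exact absurd hg (hXL _ hf)
            · rfl
            · exact absurd hg hvX
          · rintro rfl
            exact ⟨Or.inr (Or.inr (Or.inl rfl)), hp⟩
        rw [this, ncard_singleton]
    constructor
    · rintro (⟨h1, h2⟩ | ⟨p, hp, q, hq, hpq, hP, rfl⟩ | ⟨p, hp, q, hq, r, hr', h1, h2, h3, rfl⟩ |
        ⟨e, he, f, hf, p, hp, q, hq, hef, hpq, rfl⟩)
      · exact ⟨h1.trans hLE, Or.inl ⟨h1, h2⟩⟩
      · have hpX : p ∈ X := by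
          rcases hQX p hp with rfl | h1
          · rcases hQX q hq with rfl | h2
            · exact absurd rfl hpq
            · exact absurd (P_comm.1 hP) (hXv q h2)
          · exact h1
        have hqX : q ∈ X := by
          rcases hQX q hq with rfl | h1
          · exact absurd hP (hXv p hpX)
          · exact h1
        have hs : ({p, q} : Set α) ⊆ X := by rintro e (rfl | rfl) <;> assumption
        exact ⟨hs.trans (hXQ.trans hQE), Or.inr (Or.inl ⟨hs, ncard_pair hpq⟩)⟩
      · exfalso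
        rcases hQX p hp with rfl | hp'
        · rcases hQX q hq with rfl | hq'
          · exact h1 (P_self _)
          · rcases hQX r hr' with rfl | hr''
            · exact h2 (P_self _)
            · exact h3 (hXP q hq' r hr'')
        · rcases hQX q hq with rfl | hq'
          · rcases hQX r hr' with rfl | hr''
            · exact h3 (P_self _)
            · exact h2 (hXP p hp' r hr'')
          · exact h1 (hXP p hp' q hq')
      · have hsub : ({e, f, p, q} : Set α) ⊆ M.E := by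
          rintro g (rfl | rfl | rfl | rfl)
          exacts [hLE he, hLE hf, hQE hp, hQE hq]
        refine ⟨hsub, Or.inr (Or.inr ?_)⟩
        rcases hQX p hp with rfl | hp'
        · rcases hQX q hq with rfl | hq'
          · exact absurd (P_self _) hpq
          · have h1 := hlast e f q he hf hq' hef
            rwa [pair_comm q p] at h1
        · rcases hQX q hq with rfl | hq'
          · exact hlast e f p he hf hp' hef
          · exact absurd (hXP p hp' q hq') hpq
    · rintro ⟨hCE, ⟨h1, h2⟩ | ⟨h1, h2⟩ | ⟨h0, h1, h2⟩⟩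
      · exact Or.inl ⟨h1, h2⟩
      · obtain ⟨p, q, hpq, rfl⟩ := ncard_eq_two.1 h2
        have hp : p ∈ X := h1 (by simp)
        have hq : q ∈ X := h1 (by simp)
        exact Or.inr (Or.inl ⟨p, hp.1, q, hq.1, hpq, hXP p hp q hq, rfl⟩)
      · obtain ⟨e, f, hef, hLe⟩ := ncard_eq_two.1 h1
        obtain ⟨p, hXe⟩ := ncard_eq_one.1 h2
        have heL : e ∈ L := (hLe.symm ▸ (by simp : e ∈ ({e, f} : Set α)) : e ∈ C ∩ L).2
        have hfL : f ∈ L := (hLe.symm ▸ (by simp : f ∈ ({e, f} : Set α)) : f ∈ C ∩ L).2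
        have hpX : p ∈ X := (hXe.symm ▸ (by simp : p ∈ ({p} : Set α)) : p ∈ C ∩ X).2
        refine Or.inr (Or.inr (Or.inr ⟨e, heL, f, hfL, p, hpX.1, v, hv, hef, hXv p hpX, ?_⟩))
        have hCu : C = (C ∩ L) ∪ (C ∩ Q) := by
          rw [← inter_union_distrib_left, H.union, inter_eq_left.2 hCE]
        have hCQ : C ∩ Q = {p, v} := by
          rw [hQe]
          ext g
          simp only [mem_inter_iff, mem_insert_iff, mem_singleton_iff]
          constructor
          · rintro ⟨hg, rfl | hgX⟩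
            · exact Or.inr rfl
            · left
              have : g ∈ C ∩ X := ⟨hg, hgX⟩
              rw [hXe] at this
              exact this
          · rintro (rfl | rfl)
            · exact ⟨(hXe.symm ▸ (by simp : g ∈ ({g} : Set α)) : g ∈ C ∩ X).1, Or.inr hpX⟩
            · exact ⟨h0, Or.inl rfl⟩
        rw [hCu, hLe, hCQ]
        ext g
        simp only [mem_union, mem_insert_iff, mem_singleton_iff]
        tauto

end Pool.Agent.helper9.HB49
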