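import Pool.Agent.helper9.HB49.AsmBeta

set_option autoImplicit false

/-! # Four points on a line; five points in general position; rank two -/

open Set

namespace Pool.Agent.helper9.HB49

variable {α : Type*} {M : Matroid α}

/-- four points on a line of a connected matroid of rank three: there is a `Beta` -/
theorem beta_of_alpha [M.Finite] (hM : CircuitsHilbert M) (hr : ∀ X, rk M X ≤ 3)
    (hl : ∀ e ∈ M.E, rk M {e} = 1) (hconn : Connected M) (h3 : rk M M.E = 3) {a b c d : α}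
    (h : Alpha M a b c d) (ha : a ∈ M.E) (hb : b ∈ M.E) (hc : c ∈ M.E) (hd : d ∈ M.E) :
    ∃ x ∈ M.E, ∃ y ∈ M.E, Beta M a b c x y := by
  obtain ⟨x, hx, hxD⟩ : ∃ x ∈ M.E, ¬ D M a b x := by
    by_contra hcon
    push Not at hcon
    have h1 : M.E ⊆ M.closure {a, b} := fun e he => mem_closure_of_D h.ab he (hcon e he)
    have h2 := rk_mono (M := M) h1
    have h4 : rk M (M.closure {a, b}) = rk M {a, b} := by rw [rk, rk, M.eRk_closure_eq]
    have h5 := rk_le_ncard (M := M) (X := {a, b}) (by simp)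
    rw [ncard_pair (ne_of_not_P h.ab)] at h5
    omega
  obtain ⟨y, hy, hyD, hxy⟩ := exists_two_off hconn ha hb hx h.ab hxD
  refine ⟨x, hx, y, hy, h.abc, hxD, hyD, off h.ac h.abc hxD, off h.ac h.abc hyD,
    off h.bc (D12.1 h.abc) (fun h' => hxD (D12.1 h')),
    off h.bc (D12.1 h.abc) (fun h' => hyD (D12.1 h')), ?_, ?_, ?_⟩
  · -- a x y : use the line `b c`
    have hA : Alpha M b c a d := h.s12.s23
    exact alpha_meet hM hr hl hA hb hc ha hd hx hy
      (off h.bc (D12.1 h.abc) (fun h' => hxD (D12.1 h')))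
      (off h.bc (D12.1 h.abc) (fun h' => hyD (D12.1 h'))) hxy
  · have hA : Alpha M a c b d := h.s23
    exact alpha_meet hM hr hl hA ha hc hb hd hx hy (off h.ac h.abc hxD) (off h.ac h.abc hyD) hxy
  · exact alpha_meet hM hr hl h ha hb hc hd hx hy hxD hyD hxy

/-- rank two -/
theorem uniform_of_alpha [M.Finite] (hM : CircuitsHilbert M) (hl : ∀ e ∈ M.E, rk M {e} = 1)
    (h2 : rk M M.E ≤ 2) {a b c d : α} (h : Alpha M a b c d) (ha : a ∈ M.E) (hb : b ∈ M.E)
    (hc : c ∈ M.E) (hd : d ∈ M.E) : UniformType M := by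
  have hD : ∀ x ∈ M.E, ∀ y ∈ M.E, ∀ z ∈ M.E, D M x y z := by
    intro x hx y hy z hz
    have h3 : ({x, y, z} : Set α) ⊆ M.E := by rintro e (rfl | rfl | rfl) <;> assumption
    have := rk_mono (M := M) h3
    rw [D]
    omega
  have hA : ∀ p ∈ M.E, ∀ q ∈ M.E, ∀ r ∈ M.E, ¬ P M q r → ¬ P M p q → ¬ P M p r →
      ∀ s ∈ M.E, ¬ P M p s → ¬ P M q s → ¬ P M r s → ∀ p' ∈ M.E, p ≠ p' → ¬ P M p p' := by
    intro p hp q hq r hr qr pq pr s hs ps qs rs p' hp' hne
    exact alpha_par hM hl (Alpha.mk' pq pr ps qr qs rs (hD p hp q hq r hr) (hD p hp q hq s hs))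
      hp hq hr hs hp' hne
  have hPt : ∀ u ∈ M.E, ∀ x y, P M u x → P M u y → P M x y := fun u hu x y h1 h2 =>
    P_trans (hl u hu) (P_comm.1 h1) h2
  have hpar : ∀ u ∈ M.E, ∀ u' ∈ M.E, u ≠ u' → ¬ P M u u' := by
    intro u hu u' hu' hne
    by_cases hub : P M u b
    · have h1 : ¬ P M u a := fun h' => h.ab (hPt u hu a b h' hub)
      have h2 : ¬ P M u c := fun h' => h.bc (hPt u hu b c hub h')
      have h3 : ¬ P M u d := fun h' => h.bd (hPt u hu b d hub h')
      exact hA u hu a ha c hc h.ac h1 h2 d hd h3 h.ad h.cd u' hu' hne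
    by_cases huc : P M u c
    · have h1 : ¬ P M u a := fun h' => h.ac (hPt u hu a c h' huc)
      have h3 : ¬ P M u d := fun h' => h.cd (hPt u hu c d huc h')
      exact hA u hu a ha b hb h.ab h1 hub d hd h3 h.ad h.bd u' hu' hne
    by_cases hud : P M u d
    · have h1 : ¬ P M u a := fun h' => h.ad (hPt u hu a d h' hud)
      exact hA u hu a ha b hb h.ab h1 hub c hc huc h.ac h.bc u' hu' hne
    · exact hA u hu b hb c hc h.bc hub huc d hd hud h.bd h.cd u' hu' hne
  refine ⟨2, fun C => ⟨fun hC => ⟨hC.subset_ground, ?_⟩, ?_⟩⟩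
  · have h1 := circuit_rk hC
    have h3 := rk_mono (M := M) hC.subset_ground
    have hCf := circuit_finite hC
    by_contra hcon
    have h4 : C.ncard = 1 ∨ C.ncard = 2 := by omega
    rcases h4 with h4 | h4
    · obtain ⟨x, rfl⟩ := ncard_eq_one.1 h4
      have := hl x (hC.subset_ground rfl)
      omega
    · obtain ⟨x, y, hxy, rfl⟩ := ncard_eq_two.1 h4
      refine hpar x (hC.subset_ground (by simp)) y (hC.subset_ground (by simp)) hxy ?_
      rw [P]
      omega
  · rintro ⟨hCE, hn⟩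
    obtain ⟨x, y, z, hxy, hxz, hyz, rfl⟩ := ncard_eq_three.1 hn
    have hx := hCE (by simp : x ∈ ({x, y, z} : Set α))
    have hy := hCE (by simp : y ∈ ({x, y, z} : Set α))
    have hz := hCE (by simp : z ∈ ({x, y, z} : Set α))
    exact circ3 hx hy hz (hD x hx y hy z hz) (hpar x hx y hy hxy) (hpar x hx z hz hxz)
      (hpar y hy z hz hyz)

/-- a set whose triples are independent -/
def Gen (M : Matroid α) (A : Finset α) : Prop :=
  (A : Set α) ⊆ M.E ∧ ∀ x ∈ A, ∀ y ∈ A, ∀ z ∈ A, x ≠ y → x ≠ z → y ≠ z → ¬ D M x y z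

theorem gen_par [M.Finite] [DecidableEq α] (hM : CircuitsHilbert M) (hr : ∀ X, rk M X ≤ 3)
    (hl : ∀ e ∈ M.E, rk M {e} = 1) {A : Finset α} (hA : Gen M A) (h5 : 5 ≤ A.card) {p : α}
    (hp : p ∈ A) {x : α} (hx : x ∈ M.E) (hpx : p ≠ x) : ¬ P M p x := by
  intro hP
  obtain ⟨B, hBA, hB⟩ := Finset.exists_subset_card_eq (s := A.erase p) (n := 4)
    (by rw [Finset.card_erase_of_mem hp]; omega)
  have hBs : ∀ e ∈ B, e ∈ A ∧ e ≠ p := fun e he => by
    have := hBA he
    rw [Finset.mem_erase] at this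
    exact ⟨this.2, this.1⟩
  have hpB : p ∉ B := fun h => (hBs p h).2 rfl
  obtain ⟨b, B', hbB', rfl, hB'⟩ := Finset.card_eq_succ.1 hB
  obtain ⟨c, d, e, hcd, hce, hde, rfl⟩ := Finset.card_eq_three.1 hB'
  have hb := hBs b (by simp)
  have hc := hBs c (by simp)
  have hd := hBs d (by simp)
  have he := hBs e (by simp)
  have hbc : b ≠ c := fun h => hbB' (by simp [h])
  have hbd : b ≠ d := fun h => hbB' (by simp [h])
  have hbe : b ≠ e := fun h => hbB' (by simp [h])
  have hAE : ∀ e ∈ A, e ∈ M.E := fun e he => hA.1 (Finset.mem_coe.2 he)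
  have pE := hAE p hp
  have bE := hAE b hb.1
  have cE := hAE c hc.1
  have dE := hAE d hd.1
  have eE := hAE e he.1
  have pbc := hA.2 p hp b hb.1 c hc.1 hb.2.symm hc.2.symm hbc
  have pbd := hA.2 p hp b hb.1 d hd.1 hb.2.symm hd.2.symm hbd
  have pcd := hA.2 p hp c hc.1 d hd.1 hc.2.symm hd.2.symm hcd
  have bcd := hA.2 b hb.1 c hc.1 d hd.1 hbc hbd hcd
  have rep : ∀ {u v : α}, ¬ D M p u v → ¬ D M x u v := fun h1 h2 =>
    h1 (D_replace (hl x hx) (P_comm.1 hP) h2)
  have xbc := rep pbc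
  have xbd := rep pbd
  have xcd := rep pcd
  have c1 := circ2 pE hx (hl p pE) (hl x hx) hpx hP
  have c2 := circ4 hr pE bE cE dE pbc pbd pcd bcd
  have c3 := circ4 hr hx bE cE dE xbc xbd xcd bcd
  have hz : (2 : ℤ) • chi ℤ ({p} : Set α) ∈ Lat M := by
    have e1 : (2 : ℤ) • chi ℤ ({p} : Set α) = chi ℤ ({p, x} : Set α) +
        chi ℤ ({p, b, c, d} : Set α) - chi ℤ ({x, b, c, d} : Set α) := by
      rw [chi2 hpx, chi4 hb.2.symm hc.2.symm hd.2.symm hbc hbd hcd,
        chi4 (ne12 xbc) (ne13 xbc) (ne13 xbd) hbc hbd hcd]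
      abel
    rw [e1]
    exact sub_mem (add_mem (chi_mem_lat c1) (chi_mem_lat c2)) (chi_mem_lat c3)
  have hcard : ({p, b, c, d, e} : Finset α).card = 4 + 1 := by
    rw [Finset.card_insert_of_notMem (by simpa using hpB), hB]
  have hS : ∀ f ∈ ({p, b, c, d, e} : Finset α), f ∈ A := by
    intro f hf
    simp only [Finset.mem_insert, Finset.mem_singleton] at hf
    rcases hf with rfl | rfl | rfl | rfl | rfl
    exacts [hp, hb.1, hc.1, hd.1, he.1]
  have h1 := unif_key hM {p, b, c, d, e} 4 hcard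
    (fun f hf => hAE f (hS f (Finset.mem_coe.1 hf)))
    (by
      intro X hX hXn
      have hXf : X.Finite := ({p, b, c, d, e} : Finset α).finite_toSet.subset hX
      have hXA : ∀ f ∈ X, f ∈ A := fun f hf => hS f (Finset.mem_coe.1 (hX hf))
      have h3 : ∀ f ∈ A, ∀ g ∈ A, f ≠ g → ∃ h ∈ A, f ≠ h ∧ g ≠ h := by
        intro f hf g hg hfg
        obtain ⟨h, hh, hh'⟩ := Finset.exists_mem_notMem_of_card_lt_card
          (s := {f, g}) (t := A) (by rw [Finset.card_pair hfg]; omega)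
        simp only [Finset.mem_insert, Finset.mem_singleton, not_or] at hh'
        exact ⟨h, hh, Ne.symm hh'.1, Ne.symm hh'.2⟩
      have : X.ncard = 0 ∨ X.ncard = 1 ∨ X.ncard = 2 ∨ X.ncard = 3 := by omega
      rcases this with h0 | h0 | h0 | h0
      · rw [Set.ncard_eq_zero hXf] at h0
        rw [h0]
        exact M.empty_indep
      · obtain ⟨f, rfl⟩ := Set.ncard_eq_one.1 h0
        rw [indep_iff_rk (by simp), ncard_singleton]
        exact hl f (hAE f (hXA f rfl))
      · obtain ⟨f, g, hfg, rfl⟩ := Set.ncard_eq_two.1 h0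
        obtain ⟨h, hh, hfh, hgh⟩ := h3 f (hXA f (by simp)) g (hXA g (by simp)) hfg
        exact indep_pair (not_P12 (hA.2 f (hXA f (by simp)) g (hXA g (by simp)) h hh hfg hfh hgh))
      · obtain ⟨f, g, h, hfg, hfh, hgh, rfl⟩ := Set.ncard_eq_three.1 h0
        exact indep_triple (hA.2 f (hXA f (by simp)) g (hXA g (by simp)) h (hXA h (by simp))
          hfg hfh hgh))
    (by have := hr (({p, b, c, d, e} : Finset α) : Set α)
        omega) hz (by
      intro f hf
      have : f ≠ p := fun h => hf (by simp [h])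
      rw [Pi.smul_apply, chi1 this]
      simp)
  have h2 : ∑ f ∈ ({p, b, c, d, e} : Finset α), ((2 : ℤ) • chi ℤ ({p} : Set α)) f = 2 := by
    rw [Finset.sum_eq_single p]
    · rw [Pi.smul_apply, chi1']
      norm_num
    · intro f _ hf
      rw [Pi.smul_apply, chi1 hf]
      simp
    · intro h
      simp at h
  rw [h2] at h1
  norm_num at h1

/-- extension of a set in general position -/
theorem gen_extend [M.Finite] [DecidableEq α] (hM : CircuitsHilbert M) (hr : ∀ X, rk M X ≤ 3)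
    (hl : ∀ e ∈ M.E, rk M {e} = 1)
    (hB : ∀ a ∈ M.E, ∀ b ∈ M.E, ∀ c ∈ M.E, ∀ x ∈ M.E, ∀ y ∈ M.E, ¬ Beta M a b c x y)
    {A : Finset α} (hA : Gen M A) (h5 : 5 ≤ A.card) {x : α} (hx : x ∈ M.E) (hxA : x ∉ A)
    {a b : α} (ha : a ∈ A) (hb : b ∈ A) (hab : a ≠ b) : ¬ D M x a b := by
  intro hD
  obtain ⟨B, hBA, hBc⟩ := Finset.exists_subset_card_eq (s := (A.erase a).erase b) (n := 3)
    (by rw [Finset.card_erase_of_mem (by simp [hab.symm, hb]), Finset.card_erase_of_mem ha]; omega)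
  obtain ⟨c, d, e, hcd, hce, hde, rfl⟩ := Finset.card_eq_three.1 hBc
  have hBs : ∀ f ∈ ({c, d, e} : Finset α), f ∈ A ∧ a ≠ f ∧ b ≠ f := fun f hf => by
    have := hBA hf
    rw [Finset.mem_erase, Finset.mem_erase] at this
    exact ⟨this.2.2, Ne.symm this.2.1, Ne.symm this.1⟩
  have hc := hBs c (by simp)
  have hd := hBs d (by simp)
  have he := hBs e (by simp)
  have hAE : ∀ e ∈ A, e ∈ M.E := fun e he => hA.1 (Finset.mem_coe.2 he)
  have hpar : ∀ p ∈ A, ¬ P M p x := fun p hp =>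
    gen_par hM hr hl hA h5 hp hx (fun h => hxA (h ▸ hp))
  have hpar' : ∀ p ∈ A, ¬ P M x p := fun p hp h => hpar p hp (P_comm.1 h)
  -- `x` is not on a second line through `a` or `b`
  have hline : ∀ p ∈ A, ∀ q ∈ A, p ≠ q → D M x p q → ∀ r ∈ A, p ≠ r → q ≠ r →
      ¬ D M x p r := by
    intro p hp q hq hpq hD' r hr' hpr hqr h1
    have h2 : D M p q r := exch (hpar p hp) (D12.1 hD') (D12.1 h1)
    exact hA.2 p hp q hq r hr' hpq hpr hqr h2
  have key : ∀ f ∈ A, ∀ g ∈ A, f ≠ g → a ≠ f → b ≠ f → a ≠ g → b ≠ g → D M x f g := by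
    intro f hf g hg hfg haf hbf hag hbg
    by_contra hfgD
    refine hB x hx a (hAE a ha) b (hAE b hb) f (hAE f hf) g (hAE g hg) ⟨hD, ?_, ?_, ?_, ?_, ?_, ?_,
      hfgD, ?_, ?_⟩
    · exact hline a ha b hb hab hD f hf haf hbf
    · exact hline a ha b hb hab hD g hg hag hbg
    · exact hline b hb a ha hab.symm (D23.1 hD) f hf hbf haf
    · exact hline b hb a ha hab.symm (D23.1 hD) g hg hbg hag
    · exact hA.2 a ha b hb f hf hab haf hbf
    · exact hA.2 a ha b hb g hg hab hag hbg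
    · exact hA.2 a ha f hf g hg haf hag hfg
    · exact hA.2 b hb f hf g hg hbf hbg hfg
  have h1 := key c hc.1 d hd.1 hcd hc.2.1 hc.2.2 hd.2.1 hd.2.2
  have h2 := key c hc.1 e he.1 hce hc.2.1 hc.2.2 he.2.1 he.2.2
  exact hline c hc.1 d hd.1 hcd h1 e he.1 hce hde h2

/-- five points in general position and no `Beta`: uniform -/
theorem uniform_of_gen [M.Finite] [DecidableEq α] (hM : CircuitsHilbert M)
    (hr : ∀ X, rk M X ≤ 3) (hl : ∀ e ∈ M.E, rk M {e} = 1)
    (hB : ∀ a ∈ M.E, ∀ b ∈ M.E, ∀ c ∈ M.E, ∀ x ∈ M.E, ∀ y ∈ M.E, ¬ Beta M a b c x y)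
    {A₀ : Finset α} (hA₀ : Gen M A₀) (h5 : 5 ≤ A₀.card) : UniformType M := by
  have hEf : M.E.Finite := M.ground_finite
  set F := hEf.toFinset with hF
  have hFE : (F : Set α) = M.E := by simp [hF]
  have hFE' : ∀ e, e ∈ F ↔ e ∈ M.E := fun e => by simp [hF]
  classical
  obtain ⟨A, hAm, hAmax⟩ := Finset.exists_max_image
    (F.powerset.filter fun A => Gen M A ∧ 5 ≤ A.card) Finset.card
    ⟨A₀, by
      rw [Finset.mem_filter, Finset.mem_powerset]
      refine ⟨fun e he => (hFE' e).2 (hA₀.1 (Finset.mem_coe.2 he)), hA₀, h5⟩⟩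
  rw [Finset.mem_filter, Finset.mem_powerset] at hAm
  obtain ⟨hAF, hA, h5A⟩ := hAm
  have hAE : A = F := by
    by_contra hne
    obtain ⟨x, hxF, hxA⟩ := Finset.exists_of_ssubset (hAF.ssubset_of_ne hne)
    have hx : x ∈ M.E := (hFE' x).1 hxF
    have hxab : ∀ a ∈ A, ∀ b ∈ A, a ≠ b → ¬ D M x a b := fun a ha b hb hab =>
      gen_extend hM hr hl hB hA h5A hx hxA ha hb hab
    have hG : Gen M (insert x A) := by
      refine ⟨?_, ?_⟩
      · intro e he
        rw [Finset.mem_coe, Finset.mem_insert] at he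
        rcases he with rfl | he
        · exact hx
        · exact hA.1 (Finset.mem_coe.2 he)
      · intro p hp q hq r hr' hpq hpr hqr
        rw [Finset.mem_insert] at hp hq hr'
        rcases hp with rfl | hp
        · rcases hq with rfl | hq
          · exact absurd rfl hpq
          rcases hr' with rfl | hr'
          · exact absurd rfl hpr
          exact hxab q hq r hr' hqr
        · rcases hq with rfl | hq
          · rcases hr' with rfl | hr'
            · exact absurd rfl hqr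
            exact fun h' => hxab p hp r hr' hpr (D12.1 h')
          · rcases hr' with rfl | hr'
            · exact fun h' => hxab p hp q hq hpq (Drot.2 h')
            · exact hA.2 p hp q hq r hr' hpq hpr hqr
    have := hAmax (insert x A) (by
      rw [Finset.mem_filter, Finset.mem_powerset]
      refine ⟨Finset.insert_subset hxF hAF, hG, ?_⟩
      rw [Finset.card_insert_of_notMem hxA]
      omega)
    rw [Finset.card_insert_of_notMem hxA] at this
    omega
  subst hAE
  have hD : ∀ x ∈ M.E, ∀ y ∈ M.E, ∀ z ∈ M.E, x ≠ y → x ≠ z → y ≠ z → ¬ D M x y z :=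
    fun x hx y hy z hz => hA.2 x ((hFE' x).2 hx) y ((hFE' y).2 hy) z ((hFE' z).2 hz)
  refine ⟨3, fun C => ⟨fun hC => ⟨hC.subset_ground, ?_⟩, ?_⟩⟩
  · have h1 := circuit_rk hC
    have h3 := hr C
    have hCf := circuit_finite hC
    by_contra hcon
    have h4 : C.ncard = 1 ∨ C.ncard = 2 ∨ C.ncard = 3 := by omega
    rcases h4 with h4 | h4 | h4
    · obtain ⟨x, rfl⟩ := ncard_eq_one.1 h4
      have := hl x (hC.subset_ground rfl)
      omega
    · obtain ⟨x, y, hxy, rfl⟩ := ncard_eq_two.1 h4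
      refine gen_par hM hr hl hA h5A ((hFE' x).2 (hC.subset_ground (by simp)))
        (hC.subset_ground (by simp : y ∈ ({x, y} : Set α))) hxy ?_
      rw [P]
      omega
    · obtain ⟨x, y, z, hxy, hxz, hyz, rfl⟩ := ncard_eq_three.1 h4
      refine hD x (hC.subset_ground (by simp)) y (hC.subset_ground (by simp)) z
        (hC.subset_ground (by simp)) hxy hxz hyz ?_
      rw [D]
      omega
  · rintro ⟨hCE, hn⟩
    have hCf : C.Finite := hEf.subset hCE
    obtain ⟨x, C', hxC', hCx, hn'⟩ := (ncard_eq_succ hCf).1 hn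
    obtain ⟨y, z, w, hyz, hyw, hzw, rfl⟩ := ncard_eq_three.1 hn'
    subst hCx
    have hx := hCE (by simp : x ∈ (insert x {y, z, w} : Set α))
    have hy := hCE (by simp : y ∈ (insert x {y, z, w} : Set α))
    have hz := hCE (by simp : z ∈ (insert x {y, z, w} : Set α))
    have hw := hCE (by simp : w ∈ (insert x {y, z, w} : Set α))
    have hxy : x ≠ y := fun h => hxC' (by simp [h])
    have hxz : x ≠ z := fun h => hxC' (by simp [h])
    have hxw : x ≠ w := fun h => hxC' (by simp [h])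
    exact circ4 hr hx hy hz hw (hD x hx y hy z hz hxy hxz hyz) (hD x hx y hy w hw hxy hxw hyw)
      (hD x hx z hz w hw hxz hxw hzw) (hD y hy z hz w hw hyz hyw hzw)

end Pool.Agent.helper9.HB49
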