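import Pool.Agent.helper9.HB49.Defs

set_option autoImplicit false

/-! # Decomposition of an integer vector into sets of two consecutive sizes -/

open Set

namespace Pool.Agent.helper9.HB49

variable {α : Type*}

/-- if `z ≤ N = a + b` and `∑ z = (s+1) a + s b`, then `z` is the sum of the indicators of `a`
sets of size `s + 1` and `b` sets of size `s` -/
theorem decomp [DecidableEq α] (F : Finset α) (s : ℕ) : ∀ a b : ℕ, ∀ z : α → ℕ,
    (∀ e, z e ≠ 0 → e ∈ F) → ∑ e ∈ F, z e = (s + 1) * a + s * b → (∀ e, z e ≤ a + b) →
    ∃ (T : Fin a → Finset α) (P : Fin b → Finset α), (∀ i, T i ⊆ F ∧ (T i).card = s + 1) ∧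
      (∀ i, P i ⊆ F ∧ (P i).card = s) ∧
      ∀ e, (z e : ℤ) = ∑ i, chi ℤ (T i : Set α) e + ∑ i, chi ℤ (P i : Set α) e := by
  have main : ∀ (N m : ℕ) (z : α → ℕ), (∀ e, z e ≠ 0 → e ∈ F) → (∀ e, z e ≤ N + 1) →
      (N + 1) * m ≤ ∑ e ∈ F, z e + N → ∑ e ∈ F, z e ≤ (N + 1) * m →
      ∃ T : Finset α, T ⊆ F ∧ T.card = m ∧ (∀ e ∈ T, z e ≠ 0) ∧ ∀ e ∉ T, z e ≤ N := by
    intro N m z hz hN h1 h2
    have hA : (F.filter fun e => z e = N + 1).card ≤ m := by
      by_contra hcon
      rw [not_le] at hcon
      have h3 : (N + 1) * (F.filter fun e => z e = N + 1).card ≤ ∑ e ∈ F, z e := by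
        calc (N + 1) * (F.filter fun e => z e = N + 1).card
            = ∑ e ∈ F.filter (fun e => z e = N + 1), z e := by
              rw [Finset.sum_congr rfl fun e he => (Finset.mem_filter.1 he).2, Finset.sum_const,
                smul_eq_mul, mul_comm]
          _ ≤ ∑ e ∈ F, z e := Finset.sum_le_sum_of_subset (Finset.filter_subset _ _)
      have h4 : (N + 1) * (m + 1) ≤ (N + 1) * (F.filter fun e => z e = N + 1).card :=
        Nat.mul_le_mul_left _ hcon
      have h5 : (N + 1) * (m + 1) = (N + 1) * m + (N + 1) := by ring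
      omega
    have hB : m ≤ (F.filter fun e => z e ≠ 0).card := by
      by_contra hcon
      rw [not_le] at hcon
      have h3 : ∑ e ∈ F, z e ≤ (N + 1) * (F.filter fun e => z e ≠ 0).card := by
        calc ∑ e ∈ F, z e = ∑ e ∈ F.filter (fun e => z e ≠ 0), z e := by
              rw [Finset.sum_filter_ne_zero]
          _ ≤ ∑ e ∈ F.filter (fun e => z e ≠ 0), (N + 1) := Finset.sum_le_sum fun e _ => hN e
          _ = (N + 1) * (F.filter fun e => z e ≠ 0).card := by
              rw [Finset.sum_const, smul_eq_mul, mul_comm]
      have h4 : (N + 1) * ((F.filter fun e => z e ≠ 0).card + 1) ≤ (N + 1) * m :=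
        Nat.mul_le_mul_left _ hcon
      have h5 : (N + 1) * ((F.filter fun e => z e ≠ 0).card + 1)
        = (N + 1) * (F.filter fun e => z e ≠ 0).card + (N + 1) := by ring
      omega
    have hAB : (F.filter fun e => z e = N + 1) ⊆ F.filter fun e => z e ≠ 0 := by
      intro e he
      rw [Finset.mem_filter] at he ⊢
      exact ⟨he.1, by rw [he.2]; omega⟩
    obtain ⟨T, hT1, hT2, hT3⟩ := Finset.exists_subsuperset_card_eq hAB hA hB
    refine ⟨T, fun e he => (Finset.mem_filter.1 (hT2 he)).1, hT3,
      fun e he => (Finset.mem_filter.1 (hT2 he)).2, fun e he => ?_⟩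
    have h3 := hN e
    by_contra hcon
    have h4 : z e = N + 1 := by omega
    exact he (hT1 (Finset.mem_filter.2 ⟨hz e (by omega), h4⟩))
  have step : ∀ (T : Finset α) (z : α → ℕ), T ⊆ F → (∀ e ∈ T, z e ≠ 0) →
      (∀ e, z e ≠ 0 → e ∈ F) →
      (∀ e, z e - (if e ∈ T then 1 else 0) ≠ 0 → e ∈ F) ∧
      ∑ e ∈ F, (z e - (if e ∈ T then 1 else 0)) + T.card = ∑ e ∈ F, z e := by
    intro T z hTF hT hz
    refine ⟨fun e he => hz e (by omega), ?_⟩
    have : T.card = ∑ e ∈ F, (if e ∈ T then 1 else 0) := by
      rw [Finset.sum_ite_mem, Finset.inter_eq_right.2 hTF]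
      simp
    rw [this, ← Finset.sum_add_distrib]
    refine Finset.sum_congr rfl fun e _ => ?_
    split_ifs with h
    · have := hT e h
      omega
    · rfl
  intro a
  induction a with
  | zero =>
    intro b
    induction b with
    | zero =>
      intro z hz hs hle
      refine ⟨Fin.elim0, Fin.elim0, fun i => i.elim0, fun i => i.elim0, fun e => ?_⟩
      have := hle e
      simp at this
      simp [this]
    | succ b ih =>
      intro z hz hs hle
      obtain ⟨T, hTF, hTc, hT0, hTN⟩ := main b s z hz (fun e => by have := hle e; omega)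
        (by rw [hs]; ring_nf; omega) (by rw [hs]; ring_nf; omega)
      obtain ⟨h1, h2⟩ := step T z hTF hT0 hz
      obtain ⟨T', P', hT', hP', hz'⟩ := ih (fun e => z e - (if e ∈ T then 1 else 0)) h1
        (by rw [hs, hTc] at h2; have e3 : s * (b + 1) = s * b + s := by ring
            omega)
        (fun e => by
          by_cases he : e ∈ T
          · have := hle e
            simp only [he, if_true]
            omega
          · have := hTN e he
            simp only [he, if_false]
            omega)
      refine ⟨T', Fin.cons T P', hT', ?_, fun e => ?_⟩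
      · intro i
        refine Fin.cases ?_ (fun j => ?_) i
        · exact ⟨by simpa using hTF, by simpa using hTc⟩
        · simpa using hP' j
      · have h3 := hz' e
        rw [Fin.sum_univ_succ (f := fun i => chi ℤ ((Fin.cons T P' : Fin (b + 1) → Finset α) i
          : Set α) e)]
        simp only [Fin.cons_zero, Fin.cons_succ]
        by_cases he : e ∈ T
        · have h0 := hT0 e he
          rw [chi_apply_mem (Finset.mem_coe.2 he)]
          simp only [he, if_true] at h3
          rw [Nat.cast_sub (by omega)] at h3
          push_cast at h3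
          linarith
        · rw [chi_apply_notMem (fun h => he (Finset.mem_coe.1 h))]
          simp only [he, if_false, Nat.sub_zero] at h3
          linarith
  | succ a ih =>
    intro b z hz hs hle
    obtain ⟨T, hTF, hTc, hT0, hTN⟩ := main (a + b) (s + 1) z hz
      (fun e => by have := hle e; omega)
      (by rw [hs]; ring_nf; nlinarith) (by rw [hs]; ring_nf; omega)
    obtain ⟨h1, h2⟩ := step T z hTF hT0 hz
    obtain ⟨T', P', hT', hP', hz'⟩ := ih b (fun e => z e - (if e ∈ T then 1 else 0)) h1
      (by rw [hs, hTc] at h2; have e3 : (s + 1) * (a + 1) = (s + 1) * a + (s + 1) := by ring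
          omega)
      (fun e => by
        by_cases he : e ∈ T
        · have := hle e
          simp only [he, if_true]
          omega
        · have := hTN e he
          simp only [he, if_false]
          omega)
    refine ⟨Fin.cons T T', P', ?_, hP', fun e => ?_⟩
    · intro i
      refine Fin.cases ?_ (fun j => ?_) i
      · exact ⟨by simpa using hTF, by simpa using hTc⟩
      · simpa using hT' j
    · have h3 := hz' e
      rw [Fin.sum_univ_succ (f := fun i => chi ℤ ((Fin.cons T T' : Fin (a + 1) → Finset α) i
        : Set α) e)]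
      simp only [Fin.cons_zero, Fin.cons_succ]
      by_cases he : e ∈ T
      · have h0 := hT0 e he
        rw [chi_apply_mem (Finset.mem_coe.2 he)]
        simp only [he, if_true] at h3
        rw [Nat.cast_sub (by omega)] at h3
        push_cast at h3
        linarith
      · rw [chi_apply_notMem (fun h => he (Finset.mem_coe.1 h))]
        simp only [he, if_false, Nat.sub_zero] at h3
        linarith

end Pool.Agent.helper9.HB49
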