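import Mathlib

set_option autoImplicit false

/-!
# MP_49b0db_co: matroids whose circuits form a Hilbert basis: definitions
-/

open Set

namespace Pool.Agent.helper9.HB49

variable {α : Type*}

/-- the indicator vector of a set -/
noncomputable def chi (R : Type) [Zero R] [One R] (S : Set α) : α → R := S.indicator 1

/-- `Lat(C(M))`: the integer combinations of the indicator vectors of the circuits -/
noncomputable def Lat (M : Matroid α) : AddSubgroup (α → ℤ) :=
  AddSubgroup.closure {p | ∃ C, M.IsCircuit C ∧ p = chi ℤ C}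

/-- `IntCone(C(M))`: the combinations with coefficients in `ℕ` -/
noncomputable def IntCone (M : Matroid α) : AddSubmonoid (α → ℤ) :=
  AddSubmonoid.closure {p | ∃ C, M.IsCircuit C ∧ p = chi ℤ C}

/-- `Cone(C(M))`: the combinations with nonnegative rational coefficients -/
noncomputable def Cone (M : Matroid α) : Submodule ℚ≥0 (α → ℚ) :=
  Submodule.span ℚ≥0 {p | ∃ C, M.IsCircuit C ∧ p = chi ℚ C}

/-- the circuits of `M` form a Hilbert basis -/
def CircuitsHilbert (M : Matroid α) : Prop :=
  {p : α → ℤ | p ∈ IntCone M} = {p : α → ℤ | p ∈ Lat M ∧ (fun e => (p e : ℚ)) ∈ Cone M}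

/-! ### first properties -/

theorem chi_apply_mem {R : Type} [Zero R] [One R] {S : Set α} {e : α} (h : e ∈ S) :
    chi R S e = 1 := by simp [chi, h]

theorem chi_apply_notMem {R : Type} [Zero R] [One R] {S : Set α} {e : α} (h : e ∉ S) :
    chi R S e = 0 := by simp [chi, h]

open Classical in
theorem chi_apply {R : Type} [Zero R] [One R] (S : Set α) (e : α) :
    chi R S e = if e ∈ S then 1 else 0 := by
  by_cases h : e ∈ S <;> simp [chi, h]

theorem cast_chi (S : Set α) (e : α) : ((chi ℤ S e : ℤ) : ℚ) = chi ℚ S e := by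
  classical
  rw [chi_apply, chi_apply]
  split_ifs <;> simp

theorem chi_mem_lat {M : Matroid α} {C : Set α} (hC : M.IsCircuit C) : chi ℤ C ∈ Lat M :=
  AddSubgroup.subset_closure ⟨C, hC, rfl⟩

theorem chi_mem_intCone {M : Matroid α} {C : Set α} (hC : M.IsCircuit C) : chi ℤ C ∈ IntCone M :=
  AddSubmonoid.subset_closure ⟨C, hC, rfl⟩

theorem chi_mem_cone {M : Matroid α} {C : Set α} (hC : M.IsCircuit C) : chi ℚ C ∈ Cone M :=
  Submodule.subset_span ⟨C, hC, rfl⟩

theorem intCone_sub {M : Matroid α} {p : α → ℤ} (hp : p ∈ IntCone M) :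
    p ∈ Lat M ∧ (fun e => (p e : ℚ)) ∈ Cone M := by
  induction hp using AddSubmonoid.closure_induction with
  | mem p hp =>
    obtain ⟨C, hC, rfl⟩ := hp
    refine ⟨chi_mem_lat hC, ?_⟩
    simp only [cast_chi]
    exact chi_mem_cone hC
  | zero =>
    refine ⟨zero_mem _, ?_⟩
    have : (fun e : α => (((0 : α → ℤ) e : ℤ) : ℚ)) = 0 := by ext e; simp
    rw [this]
    exact zero_mem _
  | add p q _ _ h1 h3 =>
    obtain ⟨h1, h2⟩ := h1
    obtain ⟨h3, h4⟩ := h3
    refine ⟨add_mem h1 h3, ?_⟩
    have : (fun e : α => (((p + q : α → ℤ) e : ℤ) : ℚ)) = (fun e => (p e : ℚ)) +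
        (fun e => (q e : ℚ)) := by ext e; simp
    rw [this]
    exact add_mem h2 h4

theorem hilbert_iff {M : Matroid α} : CircuitsHilbert M ↔
    ∀ p : α → ℤ, p ∈ Lat M → (fun e => (p e : ℚ)) ∈ Cone M → p ∈ IntCone M := by
  constructor
  · intro h p h1 h2
    have : p ∈ {p : α → ℤ | p ∈ IntCone M} := by
      rw [h]
      exact ⟨h1, h2⟩
    exact this
  · intro h
    ext p
    exact ⟨fun hp => intCone_sub hp, fun hp => h p hp.1 hp.2⟩

/-! ### the key lemma: a weight vanishing on the circuits inside `S` -/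

/-- `T`: sum of the circuits inside the finite set `S` -/
theorem key {M : Matroid α} (hM : CircuitsHilbert M) (S : Finset α) {k : ℕ} (ω : α → ZMod k)
    (hω : ∀ C : Set α, M.IsCircuit C → C ⊆ S → ∑ e ∈ S, (chi ℤ C e : ZMod k) * ω e = 0)
    {z : α → ℤ} (hz : z ∈ Lat M)
    (hq : (fun e => (z e : ℚ)) ∈
      Submodule.span ℚ {p : α → ℚ | ∃ C : Set α, M.IsCircuit C ∧ C ⊆ S ∧ p = chi ℚ C}) :
    ∑ e ∈ S, (z e : ZMod k) * ω e = 0 := by
  classical
  set 𝒞 : Finset (Finset α) := S.powerset.filter fun C => M.IsCircuit (C : Set α) with h𝒞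
  set T : α → ℤ := ∑ C ∈ 𝒞, chi ℤ (C : Set α) with hT
  set Tq : α → ℚ := ∑ C ∈ 𝒞, chi ℚ (C : Set α) with hTq
  have hTT : (fun e => (T e : ℚ)) = Tq := by
    ext e
    simp only [hT, hTq, Finset.sum_apply, Int.cast_sum, cast_chi]
  have hTc : Tq ∈ Cone M := by
    refine sum_mem fun C hC => chi_mem_cone ?_
    exact (Finset.mem_filter.1 hC).2
  have hTl : T ∈ Lat M := by
    refine sum_mem fun C hC => chi_mem_lat ?_
    exact (Finset.mem_filter.1 hC).2
  have hN : ∀ v ∈ Submodule.span ℚ {p : α → ℚ | ∃ C : Set α, M.IsCircuit C ∧ C ⊆ S ∧ p = chi ℚ C},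
      ∃ N : ℕ, v + (N : ℚ≥0) • Tq ∈ Cone M ∧ -v + (N : ℚ≥0) • Tq ∈ Cone M := by
    intro v hv
    induction hv using Submodule.span_induction with
    | mem v hv =>
      obtain ⟨C, hC, hCS, rfl⟩ := hv
      refine ⟨1, add_mem (chi_mem_cone hC) (Submodule.smul_mem _ _ hTc), ?_⟩
      have hCf : C.Finite := S.finite_toSet.subset hCS
      have hmem : hCf.toFinset ∈ 𝒞 := by
        rw [h𝒞, Finset.mem_filter, Finset.mem_powerset]
        refine ⟨?_, by simpa using hC⟩
        intro e he
        exact Finset.mem_coe.1 (hCS (by simpa using he))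
      have h1 : Tq = chi ℚ C + ∑ D ∈ 𝒞.erase hCf.toFinset, chi ℚ (D : Set α) := by
        rw [hTq, ← Finset.add_sum_erase 𝒞 _ hmem]
        simp
      rw [Nat.cast_one, one_smul, h1, neg_add_cancel_left]
      refine sum_mem fun D hD => chi_mem_cone ?_
      exact (Finset.mem_filter.1 (Finset.mem_of_mem_erase hD)).2
    | zero => exact ⟨0, by simp, by simp⟩
    | add v w _ _ h1 h2 =>
      obtain ⟨N, h3, h4⟩ := h1
      obtain ⟨N', h5, h6⟩ := h2
      refine ⟨N + N', ?_, ?_⟩
      · have : v + w + ((N + N' : ℕ) : ℚ≥0) • Tq = (v + (N : ℚ≥0) • Tq) + (w + (N' : ℚ≥0) • Tq) := by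
          rw [Nat.cast_add, add_smul]
          abel
        rw [this]
        exact add_mem h3 h5
      · have : -(v + w) + ((N + N' : ℕ) : ℚ≥0) • Tq =
            (-v + (N : ℚ≥0) • Tq) + (-w + (N' : ℚ≥0) • Tq) := by
          rw [Nat.cast_add, add_smul]
          abel
        rw [this]
        exact add_mem h4 h6
    | smul q v _ h1 =>
      obtain ⟨N, h3, h4⟩ := h1
      -- for `r ≥ 0`
      have hr : ∀ r : ℚ≥0, ∀ u : α → ℚ, u + (N : ℚ≥0) • Tq ∈ Cone M →
          r • u + ((⌈r * N⌉₊ : ℕ) : ℚ≥0) • Tq ∈ Cone M := by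
        intro r u hu
        have h5 : r * N ≤ ((⌈r * N⌉₊ : ℕ) : ℚ≥0) := Nat.le_ceil _
        obtain ⟨s, hs⟩ := exists_add_of_le h5
        have : r • u + ((⌈r * N⌉₊ : ℕ) : ℚ≥0) • Tq = r • (u + (N : ℚ≥0) • Tq) + s • Tq := by
          rw [hs, add_smul, smul_add, mul_smul]
          abel
        rw [this]
        exact add_mem (Submodule.smul_mem _ _ hu) (Submodule.smul_mem _ _ hTc)
      rcases le_total 0 q with hq0 | hq0
      · obtain ⟨r, rfl⟩ : ∃ r : ℚ≥0, (r : ℚ) = q := ⟨q.toNNRat, Rat.coe_toNNRat q hq0⟩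
        refine ⟨⌈r * N⌉₊, ?_, ?_⟩
        · have := hr r v h3
          have e1 : r • v = (r : ℚ) • v := by
            ext e
            simp [NNRat.smul_def]
          rwa [e1] at this
        · have := hr r (-v) h4
          have e1 : r • (-v) = -((r : ℚ) • v) := by
            ext e
            simp [NNRat.smul_def]
          rwa [e1] at this
      · obtain ⟨r, hr'⟩ : ∃ r : ℚ≥0, (r : ℚ) = -q :=
          ⟨(-q).toNNRat, Rat.coe_toNNRat (-q) (by linarith)⟩
        obtain rfl : q = -(r : ℚ) := by rw [hr']; ring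
        refine ⟨⌈r * N⌉₊, ?_, ?_⟩
        · have := hr r (-v) h4
          have e1 : r • (-v) = (-(r : ℚ)) • v := by
            ext e
            simp [NNRat.smul_def]
          rwa [e1] at this
        · have := hr r v h3
          have e1 : r • v = -((-(r : ℚ)) • v) := by
            ext e
            simp [NNRat.smul_def]
          rwa [e1] at this
  obtain ⟨N, hN1, -⟩ := hN _ hq
  -- the vector `z + N T` is in the integer cone
  have hint : z + N • T ∈ IntCone M := by
    refine (hilbert_iff.1 hM) _ (add_mem hz (AddSubgroup.nsmul_mem _ hTl N)) ?_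
    have : (fun e => (((z + N • T : α → ℤ) e : ℤ) : ℚ)) = (fun e => (z e : ℚ)) +
        (N : ℚ≥0) • Tq := by
      rw [← hTT]
      ext e
      simp [NNRat.smul_def]
    rw [this]
    exact hN1
  -- supported on `S`
  have hsupp : ∀ v ∈ Submodule.span ℚ
      {p : α → ℚ | ∃ C : Set α, M.IsCircuit C ∧ C ⊆ S ∧ p = chi ℚ C}, ∀ e ∉ S, v e = 0 := by
    intro v hv e he
    induction hv using Submodule.span_induction with
    | mem v hv =>
      obtain ⟨C, hC, hCS, rfl⟩ := hv
      exact chi_apply_notMem fun h => he (Finset.mem_coe.1 (hCS h))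
    | zero => rfl
    | add v w _ _ h1 h2 => simp [h1, h2]
    | smul q v _ h1 => simp [h1]
  have hz0 : ∀ e ∉ S, (z + N • T) e = 0 := by
    intro e he
    have h1 : z e = 0 := by
      have := hsupp _ hq e he
      exact_mod_cast this
    have h2 : T e = 0 := by
      rw [hT, Finset.sum_apply]
      refine Finset.sum_eq_zero fun C hC => chi_apply_notMem fun h => he ?_
      exact Finset.mem_powerset.1 (Finset.mem_filter.1 hC).1 (Finset.mem_coe.1 h)
    simp [h1, h2]
  have hind : ∀ p ∈ IntCone M, (∀ e, 0 ≤ p e) ∧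
      ((∀ e ∉ S, p e = 0) → ∑ e ∈ S, (p e : ZMod k) * ω e = 0) := by
    intro p hp
    induction hp using AddSubmonoid.closure_induction with
    | mem p hp =>
      obtain ⟨C, hC, rfl⟩ := hp
      refine ⟨fun e => ?_, fun h => ?_⟩
      · rw [chi_apply]
        split_ifs <;> simp
      · refine hω C hC fun e he => ?_
        by_contra heS
        have := h e heS
        rw [chi_apply_mem he] at this
        exact one_ne_zero this
    | zero => exact ⟨fun e => le_rfl, fun _ => by simp⟩
    | add p q _ _ h1 h3 =>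
      obtain ⟨h1, h2⟩ := h1
      obtain ⟨h3, h4⟩ := h3
      refine ⟨fun e => add_nonneg (h1 e) (h3 e), fun h => ?_⟩
      have h5 : ∀ e ∉ S, p e = 0 := fun e he => by
        have := h e he
        have a1 := h1 e
        have a2 := h3 e
        simp only [Pi.add_apply] at this
        omega
      have h6 : ∀ e ∉ S, q e = 0 := fun e he => by
        have := h e he
        have a1 := h1 e
        have a2 := h3 e
        simp only [Pi.add_apply] at this
        omega
      have h7 := h2 h5
      have h8 := h4 h6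
      simp only [Pi.add_apply, Int.cast_add, add_mul, Finset.sum_add_distrib, h7, h8, add_zero]
  have hfin := (hind _ hint).2 hz0
  have hTω : ∑ e ∈ S, (T e : ZMod k) * ω e = 0 := by
    simp only [hT, Finset.sum_apply, Int.cast_sum, Finset.sum_mul]
    rw [Finset.sum_comm]
    refine Finset.sum_eq_zero fun C hC => hω C (Finset.mem_filter.1 hC).2 ?_
    exact Finset.coe_subset.2 (Finset.mem_powerset.1 (Finset.mem_filter.1 hC).1)
  have hfin' : ∑ e ∈ S, (z e : ZMod k) * ω e + (N : ZMod k) * ∑ e ∈ S, (T e : ZMod k) * ω e = 0 := by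
    rw [← hfin, Finset.mul_sum, ← Finset.sum_add_distrib]
    refine Finset.sum_congr rfl fun e _ => ?_
    have : (z + N • T) e = z e + N * T e := by simp
    rw [this]
    push_cast
    ring
  rwa [hTω, mul_zero, add_zero] at hfin'

end Pool.Agent.helper9.HB49
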