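import Pool.Agent.helper9.HB49.Geo

set_option autoImplicit false

/-! # The two congruences -/

open Set

namespace Pool.Agent.helper9.HB49

variable {α : Type*} {M : Matroid α} [M.RankFinite]

/-- all `k`-subsets of the `(k+1)`-set `S` are circuits: the entries of a lattice vector supported
on `S` sum up to a multiple of `k` -/
theorem unif_key (hM : CircuitsHilbert M) (S : Finset α) (k : ℕ) (hS : S.card = k + 1)
    (hSE : (S : Set α) ⊆ M.E)
    (hind : ∀ X : Set α, X ⊆ S → X.ncard < k → M.Indep X) (hrk : rk M (S : Set α) < k)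
    {z : α → ℤ} (hz : z ∈ Lat M) (hs : ∀ e ∉ S, z e = 0) : (k : ℤ) ∣ ∑ e ∈ S, z e := by
  classical
  have hfin : ∀ X : Set α, X ⊆ S → X.Finite := fun X hX => S.finite_toSet.subset hX
  have hk : 0 < k := lt_of_le_of_lt (Nat.zero_le _) hrk
  have hcirc : ∀ C : Set α, M.IsCircuit C → C ⊆ S → C.ncard = k := by
    intro C hC hCS
    have h1 := circuit_rk hC
    have h2 := rk_mono (M := M) hCS
    have h3 : ¬ C.ncard < k := fun h => hC.not_indep (hind C hCS h)
    omega
  have hcirc' : ∀ f ∈ S, M.IsCircuit (S.erase f : Set α) := by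
    intro f hf
    have hc : (S.erase f).card = k := by
      rw [Finset.card_erase_of_mem hf, hS]
      rfl
    have hsub : ((S.erase f : Finset α) : Set α) ⊆ S := Finset.coe_subset.2 (Finset.erase_subset _ _)
    refine isCircuit_of (hsub.trans hSE) (Finset.finite_toSet _) ?_ ?_
    · have := rk_mono (M := M) hsub
      rw [Set.ncard_coe_finset, hc]
      omega
    · intro e he
      refine hind _ (diff_subset.trans hsub) ?_
      rw [Set.ncard_sdiff_singleton_of_mem he, Set.ncard_coe_finset, hc]
      omega
  have key' := key hM S (k := k) (fun _ => 1) (fun C hC hCS => by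
    have h1 : ∑ e ∈ S, ((chi ℤ C e : ℤ) : ZMod k) * 1 = ((∑ e ∈ S, chi ℤ C e : ℤ) : ZMod k) := by
      push_cast
      simp
    rw [h1, sum_chi, inter_eq_left.2 hCS, hcirc C hC hCS]
    simp) hz (by
    have h1 : (fun e => (z e : ℚ)) = ∑ f ∈ S, ((((∑ e ∈ S, z e : ℤ) : ℚ)) / k - z f) •
        chi ℚ (S.erase f : Set α) := by
      funext e
      rw [Finset.sum_apply]
      by_cases he : e ∈ S
      · have h2 : ∀ f ∈ S, (((((∑ e ∈ S, z e : ℤ) : ℚ)) / k - z f) •
            chi ℚ (S.erase f : Set α)) e = (((∑ e ∈ S, z e : ℤ) : ℚ)) / k - z f -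
              (if f = e then (((∑ e ∈ S, z e : ℤ) : ℚ)) / k - z f else 0) := by
          intro f _
          rw [Pi.smul_apply, chi_apply]
          by_cases hfe : f = e
          · subst hfe
            simp
          · have : e ∈ ((S.erase f : Finset α) : Set α) := by
              simp [he, Ne.symm hfe]
            rw [if_pos this, if_neg hfe, smul_eq_mul, mul_one, sub_zero]
        rw [Finset.sum_congr rfl h2, Finset.sum_sub_distrib, Finset.sum_sub_distrib,
          Finset.sum_const, Finset.sum_ite_eq' S e, if_pos he, hS, nsmul_eq_mul]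
        push_cast
        have hk0 : (k : ℚ) ≠ 0 := by positivity
        field_simp
        ring
      · rw [hs e he, Finset.sum_eq_zero]
        · simp
        · intro f _
          rw [Pi.smul_apply, chi_apply_notMem, smul_zero]
          intro h
          exact he (Finset.mem_of_mem_erase (Finset.mem_coe.1 h))
    rw [h1]
    refine sum_mem fun f hf => Submodule.smul_mem _ _ (Submodule.subset_span
      ⟨_, hcirc' f hf, Finset.coe_subset.2 (Finset.erase_subset _ _), rfl⟩))
  rw [← ZMod.intCast_zmod_eq_zero_iff_dvd]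
  push_cast
  simpa using key'

/-- a line `a b c` and two points `x`, `y` whose line misses `a`, `b`, `c` -/
structure Beta (M : Matroid α) (a b c x y : α) : Prop where
  abc : D M a b c
  abx : ¬ D M a b x
  aby : ¬ D M a b y
  acx : ¬ D M a c x
  acy : ¬ D M a c y
  bcx : ¬ D M b c x
  bcy : ¬ D M b c y
  axy : ¬ D M a x y
  bxy : ¬ D M b x y
  cxy : ¬ D M c x y

theorem beta_key (hM : CircuitsHilbert M) (hr : ∀ X, rk M X ≤ 3) {a b c x y : α}
    (h : Beta M a b c x y) (ha : a ∈ M.E) (hb : b ∈ M.E) (hc : c ∈ M.E) (hx : x ∈ M.E)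
    (hy : y ∈ M.E) {z : α → ℤ} (hz : z ∈ Lat M)
    (hs : ∀ e, e ≠ a → e ≠ b → e ≠ c → e ≠ x → e ≠ y → z e = 0) (hxy : z x = z y) :
    (3 : ℤ) ∣ z a + z b + z c + z x := by
  classical
  have nab := ne12 h.abx
  have nac := ne12 h.acx
  have nbc := ne12 h.bcx
  have nax := ne13 h.abx
  have nay := ne13 h.aby
  have nbx := ne23 h.abx
  have nby := ne23 h.aby
  have ncx := ne23 h.acx
  have ncy := ne23 h.acy
  have nxy := ne23 h.axy
  set S : Finset α := {a, b, c, x, y} with hS
  have hSs : ((S : Finset α) : Set α) = {a, b, c, x, y} := by simp [hS]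
  have hsum : ∀ (R : Type) [AddCommMonoid R] (f : α → R),
      ∑ e ∈ S, f e = f a + (f b + (f c + (f x + f y))) := by
    intro R _ f
    rw [hS, Finset.sum_insert (by simp [nab, nac, nax, nay]),
      Finset.sum_insert (by simp [nbc, nbx, nby]), Finset.sum_insert (by simp [ncx, ncy]),
      Finset.sum_pair nxy]
  have c0 : M.IsCircuit {a, b, c} := circ3 ha hb hc h.abc (not_P12 h.abx) (not_P12 h.acx)
    (not_P12 h.bcx)
  have cc : M.IsCircuit {a, b, x, y} := circ4 hr ha hb hx hy h.abx h.aby h.axy h.bxy
  have cb : M.IsCircuit {a, c, x, y} := circ4 hr ha hc hx hy h.acx h.acy h.axy h.cxy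
  have ca : M.IsCircuit {b, c, x, y} := circ4 hr hb hc hx hy h.bcx h.bcy h.bxy h.cxy
  set ω : α → ZMod 3 := fun e => if e = y then 0 else 1 with hω
  have ωy : ω y = 0 := by simp [hω]
  have ωa : ω a = 1 := by simp [hω, nay]
  have ωb : ω b = 1 := by simp [hω, nby]
  have ωc : ω c = 1 := by simp [hω, ncy]
  have ωx : ω x = 1 := by simp [hω, nxy]
  have h3 : (1 : ZMod 3) + (1 + 1) = 0 := by decide
  have h3' : (1 : ZMod 3) + 1 + 1 = 0 := by decide
  have key' := key hM S (k := 3) ω (fun C hC hCS => by
    rw [hsum, ωa, ωb, ωc, ωx, ωy]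
    rw [hSs] at hCS
    by_cases haC : a ∈ C
    · by_cases hbC : b ∈ C
      · by_cases hcC : c ∈ C
        · -- the triple
          have h1 : ({a, b, c} : Set α) = C := hC.eq_of_not_indep_subset c0.not_indep
            (by rintro e (rfl | rfl | rfl) <;> assumption)
          rw [← h1]
          simp [chi_apply, nax.symm, nbx.symm, ncx.symm, h3]
        · -- C ⊆ {a, b, x, y}
          have hsub : C ⊆ {a, b, x, y} := fun e he => by
            rcases hCS he with rfl | rfl | rfl | rfl | rfl
            · simp
            · simp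
            · exact absurd he hcC
            · simp
            · simp
          have h1 : C = {a, b, x, y} := cc.eq_of_not_indep_subset hC.not_indep hsub
          rw [h1]
          simp [chi_apply, nac.symm, nbc.symm, ncx, ncy, h3]
      · -- C ⊆ {a, c, x, y}
        have hsub : C ⊆ {a, c, x, y} := fun e he => by
          rcases hCS he with rfl | rfl | rfl | rfl | rfl
          · simp
          · exact absurd he hbC
          · simp
          · simp
          · simp
        have h1 : C = {a, c, x, y} := cb.eq_of_not_indep_subset hC.not_indep hsub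
        rw [h1]
        simp [chi_apply, nab.symm, nbc, nbx, nby, h3]
    · -- C ⊆ {b, c, x, y}
      have hsub : C ⊆ {b, c, x, y} := fun e he => by
        rcases hCS he with rfl | rfl | rfl | rfl | rfl
        · exact absurd he haC
        · simp
        · simp
        · simp
        · simp
      have h1 : C = {b, c, x, y} := ca.eq_of_not_indep_subset hC.not_indep hsub
      rw [h1]
      simp [chi_apply, nab, nac, nax, nay, h3]) hz (by
    have hzz : (fun e => (z e : ℚ)) =
        (((z a : ℚ) + z b + z c - 2 * z x) / 3) • chi ℚ {a, b, c} +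
        ((((z a : ℚ) + z b + z c - 2 * z x) / 3) + z x - z c) • chi ℚ {a, b, x, y} +
        ((((z a : ℚ) + z b + z c - 2 * z x) / 3) + z x - z b) • chi ℚ {a, c, x, y} +
        ((((z a : ℚ) + z b + z c - 2 * z x) / 3) + z x - z a) • chi ℚ {b, c, x, y} := by
      rw [chi4 nab nax nay nbx nby nxy, chi4 nac nax nay ncx ncy nxy, chi4 nbc nbx nby ncx ncy nxy,
        chi3 nab nac nbc]
      funext e
      simp only [Pi.add_apply, Pi.smul_apply, chi_apply, mem_singleton_iff, smul_eq_mul]
      by_cases h1 : e = a
      · subst h1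
        simp only [nab, nac, nax, nay, if_true, if_false]
        ring
      by_cases h2 : e = b
      · subst h2
        simp only [nab.symm, nbc, nbx, nby, if_true, if_false]
        ring
      by_cases h3 : e = c
      · subst h3
        simp only [nac.symm, nbc.symm, ncx, ncy, if_true, if_false]
        ring
      by_cases h4 : e = x
      · subst h4
        simp only [nax.symm, nbx.symm, ncx.symm, nxy, if_true, if_false]
        ring
      by_cases h5 : e = y
      · subst h5
        simp only [nay.symm, nby.symm, ncy.symm, nxy.symm, if_true, if_false, ← hxy]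
        ring
      · rw [hs e h1 h2 h3 h4 h5]
        simp only [h1, h2, h3, h4, h5, if_false]
        simp
    rw [hzz]
    refine add_mem (add_mem (add_mem ?_ ?_) ?_) ?_
    · exact Submodule.smul_mem _ _ (Submodule.subset_span ⟨_, c0, by
        rw [hSs]; rintro e (rfl | rfl | rfl) <;> simp, rfl⟩)
    · exact Submodule.smul_mem _ _ (Submodule.subset_span ⟨_, cc, by
        rw [hSs]; rintro e (rfl | rfl | rfl | rfl) <;> simp, rfl⟩)
    · exact Submodule.smul_mem _ _ (Submodule.subset_span ⟨_, cb, by
        rw [hSs]; rintro e (rfl | rfl | rfl | rfl) <;> simp, rfl⟩)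
    · exact Submodule.smul_mem _ _ (Submodule.subset_span ⟨_, ca, by
        rw [hSs]; rintro e (rfl | rfl | rfl | rfl) <;> simp, rfl⟩))
  rw [hsum, ωa, ωb, ωc, ωx, ωy] at key'
  have h4 : ((z a + z b + z c + z x : ℤ) : ZMod 3) = 0 := by
    rw [← key']
    push_cast
    ring
  exact (ZMod.intCast_zmod_eq_zero_iff_dvd _ 3).1 h4

end Pool.Agent.helper9.HB49
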