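import Pool.Agent.helper9.HB49.Keys

set_option autoImplicit false

/-! # Consequences of the two congruences -/

open Set

namespace Pool.Agent.helper9.HB49

variable {α : Type*} {M : Matroid α}

/-- four points on a line -/
structure Alpha (M : Matroid α) (a b c d : α) : Prop where
  ab : ¬ P M a b
  ac : ¬ P M a c
  ad : ¬ P M a d
  bc : ¬ P M b c
  bd : ¬ P M b d
  cd : ¬ P M c d
  abc : D M a b c
  abd : D M a b d
  acd : D M a c d
  bcd : D M b c d

/-- swap the first two -/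
theorem Alpha.s12 {a b c d : α} (h : Alpha M a b c d) : Alpha M b a c d :=
  ⟨fun h' => h.ab (P_comm.1 h'), h.bc, h.bd, h.ac, h.ad, h.cd, D12.1 h.abc, D12.1 h.abd, h.bcd,
    h.acd⟩

theorem Alpha.s23 {a b c d : α} (h : Alpha M a b c d) : Alpha M a c b d :=
  ⟨h.ac, h.ab, h.ad, fun h' => h.bc (P_comm.1 h'), h.cd, h.bd, D23.1 h.abc, h.acd, h.abd,
    D12.1 h.bcd⟩

theorem Alpha.s34 {a b c d : α} (h : Alpha M a b c d) : Alpha M a b d c :=
  ⟨h.ab, h.ad, h.ac, h.bd, h.bc, fun h' => h.cd (P_comm.1 h'), h.abd, h.abc, D23.1 h.acd,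
    D23.1 h.bcd⟩

theorem Beta.s12 {a b c x y : α} (h : Beta M a b c x y) : Beta M b a c x y :=
  ⟨D12.1 h.abc, fun h' => h.abx (D12.1 h'), fun h' => h.aby (D12.1 h'), h.bcx, h.bcy, h.acx,
    h.acy, h.bxy, h.axy, h.cxy⟩

theorem Beta.s23 {a b c x y : α} (h : Beta M a b c x y) : Beta M a c b x y :=
  ⟨D23.1 h.abc, h.acx, h.acy, h.abx, h.aby, fun h' => h.bcx (D12.1 h'),
    fun h' => h.bcy (D12.1 h'), h.axy, h.cxy, h.bxy⟩

theorem Beta.sxy {a b c x y : α} (h : Beta M a b c x y) : Beta M a b c y x :=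
  ⟨h.abc, h.aby, h.abx, h.acy, h.acx, h.bcy, h.bcx, fun h' => h.axy (D23.1 h'),
    fun h' => h.bxy (D23.1 h'), fun h' => h.cxy (D23.1 h')⟩

variable [M.RankFinite]

theorem Alpha.mk' {a b c d : α} (ab : ¬ P M a b) (ac : ¬ P M a c) (ad : ¬ P M a d)
    (bc : ¬ P M b c) (bd : ¬ P M b d) (cd : ¬ P M c d) (abc : D M a b c) (abd : D M a b d) :
    Alpha M a b c d :=
  ⟨ab, ac, ad, bc, bd, cd, abc, abd, exch ab abc abd,
    exch (fun h => ab (P_comm.1 h)) (D12.1 abc) (D12.1 abd)⟩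

/-- `x` is off the line `a b`, `c` is on it -/
theorem off {a b c x : α} (hac : ¬ P M a c) (h : D M a b c) (hx : ¬ D M a b x) : ¬ D M a c x :=
  fun h' => hx (exch hac (D23.1 h) h')

theorem alpha_key (hM : CircuitsHilbert M) {a b c d : α} (h : Alpha M a b c d) (ha : a ∈ M.E)
    (hb : b ∈ M.E) (hc : c ∈ M.E) (hd : d ∈ M.E) (hl : ∀ e ∈ M.E, rk M {e} = 1) {z : α → ℤ}
    (hz : z ∈ Lat M) (hs : ∀ e, e ≠ a → e ≠ b → e ≠ c → e ≠ d → z e = 0) :
    (3 : ℤ) ∣ z a + z b + z c + z d := by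
  classical
  have nab := ne_of_not_P h.ab
  have nac := ne_of_not_P h.ac
  have nad := ne_of_not_P h.ad
  have nbc := ne_of_not_P h.bc
  have nbd := ne_of_not_P h.bd
  have ncd := ne_of_not_P h.cd
  set S : Finset α := {a, b, c, d} with hS
  have hSs : ((S : Finset α) : Set α) = {a, b, c, d} := by simp [hS]
  have hSE : (S : Set α) ⊆ M.E := by
    rw [hSs]
    rintro e (rfl | rfl | rfl | rfl) <;> assumption
  have hpair : ∀ x ∈ S, ∀ y ∈ S, x ≠ y → ¬ P M x y := by
    intro x hx y hy hxy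
    rw [hS] at hx hy
    simp only [Finset.mem_insert, Finset.mem_singleton] at hx hy
    rcases hx with rfl | rfl | rfl | rfl <;> rcases hy with rfl | rfl | rfl | rfl <;>
      first
      | exact absurd rfl hxy
      | exact h.ab
      | exact h.ac
      | exact h.ad
      | exact h.bc
      | exact h.bd
      | exact h.cd
      | exact fun h' => h.ab (P_comm.1 h')
      | exact fun h' => h.ac (P_comm.1 h')
      | exact fun h' => h.ad (P_comm.1 h')
      | exact fun h' => h.bc (P_comm.1 h')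
      | exact fun h' => h.bd (P_comm.1 h')
      | exact fun h' => h.cd (P_comm.1 h')
  have hcard : S.card = 3 + 1 := by
    rw [← Set.ncard_coe_finset, hSs, ncard4 nab nac nad nbc nbd ncd]
  have h1 := unif_key hM S 3 hcard hSE (by
    intro X hX hXn
    have hXf : X.Finite := S.finite_toSet.subset hX
    have : X.ncard = 0 ∨ X.ncard = 1 ∨ X.ncard = 2 := by omega
    rcases this with h0 | h0 | h0
    · rw [Set.ncard_eq_zero hXf] at h0
      rw [h0]
      exact M.empty_indep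
    · obtain ⟨x, rfl⟩ := Set.ncard_eq_one.1 h0
      rw [indep_iff_rk (by simp), ncard_singleton]
      exact hl x (hSE (hX rfl))
    · obtain ⟨x, y, hxy, rfl⟩ := Set.ncard_eq_two.1 h0
      exact indep_pair (hpair x (Finset.mem_coe.1 (hX (by simp))) y
        (Finset.mem_coe.1 (hX (by simp))) hxy))
    (by
      have h2 := rk_submod (M := M) {a, b, c} {a, b, d} {a, b} {a, b, c, d}
        (subset_inter (by rintro e (rfl | rfl) <;> simp) (by rintro e (rfl | rfl) <;> simp))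
        (by rintro e (rfl | rfl | rfl | rfl) <;> simp)
      have h3 := h.abc
      have h4 := h.abd
      have h5 := h.ab
      rw [P] at h5
      rw [D] at h3 h4
      rw [hSs]
      omega) hz (by
      intro e he
      rw [hS] at he
      simp only [Finset.mem_insert, Finset.mem_singleton, not_or] at he
      exact hs e he.1 he.2.1 he.2.2.1 he.2.2.2)
  rw [hS, Finset.sum_insert (by simp [nab, nac, nad]), Finset.sum_insert (by simp [nbc, nbd]),
    Finset.sum_pair ncd] at h1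
  have e1 : z a + z b + z c + z d = z a + (z b + (z c + z d)) := by ring
  rw [e1]
  exact h1

/-- parallel elements on a line: `2 e_a` is in the lattice -/
theorem two_mem_lat (hl : ∀ e ∈ M.E, rk M {e} = 1) {a a' b c : α} (ha : a ∈ M.E) (ha' : a' ∈ M.E)
    (hb : b ∈ M.E) (hc : c ∈ M.E) (hne : a ≠ a') (hp : P M a a') (h : D M a b c)
    (ab : ¬ P M a b) (ac : ¬ P M a c) (bc : ¬ P M b c) :
    (2 : ℤ) • chi ℤ ({a} : Set α) ∈ Lat M := by
  have a'b : ¬ P M a' b := fun h' => ab (P_trans (hl a' ha') hp h')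
  have a'c : ¬ P M a' c := fun h' => ac (P_trans (hl a' ha') hp h')
  have c1 := circ2 ha ha' (hl a ha) (hl a' ha') hne hp
  have c2 := circ3 ha hb hc h ab ac bc
  have c3 := circ3 ha' hb hc (D_replace (hl a ha) hp h) a'b a'c bc
  have e1 : (2 : ℤ) • chi ℤ ({a} : Set α) = chi ℤ ({a, a'} : Set α) + chi ℤ ({a, b, c} : Set α) -
      chi ℤ ({a', b, c} : Set α) := by
    rw [chi2 hne, chi3 (ne_of_not_P ab) (ne_of_not_P ac) (ne_of_not_P bc),
      chi3 (ne_of_not_P a'b) (ne_of_not_P a'c) (ne_of_not_P bc)]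
    abel
  rw [e1]
  exact sub_mem (add_mem (chi_mem_lat c1) (chi_mem_lat c2)) (chi_mem_lat c3)

theorem chi1 {a e : α} (h : e ≠ a) : chi ℤ ({a} : Set α) e = 0 :=
  chi_apply_notMem (by simpa using h)

theorem chi1' {a : α} : chi ℤ ({a} : Set α) a = 1 := chi_apply_mem (mem_singleton a)

theorem alpha_par (hM : CircuitsHilbert M) (hl : ∀ e ∈ M.E, rk M {e} = 1) {a b c d : α}
    (h : Alpha M a b c d) (ha : a ∈ M.E) (hb : b ∈ M.E) (hc : c ∈ M.E) (hd : d ∈ M.E) {a' : α}
    (ha' : a' ∈ M.E) (hne : a ≠ a') : ¬ P M a a' := by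
  intro hp
  have h1 := alpha_key hM h ha hb hc hd hl (two_mem_lat hl ha ha' hb hc hne hp h.abc h.ab h.ac h.bc)
    (fun e h1 _ _ _ => by
      rw [Pi.smul_apply, chi1 h1]
      simp)
  simp only [Pi.smul_apply, chi1', chi1 (ne_of_not_P h.ab).symm, chi1 (ne_of_not_P h.ac).symm,
    chi1 (ne_of_not_P h.ad).symm] at h1
  norm_num at h1

theorem alpha_meet (hM : CircuitsHilbert M) (hr : ∀ X, rk M X ≤ 3)
    (hl : ∀ e ∈ M.E, rk M {e} = 1) {a b c d : α}
    (h : Alpha M a b c d) (ha : a ∈ M.E) (hb : b ∈ M.E) (hc : c ∈ M.E) (hd : d ∈ M.E) {x y : α}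
    (hx : x ∈ M.E) (hy : y ∈ M.E) (abx : ¬ D M a b x) (aby : ¬ D M a b y) (xy : ¬ P M x y) :
    ¬ D M c x y := by
  intro cxy
  have axy : ¬ D M a x y := by
    intro h1
    have h2 : D M x a c := exch xy (Drot.1 h1) (Drot.1 cxy)
    have h3 : D M a x b := D23.1 (exch h.ac (D23.1 h.abc) (Drot.1 h2))
    exact abx (D23.1 h3)
  have bxy : ¬ D M b x y := by
    intro h1
    have h2 : D M x b c := exch xy (Drot.1 h1) (Drot.1 cxy)
    have h3 : D M b x a := D23.1 (exch h.bc (Drot.1 h.abc) (Drot.1 h2))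
    exact abx (D12.1 (D23.1 h3))
  have acx : ¬ D M a c x := off h.ac h.abc abx
  have acy : ¬ D M a c y := off h.ac h.abc aby
  have c1 := circ4 hr ha hb hx hy abx aby axy bxy
  have c2 := circ3 hc hx hy cxy (not_P23 acx) (not_P23 acy) xy
  have nab := ne_of_not_P h.ab
  have nac := ne_of_not_P h.ac
  have nad := ne_of_not_P h.ad
  have nbc := ne_of_not_P h.bc
  have nbd := ne_of_not_P h.bd
  have ncd := ne_of_not_P h.cd
  have nax := ne13 abx
  have nay := ne13 aby
  have nbx := ne23 abx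
  have nby := ne23 aby
  have ncx := ne23 acx
  have ncy := ne23 acy
  have nxy := ne_of_not_P xy
  have hz : chi ℤ ({a} : Set α) + chi ℤ ({b} : Set α) - chi ℤ ({c} : Set α) ∈ Lat M := by
    have e1 : chi ℤ ({a} : Set α) + chi ℤ ({b} : Set α) - chi ℤ ({c} : Set α) =
        chi ℤ ({a, b, x, y} : Set α) - chi ℤ ({c, x, y} : Set α) := by
      rw [chi4 nab nax nay nbx nby nxy, chi3 ncx ncy nxy]
      abel
    rw [e1]
    exact sub_mem (chi_mem_lat c1) (chi_mem_lat c2)
  have h1 := alpha_key hM h ha hb hc hd hl hz (fun e h1 h2 h3 _ => by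
      simp only [Pi.add_apply, Pi.sub_apply, chi1 h1, chi1 h2, chi1 h3]
      norm_num)
  simp only [Pi.add_apply, Pi.sub_apply, chi1', chi1 nab, chi1 nab.symm, chi1 nac, chi1 nac.symm,
    chi1 nbc, chi1 nbc.symm, chi1 nad.symm, chi1 nbd.symm, chi1 ncd.symm] at h1
  norm_num at h1

/-! ### `Beta` -/

theorem beta_par (hM : CircuitsHilbert M) (hr : ∀ X, rk M X ≤ 3)
    (hl : ∀ e ∈ M.E, rk M {e} = 1) {a b c x y : α}
    (h : Beta M a b c x y) (ha : a ∈ M.E) (hb : b ∈ M.E) (hc : c ∈ M.E) (hx : x ∈ M.E)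
    (hy : y ∈ M.E) {a' : α} (ha' : a' ∈ M.E) (hne : a ≠ a') : ¬ P M a a' := by
  intro hp
  have nab := ne12 h.abx
  have nac := ne12 h.acx
  have nax := ne13 h.abx
  have nay := ne13 h.aby
  have h1 := beta_key hM hr h ha hb hc hx hy (two_mem_lat hl ha ha' hb hc hne hp h.abc
    (not_P12 h.abx) (not_P12 h.acx) (not_P12 h.bcx))
    (fun e h1 _ _ _ _ => by
      rw [Pi.smul_apply, chi1 h1]
      simp) (by
      rw [Pi.smul_apply, Pi.smul_apply, chi1 nax.symm, chi1 nay.symm])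
  simp only [Pi.smul_apply, chi1', chi1 nab.symm, chi1 nac.symm, chi1 nax.symm] at h1
  norm_num at h1

theorem beta_meet_a (hM : CircuitsHilbert M) (hr : ∀ X, rk M X ≤ 3)
    {a b c x y : α}
    (h : Beta M a b c x y) (ha : a ∈ M.E) (hb : b ∈ M.E) (hc : c ∈ M.E) (hx : x ∈ M.E)
    (hy : y ∈ M.E) {u v : α} (hu : u ∈ M.E) (hv : v ∈ M.E) (abu : ¬ D M a b u)
    (abv : ¬ D M a b v) (uv : ¬ P M u v) : ¬ D M a u v := by
  intro auv
  have pac := not_P12 h.acx
  have pbc := not_P12 h.bcx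
  have acu : ¬ D M a c u := off pac h.abc abu
  have acv : ¬ D M a c v := off pac h.abc abv
  have bcu : ¬ D M b c u := off pbc (D12.1 h.abc) (fun h' => abu (D12.1 h'))
  have bcv : ¬ D M b c v := off pbc (D12.1 h.abc) (fun h' => abv (D12.1 h'))
  have buv : ¬ D M b u v := fun h1 => abu (Drot.1 (exch uv (Drot.1 auv) (Drot.1 h1)))
  have cuv : ¬ D M c u v := fun h1 => acu (Drot.1 (exch uv (Drot.1 auv) (Drot.1 h1)))
  have c1 := circ4 hr hb hc hu hv bcu bcv buv cuv
  have c2 := circ3 ha hu hv auv (not_P13 abu) (not_P13 abv) uv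
  have nab := ne12 h.abx
  have nac := ne12 h.acx
  have nbc := ne12 h.bcx
  have nax := ne13 h.abx
  have nay := ne13 h.aby
  have nbx := ne23 h.abx
  have nby := ne23 h.aby
  have ncx := ne23 h.acx
  have ncy := ne23 h.acy
  have hz : chi ℤ ({b} : Set α) + chi ℤ ({c} : Set α) - chi ℤ ({a} : Set α) ∈ Lat M := by
    have e1 : chi ℤ ({b} : Set α) + chi ℤ ({c} : Set α) - chi ℤ ({a} : Set α) =
        chi ℤ ({b, c, u, v} : Set α) - chi ℤ ({a, u, v} : Set α) := by
      rw [chi4 nbc (ne23 abu) (ne23 abv) (ne23 acu) (ne23 acv) (ne_of_not_P uv),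
        chi3 (ne13 abu) (ne13 abv) (ne_of_not_P uv)]
      abel
    rw [e1]
    exact sub_mem (chi_mem_lat c1) (chi_mem_lat c2)
  have h1 := beta_key hM hr h ha hb hc hx hy hz (fun e h1 h2 h3 _ _ => by
      simp only [Pi.add_apply, Pi.sub_apply, chi1 h1, chi1 h2, chi1 h3]
      norm_num) (by
      simp only [Pi.add_apply, Pi.sub_apply, chi1 nax.symm, chi1 nay.symm, chi1 nbx.symm,
        chi1 nby.symm, chi1 ncx.symm, chi1 ncy.symm])
  simp only [Pi.add_apply, Pi.sub_apply, chi1', chi1 nab, chi1 nab.symm, chi1 nac, chi1 nac.symm,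
    chi1 nbc, chi1 nbc.symm, chi1 nax.symm, chi1 nbx.symm, chi1 ncx.symm] at h1
  norm_num at h1

theorem beta_meet (hM : CircuitsHilbert M) (hr : ∀ X, rk M X ≤ 3)
    (hl : ∀ e ∈ M.E, rk M {e} = 1) {a b c x y : α}
    (h : Beta M a b c x y) (ha : a ∈ M.E) (hb : b ∈ M.E) (hc : c ∈ M.E) (hx : x ∈ M.E)
    (hy : y ∈ M.E) {u v : α} (hu : u ∈ M.E) (hv : v ∈ M.E) (abu : ¬ D M a b u)
    (abv : ¬ D M a b v) (uv : ¬ P M u v) {e : α} (he : e ∈ M.E) (abe : D M a b e) :
    ¬ D M e u v := by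
  have pab := not_P12 h.abx
  have pac := not_P12 h.acx
  have pbc := not_P12 h.bcx
  by_cases hea : e = a
  · subst hea
    exact beta_meet_a hM hr h ha hb hc hx hy hu hv abu abv uv
  by_cases heb : e = b
  · subst heb
    exact beta_meet_a hM hr h.s12 hb ha hc hx hy hu hv (fun h' => abu (D12.1 h'))
      (fun h' => abv (D12.1 h')) uv
  by_cases hec : e = c
  · subst hec
    have h1 : Beta M e a b x y := h.s23.s12
    refine beta_meet_a hM hr h1 hc ha hb hx hy hu hv ?_ ?_ uv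
    · exact fun h' => off pac h.abc abu (D12.1 h')
    · exact fun h' => off pac h.abc abv (D12.1 h')
  have pae := beta_par hM hr hl h ha hb hc hx hy he (Ne.symm hea)
  have pbe := beta_par hM hr hl h.s12 hb ha hc hx hy he (Ne.symm heb)
  have pce := beta_par hM hr hl h.s23.s12 hc ha hb hx hy he (Ne.symm hec)
  have hA : Alpha M a b e c := (Alpha.mk' pab pac pae pbc pbe pce h.abc abe).s34
  exact alpha_meet hM hr hl hA ha hb he hc hu hv abu abv uv

theorem beta_third (hM : CircuitsHilbert M) (hr : ∀ X, rk M X ≤ 3)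
    (hl : ∀ e ∈ M.E, rk M {e} = 1) {a b c x y : α}
    (h : Beta M a b c x y) (ha : a ∈ M.E) (hb : b ∈ M.E) (hc : c ∈ M.E) (hx : x ∈ M.E)
    (hy : y ∈ M.E) {d : α} (hd : d ∈ M.E) (hda : a ≠ d) (hdb : b ≠ d) (abd : D M a b d) :
    Beta M a b d x y := by
  have pad := beta_par hM hr hl h ha hb hc hx hy hd hda
  have pbd := beta_par hM hr hl h.s12 hb ha hc hx hy hd hdb
  refine ⟨abd, h.abx, h.aby, off pad abd h.abx, off pad abd h.aby,
    off pbd (D12.1 abd) (fun h' => h.abx (D12.1 h')),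
    off pbd (D12.1 abd) (fun h' => h.aby (D12.1 h')), h.axy, h.bxy, ?_⟩
  exact beta_meet hM hr hl h ha hb hc hx hy hx hy h.abx h.aby (not_P23 h.axy) hd abd

/-- no point of the line has a parallel -/
theorem beta_par' (hM : CircuitsHilbert M) (hr : ∀ X, rk M X ≤ 3)
    (hl : ∀ e ∈ M.E, rk M {e} = 1) {a b c x y : α}
    (h : Beta M a b c x y) (ha : a ∈ M.E) (hb : b ∈ M.E) (hc : c ∈ M.E) (hx : x ∈ M.E)
    (hy : y ∈ M.E) {d : α} (hd : d ∈ M.E) (abd : D M a b d) {d' : α} (hd' : d' ∈ M.E)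
    (hne : d ≠ d') : ¬ P M d d' := by
  by_cases hda : a = d
  · subst hda
    exact beta_par hM hr hl h ha hb hc hx hy hd' hne
  by_cases hdb : b = d
  · subst hdb
    exact beta_par hM hr hl h.s12 hb ha hc hx hy hd' hne
  exact beta_par hM hr hl (beta_third hM hr hl h ha hb hc hx hy hd hda hdb abd).s23.s12
    hd ha hb hx hy hd' hne

theorem beta_off (hM : CircuitsHilbert M) (hr : ∀ X, rk M X ≤ 3)
    (hl : ∀ e ∈ M.E, rk M {e} = 1) {a b c x y : α}
    (h : Beta M a b c x y) (ha : a ∈ M.E) (hb : b ∈ M.E) (hc : c ∈ M.E) (hx : x ∈ M.E)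
    (hy : y ∈ M.E) {u v w : α} (hu : u ∈ M.E) (hv : v ∈ M.E) (hw : w ∈ M.E)
    (abu : ¬ D M a b u) (abv : ¬ D M a b v) (abw : ¬ D M a b w) : D M u v w := by
  by_contra huvw
  have abb : D M a b b := Drot.1 (Drot.1 (D_of_P (P_self b)))
  have aba : D M a b a := D23.1 (D_of_P (P_self a))
  have auv := beta_meet hM hr hl h ha hb hc hx hy hu hv abu abv (not_P12 huvw) ha aba
  have auw := beta_meet hM hr hl h ha hb hc hx hy hu hw abu abw (not_P13 huvw) ha aba
  have avw := beta_meet hM hr hl h ha hb hc hx hy hv hw abv abw (not_P23 huvw) ha aba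
  have buv := beta_meet hM hr hl h ha hb hc hx hy hu hv abu abv (not_P12 huvw) hb abb
  have buw := beta_meet hM hr hl h ha hb hc hx hy hu hw abu abw (not_P13 huvw) hb abb
  have bvw := beta_meet hM hr hl h ha hb hc hx hy hv hw abv abw (not_P23 huvw) hb abb
  have c0 := circ4 hr ha hu hv hw auv auw avw huvw
  have c1 := circ4 hr ha hb hu hv abu abv auv buv
  have c2 := circ4 hr ha hb hu hw abu abw auw buw
  have c3 := circ4 hr ha hb hv hw abv abw avw bvw
  have nab := ne12 h.abx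
  have nac := ne12 h.acx
  have nbc := ne12 h.bcx
  have nax := ne13 h.abx
  have nay := ne13 h.aby
  have nbx := ne23 h.abx
  have nby := ne23 h.aby
  have nau := ne13 abu
  have nav := ne13 abv
  have naw := ne13 abw
  have nbu := ne23 abu
  have nbv := ne23 abv
  have nbw := ne23 abw
  have nuv := ne12 huvw
  have nuw := ne13 huvw
  have nvw := ne23 huvw
  have hz : - chi ℤ ({a} : Set α) - (3 : ℤ) • chi ℤ ({b} : Set α) ∈ Lat M := by
    have e1 : - chi ℤ ({a} : Set α) - (3 : ℤ) • chi ℤ ({b} : Set α) =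
        chi ℤ ({a, u, v, w} : Set α) + chi ℤ ({a, u, v, w} : Set α) -
        chi ℤ ({a, b, u, v} : Set α) - chi ℤ ({a, b, u, w} : Set α) -
        chi ℤ ({a, b, v, w} : Set α) := by
      rw [chi4 nau nav naw nuv nuw nvw, chi4 nab nau nav nbu nbv nuv, chi4 nab nau naw nbu nbw nuw,
        chi4 nab nav naw nbv nbw nvw]
      abel
    rw [e1]
    exact sub_mem (sub_mem (sub_mem (add_mem (chi_mem_lat c0) (chi_mem_lat c0)) (chi_mem_lat c1))
      (chi_mem_lat c2)) (chi_mem_lat c3)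
  have h1 := beta_key hM hr h ha hb hc hx hy hz (fun e h1 h2 _ _ _ => by
      simp only [Pi.smul_apply, Pi.sub_apply, Pi.neg_apply, chi1 h1, chi1 h2]
      norm_num) (by
      simp only [Pi.smul_apply, Pi.sub_apply, Pi.neg_apply, chi1 nax.symm, chi1 nay.symm,
        chi1 nbx.symm, chi1 nby.symm])
  simp only [Pi.smul_apply, Pi.sub_apply, Pi.neg_apply, chi1', chi1 nab, chi1 nab.symm,
    chi1 nac.symm, chi1 nbc.symm, chi1 nax.symm, chi1 nbx.symm] at h1
  norm_num at h1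

end Pool.Agent.helper9.HB49
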