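import Pool.Agent.helper9.HB49.Suff

set_option autoImplicit false

/-! # Sufficiency: a line, a point and a parallel class -/

open Set

namespace Pool.Agent.helper9.HB49

variable {α : Type*}

theorem linesp_hilbert {M : Matroid α} [M.Finite] {L X : Set α} {y : α} (hd : Disjoint L X)
    (hyL : y ∉ L) (hyX : y ∉ X) (hE : insert y (L ∪ X) = M.E)
    (hC : ∀ C, M.IsCircuit C ↔ C ⊆ M.E ∧ ((C ⊆ L ∧ C.ncard = 3) ∨ (C ⊆ X ∧ C.ncard = 2) ∨
      (y ∈ C ∧ (C ∩ L).ncard = 2 ∧ (C ∩ X).ncard = 1))) : CircuitsHilbert M := by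
  classical
  rw [hilbert_iff]
  intro p hp hc
  have hEf : M.E.Finite := M.ground_finite
  have hLf : L.Finite := hEf.subset (hE ▸ subset_union_left.trans (subset_insert _ _))
  have hQf : X.Finite := hEf.subset (hE ▸ subset_union_right.trans (subset_insert _ _))
  obtain ⟨FL, rfl⟩ : ∃ F : Finset α, L = F := ⟨hLf.toFinset, by simp⟩
  obtain ⟨FX, rfl⟩ : ∃ F : Finset α, X = F := ⟨hQf.toFinset, by simp⟩
  have h0 : ∀ e, 0 ≤ p e := fun e => by
    have := cone_nonneg hc e
    exact_mod_cast this
  -- intersections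
  have hint : ∀ C, M.IsCircuit C →
      ((C ∩ FL).ncard = 3 ∧ (C ∩ FX).ncard = 0 ∧ y ∉ C ∧ ∀ e ∈ FX, e ∉ C) ∨
      ((C ∩ FL).ncard = 0 ∧ (C ∩ FX).ncard = 2 ∧ y ∉ C ∧ ∀ e ∈ FL, e ∉ C) ∨
      ((C ∩ FL).ncard = 2 ∧ (C ∩ FX).ncard = 1 ∧ y ∈ C) := by
    intro C h
    rcases ((hC C).1 h).2 with ⟨h1, h2⟩ | ⟨h1, h2⟩ | h1
    · left
      have h3 : C ∩ FX = ∅ := (hd.mono_left h1).inter_eq
      refine ⟨by rw [inter_eq_left.2 h1, h2], by rw [h3, ncard_empty], fun h => hyL (h1 h),
        fun e he heC => ?_⟩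
      have : e ∈ C ∩ (FX : Set α) := ⟨heC, he⟩
      rw [h3] at this
      exact this
    · right
      left
      have h3 : C ∩ FL = ∅ := (hd.symm.mono_left h1).inter_eq
      refine ⟨by rw [h3, ncard_empty], by rw [inter_eq_left.2 h1, h2], fun h => hyX (h1 h),
        fun e he heC => ?_⟩
      have : e ∈ C ∩ (FL : Set α) := ⟨heC, he⟩
      rw [h3] at this
      exact this
    · exact Or.inr (Or.inr ⟨h1.2.1, h1.2.2, h1.1⟩)
  have h1 : ∀ v ∈ Cone M, ∃ A B : ℚ, 0 ≤ A ∧ 0 ≤ B ∧ 0 ≤ v y ∧ ∑ f ∈ FL, v f = 3 * A + 2 * v y ∧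
      ∑ f ∈ FX, v f = 2 * B + v y ∧ (∀ e ∈ FL, v e ≤ A + v y) ∧ (∀ e ∈ FX, v e ≤ B + v y) := by
    intro v hv
    induction hv using Submodule.span_induction with
    | mem v hv =>
      obtain ⟨C, h, rfl⟩ := hv
      rw [sum_chi, sum_chi]
      rcases hint C h with ⟨h1, h2, h4, h3⟩ | ⟨h1, h2, h4, h3⟩ | ⟨h1, h2, h4⟩
      · rw [chi_apply_notMem h4]
        refine ⟨1, 0, by norm_num, le_rfl, le_rfl, by rw [h1]; norm_num, by rw [h2]; norm_num,
          fun e _ => ?_, fun e he => ?_⟩
        · simpa using chi_le_one C e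
        · rw [chi_apply_notMem (h3 e he)]
          norm_num
      · rw [chi_apply_notMem h4]
        refine ⟨0, 1, le_rfl, by norm_num, le_rfl, by rw [h1]; norm_num, by rw [h2]; norm_num,
          fun e he => ?_, fun e _ => ?_⟩
        · rw [chi_apply_notMem (h3 e he)]
          norm_num
        · simpa using chi_le_one C e
      · rw [chi_apply_mem h4]
        refine ⟨0, 0, le_rfl, le_rfl, by norm_num, by rw [h1]; norm_num, by rw [h2]; norm_num,
          fun e _ => ?_, fun e _ => ?_⟩
        · simpa using chi_le_one C e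
        · simpa using chi_le_one C e
    | zero => exact ⟨0, 0, le_rfl, le_rfl, by simp, by simp, by simp, by simp, by simp⟩
    | add v w _ _ h1 h2 =>
      obtain ⟨A, B, a1, a2, a3, a4, a5, a6, a7⟩ := h1
      obtain ⟨A', B', b1, b2, b3, b4, b5, b6, b7⟩ := h2
      refine ⟨A + A', B + B', by linarith, by linarith, ?_, ?_, ?_,
        fun e he => ?_, fun e he => ?_⟩
      · simp only [Pi.add_apply]
        linarith
      · simp only [Pi.add_apply, Finset.sum_add_distrib, a4, b4]
        ring
      · simp only [Pi.add_apply, Finset.sum_add_distrib, a5, b5]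
        ring
      · have := a6 e he
        have := b6 e he
        simp only [Pi.add_apply]
        linarith
      · have := a7 e he
        have := b7 e he
        simp only [Pi.add_apply]
        linarith
    | smul q v _ h1 =>
      obtain ⟨A, B, a1, a2, a3, a4, a5, a6, a7⟩ := h1
      have hq : (0 : ℚ) ≤ (q : ℚ) := q.2
      have hsum : ∀ F : Finset α, ∑ f ∈ F, (q • v) f = (q : ℚ) * ∑ f ∈ F, v f := by
        intro F
        rw [Finset.mul_sum]
        exact Finset.sum_congr rfl fun f _ => by simp [NNRat.smul_def]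
      have hqv : ∀ e, (q • v) e = (q : ℚ) * v e := fun e => by simp [NNRat.smul_def]
      refine ⟨q * A, q * B, by positivity, by positivity, ?_, ?_, ?_,
        fun e he => ?_, fun e he => ?_⟩
      · rw [hqv]
        positivity
      · rw [hsum, a4, hqv]
        ring
      · rw [hsum, a5, hqv]
        ring
      · rw [hqv, hqv]
        nlinarith [mul_le_mul_of_nonneg_left (a6 e he) hq]
      · rw [hqv, hqv]
        nlinarith [mul_le_mul_of_nonneg_left (a7 e he) hq]
  have h2 : ∀ z ∈ Lat M, (3 : ℤ) ∣ ∑ f ∈ FL, z f - 2 * z y ∧ (2 : ℤ) ∣ ∑ f ∈ FX, z f - z y := by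
    intro z hz
    induction hz using AddSubgroup.closure_induction with
    | mem v hv =>
      obtain ⟨C, h, rfl⟩ := hv
      rw [sum_chi, sum_chi]
      rcases hint C h with ⟨h1, h2, h4, h3⟩ | ⟨h1, h2, h4, h3⟩ | ⟨h1, h2, h4⟩
      · rw [h1, h2, chi_apply_notMem h4]
        norm_num
      · rw [h1, h2, chi_apply_notMem h4]
        norm_num
      · rw [h1, h2, chi_apply_mem h4]
        norm_num
    | zero => simp
    | add v w _ _ h1 h2 =>
      simp only [Pi.add_apply, Finset.sum_add_distrib]
      obtain ⟨⟨a, ha⟩, ⟨a', ha'⟩⟩ := h1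
      obtain ⟨⟨b, hb⟩, ⟨b', hb'⟩⟩ := h2
      exact ⟨⟨a + b, by linarith⟩, ⟨a' + b', by linarith⟩⟩
    | neg v _ h1 =>
      simp only [Pi.neg_apply, Finset.sum_neg_distrib]
      obtain ⟨⟨a, ha⟩, ⟨a', ha'⟩⟩ := h1
      exact ⟨⟨-a, by linarith⟩, ⟨-a', by linarith⟩⟩
  obtain ⟨A, B, hA, hB, hG, hsL, hsQ, hmL, hmQ⟩ := h1 _ hc
  obtain ⟨⟨a, ha⟩, ⟨b, hb⟩⟩ := h2 p hp
  obtain ⟨g, hg⟩ := Int.eq_ofNat_of_zero_le (h0 y)
  have hAa : A = a := by
    have h3 : ((∑ f ∈ FL, p f - 2 * p y : ℤ) : ℚ) = ((3 * a : ℤ) : ℚ) := by rw [ha]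
    push_cast at h3
    linarith
  have hBb : B = b := by
    have h3 : ((∑ f ∈ FX, p f - p y : ℤ) : ℚ) = ((2 * b : ℤ) : ℚ) := by rw [hb]
    push_cast at h3
    linarith
  subst hAa hBb
  have ha0 : 0 ≤ a := by exact_mod_cast hA
  have hb0 : 0 ≤ b := by exact_mod_cast hB
  obtain ⟨a, rfl⟩ := Int.eq_ofNat_of_zero_le ha0
  obtain ⟨b, rfl⟩ := Int.eq_ofNat_of_zero_le hb0
  have hmL' : ∀ e ∈ FL, p e ≤ a + g := fun e he => by
    have := hmL e he
    have h3 : p e ≤ a + p y := by exact_mod_cast this
    rwa [hg] at h3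
  have hmX' : ∀ e ∈ FX, p e ≤ b + g := fun e he => by
    have := hmQ e he
    have h3 : p e ≤ b + p y := by exact_mod_cast this
    rwa [hg] at h3
  obtain ⟨T, P, hT, hP, hz⟩ := decomp FL 2 a g (fun e => if e ∈ FL then (p e).toNat else 0)
    (fun e he => by
      by_contra h
      simp [h] at he)
    (by
      have : ((∑ e ∈ FL, (if e ∈ FL then (p e).toNat else 0) : ℕ) : ℤ)
          = (((2 + 1) * a + 2 * g : ℕ) : ℤ) := by
        rw [Finset.sum_congr rfl fun e he => if_pos he]
        push_cast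
        rw [Finset.sum_congr rfl fun e _ => Int.toNat_of_nonneg (h0 e)]
        rw [hg] at ha
        linarith
      exact_mod_cast this)
    (fun e => by
      split_ifs with h
      · have := hmL' e h
        omega
      · exact Nat.zero_le _)
  obtain ⟨T', P', hT', hP', hz'⟩ := decomp FX 1 b g (fun e => if e ∈ FX then (p e).toNat else 0)
    (fun e he => by
      by_contra h
      simp [h] at he)
    (by
      have : ((∑ e ∈ FX, (if e ∈ FX then (p e).toNat else 0) : ℕ) : ℤ)
          = (((1 + 1) * b + 1 * g : ℕ) : ℤ) := by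
        rw [Finset.sum_congr rfl fun e he => if_pos he]
        push_cast
        rw [Finset.sum_congr rfl fun e _ => Int.toNat_of_nonneg (h0 e)]
        rw [hg] at hb
        linarith
      exact_mod_cast this)
    (fun e => by
      split_ifs with h
      · have := hmX' e h
        omega
      · exact Nat.zero_le _)
  have hdis : ∀ e, e ∈ FL → e ∉ FX := fun e h1 h2 =>
    Set.disjoint_left.1 hd (Finset.mem_coe.2 h1) (Finset.mem_coe.2 h2)
  have hyL' : y ∉ FL := fun h => hyL (Finset.mem_coe.2 h)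
  have hyX' : y ∉ FX := fun h => hyX (Finset.mem_coe.2 h)
  have hpe : ∀ e, p e = ((if e ∈ FL then (p e).toNat else 0 : ℕ) : ℤ) +
      ((if e ∈ FX then (p e).toNat else 0 : ℕ) : ℤ) + (g : ℤ) * chi ℤ ({y} : Set α) e := by
    intro e
    by_cases hL : e ∈ FL
    · have hey : e ≠ y := fun h => hyL' (h ▸ hL)
      rw [if_pos hL, if_neg (hdis e hL), Int.toNat_of_nonneg (h0 e),
        chi_apply_notMem (by simpa using hey)]
      simp
    · by_cases hQ : e ∈ FX
      · have hey : e ≠ y := fun h => hyX' (h ▸ hQ)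
        rw [if_neg hL, if_pos hQ, Int.toNat_of_nonneg (h0 e),
          chi_apply_notMem (by simpa using hey)]
        simp
      · rw [if_neg hL, if_neg hQ]
        by_cases hey : e = y
        · subst hey
          rw [chi_apply_mem (mem_singleton _), hg]
          simp
        · have : e ∉ M.E := by
            rw [← hE]
            rintro (h | h | h)
            · exact hey h
            · exact hL h
            · exact hQ h
          rw [lat_support hp this, chi_apply_notMem (by simpa using hey)]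
          simp
  have hPP : ∀ i e, chi ℤ (P i : Set α) e + chi ℤ (P' i : Set α) e + chi ℤ ({y} : Set α) e
      = chi ℤ (insert y ((P i : Set α) ∪ (P' i : Set α))) e := by
    intro i e
    by_cases h1 : e ∈ P i
    · have h2 : e ∉ P' i := fun h => hdis e ((hP i).1 h1) ((hP' i).1 h)
      have hey : e ≠ y := fun h => hyL' (h ▸ (hP i).1 h1)
      rw [chi_apply_mem (Finset.mem_coe.2 h1), chi_apply_notMem (by simpa using h2),
        chi_apply_notMem (by simpa using hey),
        chi_apply_mem (S := insert y ((P i : Set α) ∪ (P' i : Set α))) (by simp [h1])]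
      simp
    · by_cases h2 : e ∈ P' i
      · have hey : e ≠ y := fun h => hyX' (h ▸ (hP' i).1 h2)
        rw [chi_apply_notMem (by simpa using h1), chi_apply_mem (Finset.mem_coe.2 h2),
          chi_apply_notMem (by simpa using hey),
          chi_apply_mem (S := insert y ((P i : Set α) ∪ (P' i : Set α))) (by simp [h2])]
        simp
      · by_cases hey : e = y
        · rw [chi_apply_notMem (by simpa using h1), chi_apply_notMem (by simpa using h2),
            chi_apply_mem (S := {y}) (by simpa using hey),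
            chi_apply_mem (S := insert y ((P i : Set α) ∪ (P' i : Set α))) (by simp [hey])]
          simp
        · rw [chi_apply_notMem (by simpa using h1), chi_apply_notMem (by simpa using h2),
            chi_apply_notMem (by simpa using hey), chi_apply_notMem (by simp [h1, h2, hey])]
          simp
  have hpeq : p = (fun e => ∑ i, chi ℤ (T i : Set α) e) + (fun e => ∑ i, chi ℤ (T' i : Set α) e) +
      (fun e => ∑ i, chi ℤ (insert y ((P i : Set α) ∪ (P' i : Set α))) e) := by
    funext e
    rw [hpe e, hz e, hz' e]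
    simp only [Pi.add_apply, ← hPP, Finset.sum_add_distrib, Finset.sum_const, Finset.card_univ,
      Fintype.card_fin, nsmul_eq_mul]
    ring
  rw [hpeq]
  refine add_mem (add_mem (intCone_of_sum _ fun i => (hC _).2 ?_)
    (intCone_of_sum _ fun i => (hC _).2 ?_)) (intCone_of_sum _ fun i => (hC _).2 ?_)
  · refine ⟨?_, Or.inl ⟨Finset.coe_subset.2 (hT i).1, ?_⟩⟩
    · rw [← hE]
      exact ((Finset.coe_subset.2 (hT i).1).trans subset_union_left).trans (subset_insert _ _)
    · rw [Set.ncard_coe_finset]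
      exact (hT i).2
  · refine ⟨?_, Or.inr (Or.inl ⟨Finset.coe_subset.2 (hT' i).1, ?_⟩)⟩
    · rw [← hE]
      exact ((Finset.coe_subset.2 (hT' i).1).trans subset_union_right).trans (subset_insert _ _)
    · rw [Set.ncard_coe_finset]
      exact (hT' i).2
  · have a1 : (P i : Set α) ⊆ FL := Finset.coe_subset.2 (hP i).1
    have a2 : (P' i : Set α) ⊆ FX := Finset.coe_subset.2 (hP' i).1
    refine ⟨?_, Or.inr (Or.inr ⟨mem_insert _ _, ?_, ?_⟩)⟩
    · rw [← hE]
      exact insert_subset_insert (union_subset_union a1 a2)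
    · rw [insert_inter_of_notMem hyL, union_inter_distrib_right, inter_eq_left.2 a1,
        (hd.symm.mono_left a2).inter_eq, union_empty, Set.ncard_coe_finset]
      exact (hP i).2
    · rw [insert_inter_of_notMem hyX, union_inter_distrib_right, inter_eq_left.2 a2,
        (hd.mono_left a1).inter_eq, empty_union, Set.ncard_coe_finset]
      exact (hP' i).2

end Pool.Agent.helper9.HB49
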